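import Pool.Agent.Helper65.FP.Defs

/-!
FP-15. Separation passes to finite-index overgroups of `L`.

Proof. Let `Φ ⊆ L'` be a finite set such that for every `l ∈ L'` there is `f ∈ Φ` with `l * f ∈ L` (finitely many cosets, `L.relIndex L' ≠ 0`; e.g.
`Subgroup.relIndex`, `Subgroup.subgroupOf`, `Subgroup.exists_finset_card_le_mul`, `Subgroup.FiniteIndex`; inverses of representatives of the left cosets `f⁻¹ L`...).
For every `x : G` let `r x` be the representative of the left coset `x L'` (`Quotient.out`): `r x = r y` if `x⁻¹ * y ∈ L'`, `(r x)⁻¹ * x ∈ L'`. Choose `f x ∈ Φ` with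
`(r x)⁻¹ * x * f x ∈ L`. Given `T ⊆ L'`, `S ⊆ K`: apply `h` to `T₁ = {a⁻¹ * t * b | a, b ∈ Φ, t ∈ T} ∩ L` and `S₁ = {a⁻¹ * s * b | a, b ∈ Φ, s ∈ S}` (`⊆ K` as
`Φ ⊆ L' ≤ K`): `w₁`, `E₁`. Put `w x = w₁ (x * f x)`, `E = {a * e * b⁻¹ | a, b ∈ Φ, e ∈ E₁}`. A step `x⁻¹ * y = t ∈ T`: `r x = r y`, so
`(x * f x)⁻¹ * (y * f y) = (f x)⁻¹ * t * f y` lies in `L` and in `T₁`. A step in `S` gives a step in `S₁`. So chains are mapped to chains
(`Chain.map` with `fun z => z * f z`) and `x⁻¹ * y = f x * ((x * f x)⁻¹ * (y * f y)) * (f y)⁻¹ ∈ E`.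
-/

set_option autoImplicit false

namespace Pool.Agent.Helper65.FP

open Pool.Agent.Helper65.TH Pool.Agent.Helper65.GN

variable {G : Type*} [Group G]

/-- transversals -/
theorem exists_transversal (L L' : Subgroup G) (hi : L.relIndex L' ≠ 0) :
    ∃ F : Finset G, (∀ f ∈ F, f ∈ L') ∧ ∀ l ∈ L', ∃ f ∈ F, l * f ∈ L := by
  classical
  have hfi : (L.subgroupOf L').FiniteIndex := ⟨hi⟩
  have hfin : Finite (L' ⧸ L.subgroupOf L') := Subgroup.finite_quotient_of_finiteIndex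
  have := Fintype.ofFinite (L' ⧸ L.subgroupOf L')
  refine ⟨Finset.univ.image fun c : L' ⧸ L.subgroupOf L' => ((Quotient.out c : L') : G),
    ?_, ?_⟩
  · intro f hf
    obtain ⟨c, -, rfl⟩ := Finset.mem_image.1 hf
    exact (Quotient.out c).2
  · intro l hl
    let l' : L' := ⟨l, hl⟩
    refine ⟨_, Finset.mem_image.2 ⟨((l'⁻¹ : L') : L' ⧸ L.subgroupOf L'), Finset.mem_univ _, rfl⟩, ?_⟩
    have h1 : ((l'⁻¹ : L') : L' ⧸ L.subgroupOf L') =
        ((Quotient.out ((l'⁻¹ : L') : L' ⧸ L.subgroupOf L') : L') : L' ⧸ L.subgroupOf L') :=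
      (Quotient.out_eq _).symm
    have h2 := QuotientGroup.eq.1 h1
    rw [Subgroup.mem_subgroupOf] at h2
    simpa using h2

theorem sep_index (K L L' : Subgroup G) (hK : L' ≤ K) (hi : L.relIndex L' ≠ 0) {n : ℕ}
    (h : Sep K L n) : Sep K L' n := by
  classical
  obtain ⟨Φ, hΦ, hΦL⟩ := exists_transversal L L' hi
  intro T S hT hS
  let T₁ : Finset G := ((Φ ×ˢ (T ×ˢ Φ)).image fun p => p.1⁻¹ * p.2.1 * p.2.2).filter
    fun g => g ∈ L
  let S₁ : Finset G := (Φ ×ˢ (S ×ˢ Φ)).image fun p => p.1⁻¹ * p.2.1 * p.2.2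
  have hT₁ : ∀ s ∈ T₁, s ∈ L := fun s hs => (Finset.mem_filter.1 hs).2
  have hS₁ : ∀ s ∈ S₁, s ∈ K := by
    intro s hs
    obtain ⟨⟨c, s', c'⟩, hp, rfl⟩ := Finset.mem_image.1 hs
    rw [Finset.mem_product, Finset.mem_product] at hp
    exact K.mul_mem (K.mul_mem (K.inv_mem (hK (hΦ _ hp.1))) (hS _ hp.2.1)) (hK (hΦ _ hp.2.2))
  obtain ⟨w₁, E₁, h1, h2, h3⟩ := h T₁ S₁ hT₁ hS₁
  let r : G → G := fun x => Quotient.out (x : G ⧸ L')
  have hr1 : ∀ x, (r x)⁻¹ * x ∈ L' := by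
    intro x
    exact QuotientGroup.eq.1 (Quotient.out_eq (x : G ⧸ L'))
  have hr2 : ∀ x y, x⁻¹ * y ∈ L' → r x = r y := by
    intro x y hxy
    have : (x : G ⧸ L') = (y : G ⧸ L') := QuotientGroup.eq.2 hxy
    change Quotient.out (x : G ⧸ L') = Quotient.out (y : G ⧸ L')
    rw [this]
  have hf : ∀ x, ∃ f ∈ Φ, (r x)⁻¹ * x * f ∈ L := fun x => hΦL _ (hr1 x)
  choose f hfΦ hfL using hf
  have hid : ∀ x y : G, (x * f x)⁻¹ * (y * f y) = (f x)⁻¹ * (x⁻¹ * y) * f y := by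
    intro x y
    group
  have hE : ∀ x y : G, (x * f x)⁻¹ * (y * f y) ∈ E₁ →
      x⁻¹ * y ∈ (Φ ×ˢ (E₁ ×ˢ Φ)).image fun p => p.1 * p.2.1 * p.2.2⁻¹ := by
    intro x y hxy
    refine Finset.mem_image.2 ⟨(f x, _, f y), Finset.mem_product.2
      ⟨hfΦ x, Finset.mem_product.2 ⟨hxy, hfΦ y⟩⟩, ?_⟩
    change f x * ((x * f x)⁻¹ * (y * f y)) * (f y)⁻¹ = x⁻¹ * y
    group
  refine ⟨fun x => w₁ (x * f x), (Φ ×ˢ (E₁ ×ˢ Φ)).image fun p => p.1 * p.2.1 * p.2.2⁻¹,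
    fun x => h1 _, ?_, ?_⟩
  · intro x hx y hxy
    apply hE
    apply h2 (x * f x) hx (y * f y)
    refine hxy.map (fun z => z * f z) ?_
    intro a b hab hb
    refine ⟨?_, hb⟩
    have hab' : a⁻¹ * b ∈ T := by exact_mod_cast hab
    have hr := hr2 a b (hT _ hab')
    refine Finset.mem_coe.2 (Finset.mem_filter.2 ⟨Finset.mem_image.2 ⟨(f a, a⁻¹ * b, f b),
      Finset.mem_product.2 ⟨hfΦ a, Finset.mem_product.2 ⟨hab', hfΦ b⟩⟩, (hid a b).symm⟩, ?_⟩)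
    have h4 : (a * f a)⁻¹ * (b * f b) = ((r a)⁻¹ * a * f a)⁻¹ * ((r b)⁻¹ * b * f b) := by
      rw [hr]
      group
    rw [h4]
    exact L.mul_mem (L.inv_mem (hfL a)) (hfL b)
  · intro i hi' x hx y hxy
    apply hE
    apply h3 i hi' (x * f x) hx (y * f y)
    refine hxy.map (fun z => z * f z) ?_
    intro a b hab hb
    refine ⟨?_, hb⟩
    have hab' : a⁻¹ * b ∈ S := by exact_mod_cast hab
    exact Finset.mem_coe.2 (Finset.mem_image.2 ⟨(f a, a⁻¹ * b, f b),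
      Finset.mem_product.2 ⟨hfΦ a, Finset.mem_product.2 ⟨hab', hfΦ b⟩⟩, (hid a b).symm⟩)

end Pool.Agent.Helper65.FP
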