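import Pool.Agent.Helper65.GN.Xset
import Pool.Agent.Helper65.FP.Index

/-!
Project FP, part 2: commensurated steps. Definitions.
-/

set_option autoImplicit false

namespace Pool.Agent.Helper65.FP

/-- `K` is commensurated by `K'` (finite transversals form): for every `g ∈ K'` the subgroup
`K ∩ g K g⁻¹` has finite index in `K`. -/
def CommT {G : Type*} [Group G] (K K' : Subgroup G) : Prop :=
  ∀ g ∈ K', ∃ F : Finset G, (∀ f ∈ F, f ∈ K) ∧ ∀ k ∈ K, ∃ f ∈ F, g⁻¹ * (k * f) * g ∈ K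

/-- the elements `g` of `K` with `b * g * b⁻¹ ∈ L` -/
def cj {G : Type*} [Group G] (K L : Subgroup G) (b : G) : Subgroup G :=
  (L.comap (MulAut.conj b).toMonoidHom) ⊓ K

theorem mem_cj {G : Type*} [Group G] {K L : Subgroup G} {b g : G} :
    g ∈ cj K L b ↔ b * g * b⁻¹ ∈ L ∧ g ∈ K := by
  simp [cj, Subgroup.mem_inf, MulAut.conj_apply]

theorem CommT.left {G : Type*} [Group G] {K K' : Subgroup G} (h : CommT K K') {g : G}
    (hg : g ∈ K') : ∃ F : Finset G, (∀ f ∈ F, f ∈ K) ∧ ∀ k ∈ K, ∃ f ∈ F,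
      g⁻¹ * (f⁻¹ * k) * g ∈ K := by
  obtain ⟨F, h1, h2⟩ := h g hg
  refine ⟨F, h1, fun k hk => ?_⟩
  obtain ⟨f, hf, hfk⟩ := h2 k⁻¹ (K.inv_mem hk)
  refine ⟨f, hf, ?_⟩
  have h3 := K.inv_mem hfk
  have h4 : (g⁻¹ * (k⁻¹ * f) * g)⁻¹ = g⁻¹ * (f⁻¹ * k) * g := by group
  rwa [h4] at h3

end Pool.Agent.Helper65.FP
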