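import Pool.Agent.Helper65.FP.Defs

/-!
FP-10. Chains in a subset of `V` with steps in the factors: up, inside one cell, down.

Notation: for points `z` of `U` with `idx z = some c` write `CE z` if `par z ∈ U` and there is a chain in `V` with steps
in `T c` from `z` to `par z` (so `FPar z`: `z⁻¹ * par z ∈ E c ⊆ E'` by `hE`; `0 < ℓ z` by `none_iff`).
Proof. Invariant for the points `z` of the chain from `x` (`Chain.rec'`): there are `c : ι` and `i j : ℕ` such that
with `p = par^[i] x` and `q = par^[j] z`: `par^[a] x ∈ U` for `a ≤ i`, `CE (par^[a] x)` (for some index, the `idx` of the point)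
for `a < i`, the same for `z` and `j`, and there is a chain in `V` with steps in `T c` from `p` to `q`. (Start: if the chain has no
step the theorem is clear: `i = j = 0`, `1 ∈ E'`; use the invariant `z = x ∨ ...`, or treat the first step
like the step from `j = 0`, `p = q = z = x` with the constant chain.) Step from `z` to `z' = z * t`, `t ∈ T c'`, `z, z' ∈ U ⊆ V`;
let `G` be the alternative of `gate z c' t`:
(a) both indices `= some c'`, `par z' = par z`; (b) `idx z = some c'`, `z' = par z`;
(c) `idx z ≠ some c'`, `idx z' = some c'`, `par z' = z`; (d) `z' = z`: nothing to do.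
Case `j ≥ 1`: (a) `CE z` is a chain with steps in `T c'` (as `idx z = some c'`), so `CE z'` (go from `z'` back to `z`, then to
`par z`), same `i`, `j`, `c`. (b) `j - 1`. (c) `j + 1`, with `CE z'` (one step back to `z`).
Case `j = 0` (`q = z`): (c) `j = 1`, `CE z'`. (a) or (b) with `c' = c`: `z'` is in the same cell: extend the chain from `p` by
the step `t`, `j = 0`. (a) or (b) with `c' ≠ c`: then `idx z = some c' ≠ some c`. The chain from `p` to `z` has steps in `T c ⊆ A c`,
so `a = z⁻¹ * p ∈ A c`; `gate z c a` is of type (c) or (d) because `idx z ≠ some c`. Type (d): `p = z`; take the cell of type `c'`,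
the chain from `p = z` to `z'` with one step, `j = 0`. Type (c): `idx p = some c`, `par p = z`, and the chain from `p` to
`z` shows `CE p`; replace `i` by `i + 1` (`par^[i + 1] x = z ∈ U`), the new `p` is `z`, and the chain is the one step from
`z` to `z'`, with `T c'`, `j = 0`.
At the end: `i`, `j` as in the invariant, `FPar` from `CE`, and `p⁻¹ * q ∈ E c ⊆ E'` by `hE`.
(`Function.iterate_succ_apply`, `Function.iterate_succ_apply'`; chains can be reversed by `Chain.symm` as `T c` is
symmetric and the points are in `V`.)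
-/

set_option autoImplicit false

namespace Pool.Agent.Helper65.FP

open Pool.Agent.Helper65.TH Pool.Agent.Helper65.GN

variable {G ι : Type*} [Group G]

/-- the parent of `z` is reached inside the cell -/
def CE {A : ι → Subgroup G} (Tr : GTree A) (T : ι → Finset G) (U V : Set G) (z : G) : Prop :=
  ∃ c, Tr.idx z = some c ∧ Tr.par z ∈ U ∧ Chain (T c : Set G) (fun b => b ∈ V) z (Tr.par z)

/-- the invariant -/
def Inv {A : ι → Subgroup G} (Tr : GTree A) (T : ι → Finset G) (U V : Set G) (x z : G) : Prop :=
  ∃ (c : ι) (i j : ℕ), (∀ a ≤ i, Tr.par^[a] x ∈ U) ∧ (∀ a < i, CE Tr T U V (Tr.par^[a] x)) ∧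
    (∀ a ≤ j, Tr.par^[a] z ∈ U) ∧ (∀ a < j, CE Tr T U V (Tr.par^[a] z)) ∧
    Chain (T c : Set G) (fun b => b ∈ V) (Tr.par^[i] x) (Tr.par^[j] z)

theorem Inv.next {A : ι → Subgroup G} (Tr : GTree A) (T : ι → Finset G)
    (hTA : ∀ i, ∀ t ∈ T i, t ∈ A i) (hTinv : ∀ i, ∀ t ∈ T i, t⁻¹ ∈ T i) (U V : Set G) (hUV : U ⊆ V)
    {x z : G} (h : Inv Tr T U V x z) (c' : ι) (t : G) (ht : t ∈ T c') (hz' : z * t ∈ U) :
    Inv Tr T U V x (z * t) := by
  obtain ⟨c, i, j, hi1, hi2, hj1, hj2, hch⟩ := h
  have hz : z ∈ U := hj1 0 (Nat.zero_le _)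
  have htA := hTA c' t ht
  have hback : Chain (T c' : Set G) (fun b => b ∈ V) (z * t) z := by
    refine (Chain.refl _ _ _).step ?_ (hUV hz)
    have : (z * t)⁻¹ * z = t⁻¹ := by group
    rw [this]
    exact hTinv c' t ht
  have hforth : Chain (T c' : Set G) (fun b => b ∈ V) z (z * t) := by
    refine (Chain.refl _ _ _).step ?_ (hUV hz')
    rw [inv_mul_cancel_left]
    exact ht
  -- one more generation
  have hup : Tr.idx (z * t) = some c' → Tr.par (z * t) = z → Inv Tr T U V x (z * t) := by
    intro h2 h3
    refine ⟨c, i, j + 1, hi1, hi2, ?_, ?_, ?_⟩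
    · rintro (_ | a) ha
      · exact hz'
      · rw [Function.iterate_succ_apply, h3]
        exact hj1 a (by omega)
    · rintro (_ | a) ha
      · exact ⟨c', h2, by rw [Function.iterate_zero, id, h3]; exact hz, by
          rw [Function.iterate_zero, id, h3]; exact hback⟩
      · rw [Function.iterate_succ_apply, h3]
        exact hj2 a (by omega)
    · rw [Function.iterate_succ_apply, h3]
      exact hch
  rcases j with _ | j
  · -- the chain ends in the cell
    have hch' : Chain (T c : Set G) (fun b => b ∈ V) (Tr.par^[i] x) z := hch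
    have hzero : Tr.idx z = some c' → Inv Tr T U V x (z * t) := by
      intro h1
      by_cases hcc : c' = c
      · subst hcc
        refine ⟨c', i, 0, hi1, hi2, ?_, ?_, hch'.trans hforth⟩
        · intro a ha
          have : a = 0 := by omega
          rw [this]
          exact hz'
        · intro a ha
          omega
      · have hne : Tr.idx z ≠ some c := by
          rw [h1]
          intro h5
          exact hcc (Option.some.inj h5)
        have haA : z⁻¹ * Tr.par^[i] x ∈ A c := by
          have h5 := (A c).inv_mem (hch'.mem_subgroup (A c) (hTA c))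
          have h6 : ((Tr.par^[i] x)⁻¹ * z)⁻¹ = z⁻¹ * Tr.par^[i] x := by group
          rwa [h6] at h5
        have hj1' : ∀ a ≤ 0, Tr.par^[a] (z * t) ∈ U := by
          intro a ha
          have : a = 0 := by omega
          rw [this]
          exact hz'
        have hj2' : ∀ a < 0, CE Tr T U V (Tr.par^[a] (z * t)) := by
          intro a ha
          omega
        have hmul : z * (z⁻¹ * Tr.par^[i] x) = Tr.par^[i] x := mul_inv_cancel_left _ _
        rcases Tr.gate z c _ haA with ⟨h5, -, -⟩ | ⟨h5, -, -⟩ | ⟨-, h6, h7⟩ | ⟨-, -, h7⟩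
        · exact absurd h5 hne
        · exact absurd h5 hne
        · rw [hmul] at h6 h7
          have h8 : Tr.par^[i + 1] x = z := by
            rw [Function.iterate_succ_apply', h7]
          refine ⟨c', i + 1, 0, ?_, ?_, hj1', hj2', ?_⟩
          · intro a ha
            by_cases h9 : a ≤ i
            · exact hi1 a h9
            · have : a = i + 1 := by omega
              rw [this, h8]
              exact hz
          · intro a ha
            by_cases h9 : a < i
            · exact hi2 a h9
            · have : a = i := by omega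
              rw [this]
              exact ⟨c, h6, by rw [h7]; exact hz, by rw [h7]; exact hch'⟩
          · rw [h8]
            exact hforth
        · rw [hmul] at h7
          refine ⟨c', i, 0, hi1, hi2, hj1', hj2', ?_⟩
          rw [h7]
          exact hforth
    rcases Tr.gate z c' t htA with ⟨h1, h2, h3⟩ | ⟨h1, h2, h3⟩ | ⟨h1, h2, h3⟩ | ⟨h1, h2, h3⟩
    · exact hzero h1
    · exact hzero h1
    · exact hup h2 h3
    · rw [h3]
      exact ⟨c, i, 0, hi1, hi2, hj1, hj2, hch⟩
  · -- the chain has left the cell
    obtain ⟨c0, hc0, hpU, hpc⟩ := hj2 0 (Nat.succ_pos j)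
    rw [Function.iterate_zero, id] at hc0 hpU hpc
    rcases Tr.gate z c' t htA with ⟨h1, h2, h3⟩ | ⟨h1, h2, h3⟩ | ⟨h1, h2, h3⟩ | ⟨h1, h2, h3⟩
    · have h4 : c0 = c' := Option.some.inj (hc0.symm.trans h1)
      subst h4
      refine ⟨c, i, j + 1, hi1, hi2, ?_, ?_, ?_⟩
      · rintro (_ | a) ha
        · exact hz'
        · rw [Function.iterate_succ_apply, h3, ← Function.iterate_succ_apply]
          exact hj1 (a + 1) ha
      · rintro (_ | a) ha
        · refine ⟨c0, h2, ?_, ?_⟩
          · rw [Function.iterate_zero, id, h3]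
            exact hpU
          · rw [Function.iterate_zero, id, h3]
            exact hback.trans hpc
        · rw [Function.iterate_succ_apply, h3, ← Function.iterate_succ_apply]
          exact hj2 (a + 1) ha
      · rw [Function.iterate_succ_apply, h3, ← Function.iterate_succ_apply]
        exact hch
    · refine ⟨c, i, j, hi1, hi2, ?_, ?_, ?_⟩
      · intro a ha
        rw [h3, ← Function.iterate_succ_apply]
        exact hj1 (a + 1) (by omega)
      · intro a ha
        rw [h3, ← Function.iterate_succ_apply]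
        exact hj2 (a + 1) (by omega)
      · rw [h3, ← Function.iterate_succ_apply]
        exact hch
    · exact hup h2 h3
    · rw [h3]
      exact ⟨c, i, j + 1, hi1, hi2, hj1, hj2, hch⟩

theorem cells {A : ι → Subgroup G} (Tr : GTree A) (T : ι → Finset G)
    (hTA : ∀ i, ∀ t ∈ T i, t ∈ A i) (hTinv : ∀ i, ∀ t ∈ T i, t⁻¹ ∈ T i) (U V : Set G) (hUV : U ⊆ V)
    (E : ι → Finset G) (hE : ∀ i, Bdd (T i : Set G) V (E i)) (E' : Finset G) (h1 : (1 : G) ∈ E')
    (hE' : ∀ i, E i ⊆ E') {x y : G} (hx : x ∈ U)
    (hxy : Chain {t | ∃ i, t ∈ T i} (fun b => b ∈ U) x y) :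
    ∃ i j : ℕ, (∀ a ≤ i, Tr.par^[a] x ∈ U) ∧ (∀ a < i, FPar Tr.par Tr.ℓ V E' (Tr.par^[a] x)) ∧
      (∀ a ≤ j, Tr.par^[a] y ∈ U) ∧ (∀ a < j, FPar Tr.par Tr.ℓ V E' (Tr.par^[a] y)) ∧
      (Tr.par^[i] x)⁻¹ * Tr.par^[j] y ∈ E' := by
  have key : y = x ∨ Inv Tr T U V x y := by
    refine hxy.rec' (R := fun z => z = x ∨ Inv Tr T U V x z) (Or.inl rfl) ?_
    rintro z z' _ hz ⟨c', ht⟩ hz'
    right
    have hzz : z * (z⁻¹ * z') = z' := mul_inv_cancel_left _ _
    rcases hz with rfl | hz
    · refine ⟨c', 0, 0, ?_, ?_, ?_, ?_, (Chain.refl _ _ _).step ht (hUV hz')⟩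
      · intro a ha
        have : a = 0 := by omega
        rw [this]
        exact hx
      · intro a ha
        omega
      · intro a ha
        have : a = 0 := by omega
        rw [this]
        exact hz'
      · intro a ha
        omega
    · have h2 := hz.next Tr T hTA hTinv U V hUV c' (z⁻¹ * z') ht (by rw [hzz]; exact hz')
      rwa [hzz] at h2
  have hF : ∀ z ∈ U, CE Tr T U V z → FPar Tr.par Tr.ℓ V E' z := by
    rintro z hz ⟨c, hc, hp, hch⟩
    refine ⟨?_, hUV hz, hUV hp, hE' c (hE c z (hUV hz) _ hch)⟩
    by_contra hcon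
    have h2 := (Tr.none_iff z).2 (by omega)
    rw [h2] at hc
    exact absurd hc (by simp)
  rcases key with rfl | ⟨c, i, j, hi1, hi2, hj1, hj2, hch⟩
  · refine ⟨0, 0, ?_, ?_, ?_, ?_, ?_⟩
    · intro a ha
      have : a = 0 := by omega
      rw [this]
      exact hx
    · intro a ha
      omega
    · intro a ha
      have : a = 0 := by omega
      rw [this]
      exact hx
    · intro a ha
      omega
    · rw [Function.iterate_zero, id, inv_mul_cancel]
      exact h1
  · refine ⟨i, j, hi1, fun a ha => hF _ (hi1 a ha.le) (hi2 a ha), hj1,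
      fun a ha => hF _ (hj1 a ha.le) (hj2 a ha), ?_⟩
    exact hE' c (hE c _ (hUV (hi1 i le_rfl)) _ hch)

end Pool.Agent.Helper65.FP
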