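import Mathlib

/-!
FP-20. Greedy colouring. MATHLIB ONLY.

Proof. Well-order `X` (`WellOrderingRel`, `IsWellOrder`), define by well-founded recursion `c x` = the least element of `Fin (Δ + 1)` which is not a colour `c y` of
some `y ∈ s x` with `y < x` (these are at most `Δ` colours, `Finset.exists_mem_notMem_of_card_lt_card` or
`Finset.exists_not_mem..`). If `adj x y`, `x ≠ y`, then `x < y` or `y < x`; as `adj` is symmetric the later one has a colour different from the earlier one.
-/

set_option autoImplicit false

namespace Pool.Agent.Helper65.FP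

theorem greedy_colouring {X : Type*} (adj : X → X → Prop) (hsymm : ∀ x y, adj x y → adj y x)
    (Δ : ℕ) (s : X → Finset X) (hs : ∀ x, (s x).card ≤ Δ) (hadj : ∀ x y, adj x y → y ∈ s x) :
    ∃ c : X → Fin (Δ + 1), ∀ x y, adj x y → x ≠ y → c x ≠ c y := by
  classical
  have hwf : WellFounded (WellOrderingRel (α := X)) := IsWellFounded.wf
  have hex : ∀ (x : X) (f : (y : X) → WellOrderingRel y x → Fin (Δ + 1)), ∃ e : Fin (Δ + 1),
      e ∉ (s x).image (fun y => if h : WellOrderingRel y x then f y h else 0) := by
    intro x f
    have h1 : ((s x).image (fun y => if h : WellOrderingRel y x then f y h else 0)).card <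
        (Finset.univ : Finset (Fin (Δ + 1))).card := by
      rw [Finset.card_univ, Fintype.card_fin]
      exact Nat.lt_succ_of_le (Finset.card_image_le.trans (hs x))
    obtain ⟨e, -, he⟩ := Finset.exists_mem_notMem_of_card_lt_card h1
    exact ⟨e, he⟩
  choose step hstep using hex
  have hfix : ∀ x, hwf.fix step x = step x (fun y _ => hwf.fix step y) := fun x =>
    hwf.fix_eq step x
  have key : ∀ x y, adj x y → WellOrderingRel y x → hwf.fix step x ≠ hwf.fix step y := by
    intro x y hxy hr heq
    apply hstep x (fun y _ => hwf.fix step y)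
    rw [← hfix x, heq, Finset.mem_image]
    exact ⟨y, hadj x y hxy, by rw [dif_pos hr]⟩
  refine ⟨hwf.fix step, fun x y hxy hne => ?_⟩
  rcases trichotomous_of (WellOrderingRel (α := X)) x y with h | h | h
  · exact (key y x (hsymm x y hxy) h).symm
  · exact absurd h hne
  · exact key x y hxy h

end Pool.Agent.Helper65.FP
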