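import Pool.Agent.Helper65.FP.CDefs
import Pool.Agent.Helper65.FP.Greedy

/-!
FP-21. Colouring the cosets of a commensurated subgroup.

Proof. On `X = G ⧸ K` let `adj q q'` be: there are `x : G`, `b, b' ∈ B`, `k ∈ K` with `q = x * b` and `q' = x * k * b'` (classes). It is symmetric
(`x' = x * k`, `k⁻¹`). There is a finite set `R ⊆ G` such that `adj (y K) q'` implies `q' = y * r` (class) for some `r ∈ R`: if `y K = x b K` then
`x = y * k₀ * b⁻¹`, `k₀ ∈ K`, so `q'` is the class of `y * k₀ * b⁻¹ * k * b'`. By `CommT.left` for `g = b'`: a finite set `F b' ⊆ K` with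
`b'⁻¹ * (f⁻¹ * k) * b' ∈ K` for some `f ∈ F b'`: `k * b' = f * b' * (b'⁻¹ * f⁻¹ * k * b')`, so `k * b'` and `f * b'` have the same class. So `q'` is the class of
`y * k₀ * g₂`, `g₂ = b⁻¹ * f * b' ∈ K'`, and by `CommT.left` for `g₂` the class of `y * f₂ * g₂` with `f₂ ∈ F g₂`. `R` = the set of the `f₂ * b⁻¹ * f * b'`.
`greedy_colouring` with `s q = R.image (fun r => class of (q.out * r))`, `Δ = R.card`: `c`. Put `κ x = c (class of x)`. If `κ (x * b) = κ (x * k * b')` then the classes of `x * b`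
and `x * k * b'` are adjacent with the same colour, so they are equal: `(x * b)⁻¹ * (x * k * b') = b⁻¹ * k * b' ∈ K`.
-/

set_option autoImplicit false

namespace Pool.Agent.Helper65.FP

variable {G : Type*} [Group G]

theorem exists_colour_comm (K K' : Subgroup G) (hKK' : K ≤ K') (hc : CommT K K') (B : Finset G)
    (hB : ∀ b ∈ B, b ∈ K') : ∃ (m : ℕ) (κ : G → Fin m), (∀ x, ∀ k ∈ K, κ (x * k) = κ x) ∧
      ∀ x, ∀ b ∈ B, ∀ k ∈ K, ∀ b' ∈ B, κ (x * b) = κ (x * k * b') → b⁻¹ * k * b' ∈ K := by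
  classical
  choose F hF1 hF2 using fun (g : G) (hg : g ∈ K') => hc.left hg
  let Fs : G → Finset G := fun g => if h : g ∈ K' then F g h else ∅
  have hFs : ∀ g ∈ K', (∀ f ∈ Fs g, f ∈ K) ∧ ∀ k ∈ K, ∃ f ∈ Fs g, g⁻¹ * (f⁻¹ * k) * g ∈ K := by
    intro g hg
    have h1 : Fs g = F g hg := dif_pos hg
    rw [h1]
    exact ⟨hF1 g hg, hF2 g hg⟩
  let R : Finset G := (B ×ˢ B).biUnion fun p => (Fs p.2).biUnion fun f =>
    (Fs (p.1⁻¹ * f * p.2)).image fun f₂ => f₂ * (p.1⁻¹ * f * p.2)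
  let adj : G ⧸ K → G ⧸ K → Prop := fun q q' => ∃ x : G, ∃ b ∈ B, ∃ k ∈ K, ∃ b' ∈ B,
    q = ((x * b : G) : G ⧸ K) ∧ q' = ((x * k * b' : G) : G ⧸ K)
  have hsymm : ∀ q q', adj q q' → adj q' q := by
    rintro q q' ⟨x, b, hb, k, hk, b', hb', h1, h2⟩
    refine ⟨x * k, b', hb', k⁻¹, K.inv_mem hk, b, hb, h2, ?_⟩
    rw [h1]
    congr 1
    group
  have hR : ∀ (y : G) (q' : G ⧸ K), adj (y : G ⧸ K) q' → ∃ r ∈ R, q' = ((y * r : G) : G ⧸ K) := by
    rintro y q' ⟨x, b, hb, k, hk, b', hb', h1, h2⟩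
    have hk₀ : y⁻¹ * (x * b) ∈ K := QuotientGroup.eq.1 h1
    obtain ⟨f, hf, hfk⟩ := (hFs b' (hB b' hb')).2 k hk
    have hfK : f ∈ K := (hFs b' (hB b' hb')).1 f hf
    have hg₂ : b⁻¹ * f * b' ∈ K' :=
      K'.mul_mem (K'.mul_mem (K'.inv_mem (hB b hb)) (hKK' hfK)) (hB b' hb')
    obtain ⟨f₂, hf₂, hfk₂⟩ := (hFs _ hg₂).2 _ hk₀
    refine ⟨f₂ * (b⁻¹ * f * b'), ?_, ?_⟩
    · refine Finset.mem_biUnion.2 ⟨(b, b'), Finset.mk_mem_product hb hb', ?_⟩
      exact Finset.mem_biUnion.2 ⟨f, hf, Finset.mem_image.2 ⟨f₂, hf₂, rfl⟩⟩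
    · rw [h2]
      symm
      rw [QuotientGroup.eq]
      have h3 : (y * (f₂ * (b⁻¹ * f * b')))⁻¹ * (x * k * b') =
          ((b⁻¹ * f * b')⁻¹ * (f₂⁻¹ * (y⁻¹ * (x * b))) * (b⁻¹ * f * b')) *
            (b'⁻¹ * (f⁻¹ * k) * b') := by
        group
      rw [h3]
      exact K.mul_mem hfk₂ hfk
  obtain ⟨c, hcol⟩ := greedy_colouring adj hsymm R.card
    (fun q => R.image fun r => ((q.out * r : G) : G ⧸ K)) (fun q => Finset.card_image_le)
    (by
      intro q q' h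
      have h1 : ((q.out : G) : G ⧸ K) = q := QuotientGroup.out_eq' q
      obtain ⟨r, hr, hr2⟩ := hR q.out q' (by rw [h1]; exact h)
      exact Finset.mem_image.2 ⟨r, hr, hr2.symm⟩)
  refine ⟨R.card + 1, fun x => c (x : G ⧸ K), ?_, ?_⟩
  · intro x k hk
    have h1 : ((x * k : G) : G ⧸ K) = (x : G ⧸ K) := by
      rw [eq_comm, QuotientGroup.eq]
      simpa using hk
    simp only [h1]
  · intro x b hb k hk b' hb' h
    by_contra hcon
    refine hcol _ _ ⟨x, b, hb, k, hk, b', hb', rfl, rfl⟩ (fun he => hcon ?_) h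
    have h1 := QuotientGroup.eq.1 he
    have h2 : (x * b)⁻¹ * (x * k * b') = b⁻¹ * k * b' := by group
    rwa [h2] at h1

end Pool.Agent.Helper65.FP
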