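import Pool.Agent.Helper65.FP.Coset

/-!
FP-05. Chains of forced points which meet few cosets of `L` are bounded, with a bound which does not
depend on `k`.

Proof. Induction on `q`. `q = 0`: `Q = ∅`, the set is empty (`bdd_empty`). Step: let `D`, `κ` be given for
`q`. Let `P₁ = P ∪ {f * e * f' | f, f' ∈ P, e ∈ D}` and `F = P₁.filter (· ∈ L)`. For every `g ∈ F` there is a
`λ` in `hnear`; let `lam` be the maximum over the finite set `F`. Let `D₁` be from `coset_bdd` for `E`, `F`,
`lam`. Take `κ' = max κ lam` and `D' = D ∪ suE P D D₁`. Let `k ≥ κ'` and `Q.card ≤ q + 1`. If `Q.card ≤ q` use the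
induction hypothesis. Otherwise let `c ∈ Q`: the set is contained in
`X₀ ∪ X₁`, `X₀ = {forced, coset in Q.erase c}`, `X₁ = {forced, coset = c}`. `X₀` is `P`-bounded by `D`. `X₁` is
`P₁`-bounded by `D₁`: the points of a chain in `X₁` are all in the same coset, so the steps are in `L` (`QuotientGroup.eq`),
hence in `F`, and it is a chain of forced points. `bdd_union` with `C = ⊤`.
-/

set_option autoImplicit false

namespace Pool.Agent.Helper65.FP

open Pool.Agent.Helper65.GN

variable {G : Type*} [Group G]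

theorem confine (L : Subgroup G) (par : G → G) (ℓ : G → ℕ) (V : Set G) (E P : Finset G)
    (hnear : ∀ g ∈ L, ∃ lam : ℕ, ∀ x, ∃ i ≤ lam, ∃ j ≤ lam, par^[i] x = par^[j] (x * g)) (q : ℕ) :
    ∃ (D : Finset G) (κ : ℕ), ∀ (k : ℕ) (M W : Set G), 1 ≤ k → κ ≤ k → Wall par ℓ V E k M W →
      ∀ Q : Finset (G ⧸ L), Q.card ≤ q →
        Bdd (P : Set G) {x | (x ∈ W ∧ x ∉ M) ∧ (x : G ⧸ L) ∈ Q} D := by
  classical
  choose! lam hlam using hnear
  induction q with
  | zero =>
    refine ⟨∅, 0, ?_⟩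
    intro k M W _ _ _ Q hQ x hx
    have : Q = ∅ := Finset.card_eq_zero.1 (Nat.le_zero.1 hQ)
    rw [this] at hx
    exact absurd hx.2 (Finset.notMem_empty _)
  | succ q ih =>
    obtain ⟨D, κ, hD⟩ := ih
    set P₁ : Finset G := P ∪ Finset.image₂ (fun a b => a * b)
      (Finset.image₂ (fun a b => a * b) P D) P with hP₁
    set F : Finset G := P₁.filter (fun g => g ∈ L) with hF
    have hle : ∀ g ∈ F, lam g ≤ F.sup lam := fun g hg => Finset.le_sup hg
    obtain ⟨D₁, hD₁⟩ := coset_bdd par ℓ V E F (F.sup lam) (by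
      intro x g hg
      obtain ⟨i, hi, j, hj, hij⟩ := hlam g (Finset.mem_filter.1 hg).2 x
      exact ⟨i, hi.trans (hle g hg), j, hj.trans (hle g hg), hij⟩)
    refine ⟨D ∪ suE P D D₁, max κ (F.sup lam), ?_⟩
    intro k M W hk hκ hW Q hQ
    by_cases hQq : Q.card ≤ q
    · exact (hD k M W hk ((le_max_left _ _).trans hκ) hW Q hQq).mono (Set.Subset.refl _)
        (Set.Subset.refl _) Finset.subset_union_left
    have hQne : Q.Nonempty := by
      rw [← Finset.card_pos]
      omega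
    obtain ⟨c, hc⟩ := hQne
    have hcard : (Q.erase c).card ≤ q := by
      rw [Finset.card_erase_of_mem hc]
      omega
    have h₀ := hD k M W hk ((le_max_left _ _).trans hκ) hW (Q.erase c) hcard
    have h₁ : Bdd (P₁ : Set G) {x | (x ∈ W ∧ x ∉ M) ∧ (x : G ⧸ L) = c} D₁ := by
      intro x hx y hxy
      have h2 : Pool.Agent.Helper65.TH.Chain (F : Set G) (fun b => b ∈ {x | x ∈ W ∧ x ∉ M}) x y ∧
          y ∈ {x | (x ∈ W ∧ x ∉ M) ∧ (x : G ⧸ L) = c} := by
        refine hxy.rec' (R := fun z =>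
          Pool.Agent.Helper65.TH.Chain (F : Set G) (fun b => b ∈ {x | x ∈ W ∧ x ∉ M}) x z ∧
          z ∈ {x | (x ∈ W ∧ x ∉ M) ∧ (x : G ⧸ L) = c})
          ⟨Pool.Agent.Helper65.TH.Chain.refl _ _ _, hx⟩ ?_
        intro a b _ ha hab hb
        refine ⟨ha.1.step ?_ hb.1, hb⟩
        rw [hF, Finset.coe_filter]
        refine ⟨hab, ?_⟩
        have h3 : (a : G ⧸ L) = (b : G ⧸ L) := ha.2.2.trans hb.2.symm
        exact QuotientGroup.eq.1 h3
      exact hD₁ k M W hk ((le_max_right _ _).trans hκ) hW x hx.1 y h2.1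
    have hu := bdd_union (⊤ : Subgroup G) P (fun s _ => Subgroup.mem_top s) _ _ D P₁ D₁ h₀ h₁
      Finset.subset_union_left (by
        intro f hf e he _ f' hf'
        rw [hP₁, Finset.mem_union]
        exact Or.inr (Finset.mem_image₂_of_mem (Finset.mem_image₂_of_mem hf he) hf'))
    refine hu.mono (Set.Subset.refl _) ?_ Finset.subset_union_right
    intro x hx
    by_cases hxc : (x : G ⧸ L) = c
    · exact Or.inr ⟨hx.1, hxc⟩
    · exact Or.inl ⟨hx.1, Finset.mem_erase.2 ⟨hxc, hx.2⟩⟩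

end Pool.Agent.Helper65.FP
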