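import Pool.Agent.Helper65.FP.CDefs
import Pool.Agent.Helper65.GN.Asc

/-!
FP-23. Conjugates of a separated subgroup.

Proof. Let `K₁ = cj K K b` = the `g ∈ K` with `b * g * b⁻¹ ∈ K`. (1) `Sep K₁ (cj K L b) n`: given `T ⊆ cj K L b` and `S ⊆ K₁`, apply `h` to the sets `b T b⁻¹ ⊆ L` and `b S b⁻¹ ⊆ K`: `v`, `E_v`; put
`w x = v (x * b⁻¹)`, `E = {b⁻¹ * e * b | e ∈ E_v}` (as in `GN/Simul.lean`; the first part of the induction step there). (2) `K₁` has finite index in `K`: for `g = b⁻¹ ∈ K'` `CommT` gives a finite `F ⊆ K` with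
`b * (k * f) * b⁻¹ ∈ K` for every `k ∈ K` and some `f ∈ F`, i.e. `k * f ∈ K₁`; so finitely many cosets. Let `N` be the normal core of `K₁` in `K`: a subgroup `N ≤ K₁` of finite
index in `K`, with `g * k * g⁻¹ ∈ N` for `g ∈ K`, `k ∈ N` (`Subgroup.normalCore` of `K₁.subgroupOf K`, mapped to `G` by `K.subtype`; `Subgroup.finiteIndex_normalCore`).
(3) `Sep N (cj K L b ⊓ N) n` (`Sep.mono`), `sep_normal N K`: `Sep K (cj K L b ⊓ N) n`. (4) `cj K L b ⊓ N` has finite index in `cj K L b` (`Subgroup.relIndex` facts: `N.relIndex K ≠ 0` and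
`cj K L b ≤ K`), and `cj K L b ≤ K`: `sep_index`.
-/

set_option autoImplicit false

namespace Pool.Agent.Helper65.FP

open Pool.Agent.Helper65.TH Pool.Agent.Helper65.GN

variable {G : Type*} [Group G]

/-- step (1): conjugation of a separation -/
private theorem sep_conj_one (K L : Subgroup G) {n : ℕ} (h : Sep K L n) (b : G) :
    Sep (cj K K b) (cj K L b) n := by
  classical
  intro T S hT hS
  have hT' : ∀ s ∈ T.image (fun s => b * s * b⁻¹), s ∈ L := by
    intro s hs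
    obtain ⟨s', hs', rfl⟩ := Finset.mem_image.1 hs
    exact (mem_cj.1 (hT s' hs')).1
  have hS' : ∀ s ∈ S.image (fun s => b * s * b⁻¹), s ∈ K := by
    intro s hs
    obtain ⟨s', hs', rfl⟩ := Finset.mem_image.1 hs
    exact (mem_cj.1 (hS s' hs')).1
  obtain ⟨v, Ev, hv1, hv2, hv3⟩ := h (T.image (fun s => b * s * b⁻¹))
    (S.image (fun s => b * s * b⁻¹)) hT' hS'
  have hconj : ∀ x y : G, (x * b⁻¹)⁻¹ * (y * b⁻¹) = b * (x⁻¹ * y) * b⁻¹ := by
    intro x y
    group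
  have hE₀ : ∀ x y : G, (x * b⁻¹)⁻¹ * (y * b⁻¹) ∈ Ev →
      x⁻¹ * y ∈ Ev.image (fun e => b⁻¹ * e * b) := by
    intro x y hxy
    refine Finset.mem_image.2 ⟨_, hxy, ?_⟩
    rw [hconj]
    group
  refine ⟨fun x => v (x * b⁻¹), Ev.image (fun e => b⁻¹ * e * b), fun x => hv1 _, ?_, ?_⟩
  · intro x hx y hxy
    apply hE₀
    apply hv2 (x * b⁻¹) hx (y * b⁻¹)
    refine hxy.map (fun z => z * b⁻¹) ?_
    intro a c hac hc
    refine ⟨?_, hc⟩
    rw [hconj]
    exact Finset.mem_coe.2 (Finset.mem_image.2 ⟨_, Finset.mem_coe.1 hac, rfl⟩)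
  · intro i hi x hx y hxy
    apply hE₀
    apply hv3 i hi (x * b⁻¹) hx (y * b⁻¹)
    refine hxy.map (fun z => z * b⁻¹) ?_
    intro a c hac hc
    refine ⟨?_, hc⟩
    rw [hconj]
    exact Finset.mem_coe.2 (Finset.mem_image.2 ⟨_, Finset.mem_coe.1 hac, rfl⟩)

/-- step (2): the normal core -/
private theorem exists_core (K K₁ : Subgroup G) {F : Finset G} (hF : ∀ f ∈ F, f ∈ K)
    (hcov : ∀ k ∈ K, ∃ f ∈ F, k * f ∈ K₁) : ∃ N : Subgroup G, N ≤ K₁ ∧ N ≤ K ∧
      N.relIndex K ≠ 0 ∧ ∀ g ∈ K, ∀ k ∈ N, g * k * g⁻¹ ∈ N := by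
  have hfin : (K₁.subgroupOf K).FiniteIndex := by
    have hsurj : Function.Surjective
        (fun f : F => (QuotientGroup.mk (⟨f.1, hF f.1 f.2⟩ : K) : K ⧸ K₁.subgroupOf K)) := by
      intro q
      induction q using QuotientGroup.induction_on with
      | H k =>
        obtain ⟨f, hf, hk⟩ := hcov (k : G)⁻¹ (K.inv_mem k.2)
        refine ⟨⟨f, hf⟩, ?_⟩
        symm
        rw [QuotientGroup.eq, Subgroup.mem_subgroupOf]
        exact hk
    have : Finite (K ⧸ K₁.subgroupOf K) := Finite.of_surjective _ hsurj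
    exact Subgroup.finiteIndex_of_finite_quotient
  have hcore : ((K₁.subgroupOf K).normalCore).FiniteIndex := Subgroup.finiteIndex_normalCore _
  have hsub : ((K₁.subgroupOf K).normalCore.map K.subtype).subgroupOf K =
      (K₁.subgroupOf K).normalCore := by
    rw [Subgroup.subgroupOf, Subgroup.comap_map_eq_self_of_injective K.subtype_injective]
  refine ⟨(K₁.subgroupOf K).normalCore.map K.subtype, ?_, ?_, ?_, ?_⟩
  · intro x hx
    obtain ⟨y, hy, rfl⟩ := Subgroup.mem_map.1 hx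
    have := Subgroup.normalCore_le _ hy
    exact Subgroup.mem_subgroupOf.1 this
  · intro x hx
    obtain ⟨y, hy, rfl⟩ := Subgroup.mem_map.1 hx
    exact y.2
  · rw [Subgroup.relIndex, hsub]
    exact hcore.index_ne_zero
  · intro g hg k hk
    obtain ⟨y, hy, rfl⟩ := Subgroup.mem_map.1 hk
    refine Subgroup.mem_map.2 ⟨⟨g, hg⟩ * y * ⟨g, hg⟩⁻¹, ?_, ?_⟩
    · exact (Subgroup.normalCore_normal (K₁.subgroupOf K)).conj_mem y hy ⟨g, hg⟩
    · simp

theorem sep_cj (K K' L : Subgroup G) (hL : L ≤ K) (hKK' : K ≤ K') (hc : CommT K K') {n : ℕ}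
    (h : Sep K L n) (b : G) (hb : b ∈ K') : Sep K (cj K L b) n := by
  have h1 := sep_conj_one K L h b
  obtain ⟨F, hF, hcov⟩ := hc b⁻¹ (K'.inv_mem hb)
  obtain ⟨N, hN1, hN2, hN3, hN4⟩ := exists_core K (cj K K b) hF (fun k hk => by
    obtain ⟨f, hf, hfk⟩ := hcov k hk
    rw [inv_inv] at hfk
    exact ⟨f, hf, mem_cj.2 ⟨hfk, K.mul_mem hk (hF f hf)⟩⟩)
  have h2 : Sep N (cj K L b ⊓ N) n := h1.mono hN1 inf_le_left
  have h3 : Sep K (cj K L b ⊓ N) n := sep_normal N K _ inf_le_right hN2 hN4 h2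
  have hle : cj K L b ≤ K := fun x hx => (mem_cj.1 hx).2
  refine sep_index K (cj K L b ⊓ N) (cj K L b) hle ?_ h3
  rw [Subgroup.inf_relIndex_left]
  intro h4
  exact hN3 (Subgroup.relIndex_eq_zero_of_le_right hle h4)

end Pool.Agent.Helper65.FP
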