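import Pool.Agent.Helper65.FP.Level

/-!
FP-04. Chains of forced points with steps in a finite set of elements of `L`.

Proof. Let `E' = insert 1 E` and `D₁` the set of the products of `lam` elements of `E'` (a recursively
defined finite set, or `E' ^ lam` with pointwise multiplication; `open Classical`), `D` = the set of the
`a * b⁻¹`, `a, b ∈ D₁`. If `x` is forced then `x⁻¹ * par^[i] x` is a product of `i` elements of `E` for
`i ≤ k` (`Ready`), so `x⁻¹ * par^[lam] x ∈ D₁` as `lam ≤ k`. Let `x` and `b = x * g`, `g ∈ F`, be forced. By `hnear`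
there are `i, j ≤ lam` with `par^[i] x = par^[j] b`; by `level_eq` `i = j`; applying `par^[lam - i]`:
`par^[lam] x = par^[lam] b`. So `par^[lam]` is constant along a chain of forced points with steps in `F`
(`Chain.rec'` with the invariant `z ∈ W ∧ z ∉ M ∧ par^[lam] z = par^[lam] x`), and
`x⁻¹ * y = (x⁻¹ * par^[lam] x) * (y⁻¹ * par^[lam] y)⁻¹ ∈ D`. If `k = 0` then `lam = 0`, add `1 ≤ k`.
-/

set_option autoImplicit false

namespace Pool.Agent.Helper65.FP

open Pool.Agent.Helper65.GN

variable {G : Type*} [Group G]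

open scoped Classical in
/-- the products of `n` elements of `E` -/
private noncomputable def prods (E : Finset G) : ℕ → Finset G
  | 0 => {1}
  | n + 1 => Finset.image₂ (fun a b => a * b) (prods E n) E

private theorem ready_mem_prods {par : G → G} {ℓ : G → ℕ} {V : Set G} {E : Finset G} {k : ℕ}
    {x : G} (h : Ready par ℓ V E k x) : ∀ i ≤ k, x⁻¹ * par^[i] x ∈ prods E i := by
  classical
  intro i
  induction i with
  | zero =>
    intro _
    simp [prods]
  | succ i ih =>
    intro hi
    have h1 := ih (by omega)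
    have h2 := (h i (by omega)).2.2.2
    rw [Function.iterate_succ_apply']
    have h3 : x⁻¹ * par (par^[i] x) = (x⁻¹ * par^[i] x) * ((par^[i] x)⁻¹ * par (par^[i] x)) := by
      group
    rw [h3]
    show _ ∈ Finset.image₂ (fun a b => a * b) (prods E i) E
    exact Finset.mem_image₂_of_mem h1 h2

theorem coset_bdd (par : G → G) (ℓ : G → ℕ) (V : Set G) (E F : Finset G) (lam : ℕ)
    (hnear : ∀ x, ∀ g ∈ F, ∃ i ≤ lam, ∃ j ≤ lam, par^[i] x = par^[j] (x * g)) :
    ∃ D : Finset G, ∀ (k : ℕ) (M W : Set G), 1 ≤ k → lam ≤ k → Wall par ℓ V E k M W →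
      Bdd (F : Set G) {x | x ∈ W ∧ x ∉ M} D := by
  classical
  refine ⟨Finset.image₂ (fun a b => a * b⁻¹) (prods E lam) (prods E lam), ?_⟩
  intro k M W hk hlam hW x hx y hxy
  have hready : ∀ z, z ∈ W → z ∉ M → Ready par ℓ V E k z := by
    intro z hz hzM
    rcases ((hW z).1 hz).2 with h | h
    · exact absurd h hzM
    · exact h.1
  have hinv : y ∈ W ∧ y ∉ M ∧ par^[lam] y = par^[lam] x := by
    refine hxy.rec' (R := fun z => z ∈ W ∧ z ∉ M ∧ par^[lam] z = par^[lam] x)
      ⟨hx.1, hx.2, rfl⟩ ?_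
    intro a b _ ha hab hb
    obtain ⟨i, hi, j, hj, hij⟩ := hnear a (a⁻¹ * b) hab
    rw [mul_inv_cancel_left] at hij
    have h1 := level_eq hk hW ha.1 ha.2.1 hb.1 hb.2 (hi.trans hlam) (hj.trans hlam) hij
    subst h1
    refine ⟨hb.1, hb.2, ?_⟩
    rw [← ha.2.2]
    obtain ⟨c, rfl⟩ := Nat.exists_eq_add_of_le hi
    rw [add_comm i c, Function.iterate_add_apply, Function.iterate_add_apply, hij]
  have h1 := ready_mem_prods (hready x hx.1 hx.2) lam hlam
  have h2 := ready_mem_prods (hready y hinv.1 hinv.2.1) lam hlam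
  have h3 : x⁻¹ * y = (x⁻¹ * par^[lam] x) * (y⁻¹ * par^[lam] y)⁻¹ := by
    rw [hinv.2.2]
    group
  rw [h3]
  exact Finset.mem_image₂_of_mem h1 h2

end Pool.Agent.Helper65.FP
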