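import Pool.Agent.Helper65.GN.BaseP

/-!
FP-31. Subgroups generated by a finite set of polynomial growth.

Proof: ADAPTATION of `sep_of_growth` in `GN/BaseP.lean` (with `T₁ = T₀` itself, which is symmetric and contains `1`, so `hCd` is the assumption; `basep_mem`, `basep_subset` give powers of
`T₀ ∪ T₀⁻¹ ∪ {1} = T₀`). `(T₀ ^ k : Set G).ncard` is the cardinality of the finset power (`Finset.coe_pow`, `Set.ncard_coe_finset`).
-/

set_option autoImplicit false

namespace Pool.Agent.Helper65.FP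

open Pool.Agent.Helper65.TH Pool.Agent.Helper65.GN
open scoped Pointwise

theorem sep_growth {G : Type*} [Group G] (T₀ : Finset G) (h1 : (1 : G) ∈ T₀)
    (hinv : ∀ t ∈ T₀, t⁻¹ ∈ T₀) (C d : ℕ) (h : ∀ k : ℕ, ((T₀ : Set G) ^ k).ncard ≤ C * (k + 1) ^ d) :
    Sep ⊤ (Subgroup.closure (T₀ : Set G)) d := by
  classical
  open Pointwise Relation in
  obtain ⟨h1', h2', h3'⟩ := basep_sym T₀
  have hT₁ : T₀ ∪ T₀⁻¹ ∪ {1} = T₀ := by
    ext t
    simp only [Finset.mem_union, Finset.mem_inv', Finset.mem_singleton]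
    constructor
    · rintro ((ht | ht) | ht)
      · exact ht
      · simpa using hinv _ ht
      · rw [ht]
        exact h1
    · exact fun ht => Or.inl (Or.inl ht)
  have hCd : ∀ k : ℕ, (T₀ ^ k).card ≤ C * (k + 1) ^ d := by
    intro k
    have e : (T₀ ^ k).card = ((T₀ : Set G) ^ k).ncard := by
      rw [← Finset.coe_pow, Set.ncard_coe_finset]
    rw [e]
    exact h k
  intro T S hT _
  obtain ⟨a1, a2, a3⟩ := basep_sym T
  obtain ⟨b1, b2, b3⟩ := basep_sym S
  have hT'L : ∀ t ∈ T ∪ T⁻¹ ∪ {1}, t ∈ Subgroup.closure (T₀ : Set G) := by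
    intro t ht
    simp only [Finset.mem_union, Finset.mem_inv', Finset.mem_singleton] at ht
    rcases ht with (ht | ht) | ht
    · exact hT t ht
    · simpa using (Subgroup.closure (T₀ : Set G)).inv_mem (hT _ ht)
    · rw [ht]
      exact (Subgroup.closure (T₀ : Set G)).one_mem
  obtain ⟨r, hr⟩ := basep_subset T₀ _ hT'L
  rw [hT₁] at hr
  have hpoly : ∀ k, ((T ∪ T⁻¹ ∪ {1}) ^ k).card ≤ (C * (r + 1) ^ d) * (k + 1) ^ d := by
    intro k
    have e1 : (T ∪ T⁻¹ ∪ {1}) ^ k ⊆ T₀ ^ (r * k) := by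
      rw [pow_mul]
      exact Finset.pow_subset_pow_left hr
    calc ((T ∪ T⁻¹ ∪ {1}) ^ k).card ≤ (T₀ ^ (r * k)).card := Finset.card_le_card e1
      _ ≤ C * (r * k + 1) ^ d := hCd _
      _ ≤ C * ((r + 1) * (k + 1)) ^ d := by
        refine Nat.mul_le_mul le_rfl (Nat.pow_le_pow_left ?_ d)
        nlinarith
      _ = (C * (r + 1) ^ d) * (k + 1) ^ d := by rw [mul_pow]; ring
  obtain ⟨A, F, c1, c2, c3⟩ := Pool.Agent.Helper75.Apc.core _ _ a1 b1 a2 b2 _ d hpoly
  have hex : ∀ x, ∃ j, x ∈ A j := fun x => by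
    obtain ⟨j, _, hj⟩ := c1 x
    exact ⟨j, hj⟩
  let w : G → ℕ := fun x => Nat.find (hex x)
  have hwA : ∀ x, x ∈ A (w x) := fun x => Nat.find_spec (hex x)
  have hwd : ∀ x, w x ≤ d := fun x => by
    obtain ⟨j, hjd, hj⟩ := c1 x
    exact (Nat.find_min' (hex x) hj).trans hjd
  have key : ∀ (j : ℕ) (P Q : Finset G), P ⊆ Q → ∀ x ∈ {x | w x = j}, ∀ y,
      Chain (P : Set G) (fun b => b ∈ {x | w x = j}) x y →
        Relation.ReflTransGen (fun a b => a ∈ A j ∧ b ∈ A j ∧ a⁻¹ * b ∈ Q) x y := by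
    intro j P Q hPQ x hx y hxy
    have hA : ∀ z ∈ {x | w x = j}, z ∈ A j := by
      intro z hz
      have hz' : w z = j := hz
      rw [← hz']
      exact hwA z
    have hxy' : Relation.ReflTransGen
        (fun a b => a⁻¹ * b ∈ (P : Set G) ∧ b ∈ {x | w x = j}) x y := hxy
    have hboth : Relation.ReflTransGen (fun a b => a ∈ A j ∧ b ∈ A j ∧ a⁻¹ * b ∈ Q) x y ∧
        y ∈ {x | w x = j} := by
      clear hxy
      induction hxy' with
      | refl => exact ⟨Relation.ReflTransGen.refl, hx⟩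
      | tail _ hstep ih =>
        exact ⟨ih.1.tail ⟨hA _ ih.2, hA _ hstep.2, hPQ hstep.1⟩, hstep.2⟩
    exact hboth.1
  refine ⟨w, F, hwd, ?_, ?_⟩
  · intro x hx y hxy
    have hx' : w x = 0 := hx
    have hxA : x ∈ A 0 := by
      have := hwA x
      rwa [hx'] at this
    exact c2 x y hxA (key 0 T _ a3 x hx y hxy)
  · intro i hi x hx y hxy
    have hx' : w x = i := hx
    have hxA : x ∈ A i := by
      have := hwA x
      rwa [hx'] at this
    exact c3 i hi (hx' ▸ hwd x) x y hxA (key i S _ b3 x hx y hxy)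

end Pool.Agent.Helper65.FP
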