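import Pool.Agent.Helper65.GN.Union

/-!
FP-30. Rooted steps.

`Rooted K K'`: for every finite `S ⊆ K'` there are a finite `B ⊆ K` and a choice `ρ` of one point in every left coset of `K` in `K'` such that for `x ∈ K'` and `s ∈ S`, `s ∉ K`: `x ∈ ρ(xK) B` or
`x s ∈ ρ(xsK) B`.

Proof of `sep_rooted`. Extend `ρ` to `G`: let `r x` be the representative of the left coset `x K'` (`Quotient.out`), `r x = r y` if `x⁻¹ * y ∈ K'`, `(r x)⁻¹ * x ∈ K'`; put `ρ' x = r x * ρ ((r x)⁻¹ * x)`. Then `ρ' (x * k) = ρ' x` for `k ∈ K`,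
`(ρ' x)⁻¹ * x ∈ K`, and for `s ∈ S`, `s ∉ K`: `(ρ' x)⁻¹ * x ∈ B` or `(ρ' (x * s))⁻¹ * (x * s) ∈ B`, for all `x : G`. Let `X₁ = {x | (ρ' x)⁻¹ * x ∈ B}`. Let `T ⊆ L`, `S ⊆ K'` be finite. Apply `h` to `T` and `S.filter (· ∈ K)`: `w₀`, `E₀`. Put
`w x = if x ∈ X₁ then 0 else w₀ x`. For `i ≥ 1`: the level set is contained in `{w₀ = i}` and disjoint from `X₁`, a step `s ∈ S` between two of its points is in `K`; so it is bounded by `E₀`. The zero set is contained in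
`{w₀ = 0} ∪ X₁`; `X₁` is bounded for every set `F₁` of steps contained in `K`: `ρ'` is constant along the chain, so `x⁻¹ * y ∈ E₁ = {b⁻¹ * b' | b, b' ∈ B}`. `bdd_union` with `C = K`, `F = T`, `F₁ = T ∪ {t * e * t' | t, t' ∈ T, e ∈ E₀, e ∈ K}`
(in `K`, as `T ⊆ L ≤ K`): `E = E₀ ∪ suE T E₀ E₁`.
-/

set_option autoImplicit false

namespace Pool.Agent.Helper65.FP

open Pool.Agent.Helper65.TH Pool.Agent.Helper65.GN

/-- `K` is rooted in `K'`: for every finite subset `S` of `K'` there are a finite subset `B` of `K` and a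
choice `ρ` of one element in every left coset of `K` in `K'` such that for `x ∈ K'`, `s ∈ S`, `s ∉ K` the
element `x` lies in `ρ x B` or `x s` lies in `ρ (x s) B`. -/
def Rooted {G : Type*} [Group G] (K K' : Subgroup G) : Prop :=
  ∀ S : Finset G, (∀ s ∈ S, s ∈ K') → ∃ (B : Finset G) (ρ : G → G), (∀ b ∈ B, b ∈ K) ∧
    (∀ x ∈ K', (ρ x)⁻¹ * x ∈ K) ∧ (∀ x ∈ K', ∀ k ∈ K, ρ (x * k) = ρ x) ∧
    ∀ x ∈ K', ∀ s ∈ S, s ∉ K → (ρ x)⁻¹ * x ∈ B ∨ (ρ (x * s))⁻¹ * (x * s) ∈ B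

theorem sep_rooted {G : Type*} [Group G] (K K' L : Subgroup G) (hL : L ≤ K) (hKK' : K ≤ K')
    (hr : Rooted K K') {n : ℕ} (h : Sep K L n) : Sep K' L n := by
  classical
  intro T S hT hS
  obtain ⟨B, ρ, hB, hρ1, hρ2, hρ3⟩ := hr S hS
  set r : G → G := fun x => Quotient.out (QuotientGroup.mk x : G ⧸ K') with hrdef
  have hr1 : ∀ x, (r x)⁻¹ * x ∈ K' := fun x =>
    QuotientGroup.eq.1 (QuotientGroup.out_eq' (QuotientGroup.mk x : G ⧸ K'))
  have hr2 : ∀ x k, k ∈ K' → r (x * k) = r x := by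
    intro x k hk
    have : (QuotientGroup.mk (x * k) : G ⧸ K') = QuotientGroup.mk x := by
      rw [QuotientGroup.eq]
      have : (x * k)⁻¹ * x = k⁻¹ := by group
      rw [this]
      exact K'.inv_mem hk
    rw [hrdef]
    simp only [this]
  set ρ' : G → G := fun x => r x * ρ ((r x)⁻¹ * x) with hρ'
  have h1 : ∀ x k, k ∈ K → ρ' (x * k) = ρ' x := by
    intro x k hk
    show r (x * k) * ρ ((r (x * k))⁻¹ * (x * k)) = r x * ρ ((r x)⁻¹ * x)
    rw [hr2 x k (hKK' hk), ← mul_assoc, hρ2 _ (hr1 x) k hk]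
  have h2 : ∀ x k, k ∈ K' → (ρ' (x * k))⁻¹ * (x * k) =
      (ρ ((r x)⁻¹ * x * k))⁻¹ * ((r x)⁻¹ * x * k) := by
    intro x k hk
    show (r (x * k) * ρ ((r (x * k))⁻¹ * (x * k)))⁻¹ * (x * k) = _
    rw [hr2 x k hk]
    simp only [mul_inv_rev, mul_assoc]
  have h2' : ∀ x, (ρ' x)⁻¹ * x = (ρ ((r x)⁻¹ * x))⁻¹ * ((r x)⁻¹ * x) := by
    intro x
    have := h2 x 1 K'.one_mem
    simpa only [mul_one] using this
  have h3 : ∀ x, ∀ s ∈ S, s ∉ K → (ρ' x)⁻¹ * x ∈ B ∨ (ρ' (x * s))⁻¹ * (x * s) ∈ B := by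
    intro x s hs hsK
    rw [h2' x, h2 x s (hS s hs)]
    exact hρ3 _ (hr1 x) s hs hsK
  obtain ⟨w₀, E₀, hw0, hb0, hbi⟩ := h T (S.filter (· ∈ K)) hT
    (fun s hs => (Finset.mem_filter.1 hs).2)
  set X₁ : Set G := {x | (ρ' x)⁻¹ * x ∈ B} with hX₁
  set w : G → ℕ := fun x => if x ∈ X₁ then 0 else w₀ x with hw
  set E₁ : Finset G := Finset.image₂ (fun b b' => b⁻¹ * b') B B with hE₁
  have hX1 : ∀ F₁ : Finset G, (∀ f ∈ F₁, f ∈ K) → Bdd (F₁ : Set G) X₁ E₁ := by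
    intro F₁ hF₁ x hx y hxy
    have hy : y ∈ X₁ := hxy.last hx
    have hk : x⁻¹ * y ∈ K := hxy.mem_subgroup K (fun s hs => hF₁ s (Finset.mem_coe.1 hs))
    have h4 : ρ' y = ρ' x := by
      have := h1 x _ hk
      rwa [mul_inv_cancel_left] at this
    refine Finset.mem_image₂.2 ⟨(ρ' x)⁻¹ * x, hx, (ρ' y)⁻¹ * y, hy, ?_⟩
    rw [h4]
    group
  have hTK : ∀ s ∈ T, s ∈ K := fun s hs => hL (hT s hs)
  set F₁ : Finset G := T ∪ Finset.image₂ (fun a b => a * b)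
    (Finset.image₂ (fun a b => a * b) T (E₀.filter (· ∈ K))) T with hF₁def
  have hF₁ : ∀ f ∈ F₁, f ∈ K := by
    intro f hf
    rw [hF₁def, Finset.mem_union, Finset.mem_image₂] at hf
    rcases hf with hf | ⟨a, ha, b, hb, rfl⟩
    · exact hTK f hf
    · obtain ⟨t, ht, e, he, rfl⟩ := Finset.mem_image₂.1 ha
      exact K.mul_mem (K.mul_mem (hTK t ht) (Finset.mem_filter.1 he).2) (hTK b hb)
  have hbu := bdd_union K T hTK {x | w₀ x = 0} X₁ E₀ F₁ E₁ hb0 (hX1 F₁ hF₁)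
    Finset.subset_union_left (by
      intro f hf e he heK f' hf'
      refine Finset.mem_union_right _ (Finset.mem_image₂.2 ⟨f * e, Finset.mem_image₂.2
        ⟨f, hf, e, Finset.mem_filter.2 ⟨he, heK⟩, rfl⟩, f', hf', rfl⟩))
  refine ⟨w, E₀ ∪ suE T E₀ E₁, ?_, ?_, ?_⟩
  · intro x
    show (if x ∈ X₁ then 0 else w₀ x) ≤ n
    split_ifs
    · exact Nat.zero_le _
    · exact hw0 x
  · refine hbu.mono (le_refl _) ?_ Finset.subset_union_right
    intro x hx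
    by_cases hx1 : x ∈ X₁
    · exact Or.inr hx1
    · left
      have h4 : (if x ∈ X₁ then 0 else w₀ x) = 0 := hx
      rwa [if_neg hx1] at h4
  · intro i hi x hx y hxy
    have hnX : ∀ z, w z = i → z ∉ X₁ ∧ w₀ z = i := by
      intro z hz
      have h4 : (if z ∈ X₁ then 0 else w₀ z) = i := hz
      by_cases hz1 : z ∈ X₁
      · rw [if_pos hz1] at h4
        omega
      · rw [if_neg hz1] at h4
        exact ⟨hz1, h4⟩
    have key : w y = i ∧ Chain ((S.filter (· ∈ K) : Finset G) : Set G)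
        (fun b => b ∈ {x | w₀ x = i}) x y := by
      refine hxy.rec' (R := fun z => w z = i ∧ Chain ((S.filter (· ∈ K) : Finset G) : Set G)
        (fun b => b ∈ {x | w₀ x = i}) x z) ⟨hx, Chain.refl _ _ _⟩ ?_
      intro a b _ hab hs hb
      refine ⟨hb, hab.2.step ?_ (hnX b hb).2⟩
      rw [Finset.mem_coe, Finset.mem_filter]
      refine ⟨hs, ?_⟩
      by_contra hK
      rcases h3 a (a⁻¹ * b) hs hK with h4 | h4
      · exact (hnX a hab.1).1 h4
      · rw [mul_inv_cancel_left] at h4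
        exact (hnX b hb).1 h4
    exact Finset.mem_union_left _ (hbi i hi x (hnX x hx).2 y key.2)

end Pool.Agent.Helper65.FP
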