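import Pool.Agent.Helper65.FP.Free
import Pool.Agent.Helper65.FP.Index
import Pool.Agent.Helper65.FP.CommStep
import Pool.Agent.Helper65.FP.Rooted
import Pool.Agent.Helper65.FP.Growth
import Pool.Agent.Helper65.GN.BaseA

/-!
FP-32. The relation `Cut n K L` and its consequence `Sep K L n`.
-/

set_option autoImplicit false

namespace Pool.Agent.Helper65.FP

open Pool.Agent.Helper65.TH Pool.Agent.Helper65.GN
open scoped Pointwise

/-- `K` is commensurated by `K'`: `K ∩ g K g⁻¹` has finite index in `K` for all `g ∈ K'` (for instance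
`K` is normal in `K'`, or of finite index in `K'`). -/
def Commensurated {G : Type*} [Group G] (K K' : Subgroup G) : Prop :=
  ∀ g ∈ K', (K.map (MulAut.conj g).toMonoidHom).relIndex K ≠ 0

/-- `Cut n K L` (`L` is cut by `n` families in `K`) is the smallest relation with the following
properties.
`asdim`: if `K` has asymptotic dimension less than `t` then `Cut t K K`.
`growth`: if `T` is finite, symmetric, contains `1` and `T ^ k` has at most `C * (k + 1) ^ d` elements for
all `k`, then the subgroup generated by `T` is cut by `d` families in the whole group.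
`mono`: the number `n` can be enlarged, both subgroups can be made smaller.
`index`: `L` can be replaced by a subgroup `L'` of `K` containing `L` with finite index.
`free`: if subgroups `A i` of `K` (`i < r`) generate their free product and `Cut (n i) K (A i)`, then the
group generated by them is cut by `∑ i, n i + 1` families in `K`.
`comm`, `rooted`: `K` (containing `L`) can be replaced by a larger subgroup `K'` by which it is
commensurated, or in which it is rooted.
`union`: if `L` is cut by `n` families in all members of a directed set of subgroups, then also in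
their union. -/
inductive Cut {G : Type*} [Group G] : ℕ → Subgroup G → Subgroup G → Prop
  | asdim (K : Subgroup G) (t : ℕ) (h : AsdimLT K t) : Cut t K K
  | growth (T : Finset G) (C d : ℕ) (h1 : (1 : G) ∈ T) (hinv : ∀ t ∈ T, t⁻¹ ∈ T)
      (h : ∀ k : ℕ, ((T : Set G) ^ k).ncard ≤ C * (k + 1) ^ d) :
      Cut d ⊤ (Subgroup.closure (T : Set G))
  | mono (n n' : ℕ) (K K' L L' : Subgroup G) (h : Cut n K L) (hn : n ≤ n') (hK : K' ≤ K)
      (hL : L' ≤ L) : Cut n' K' L'
  | index (n : ℕ) (K L L' : Subgroup G) (h : Cut n K L) (hK : L' ≤ K) (hL : L ≤ L')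
      (hi : L.relIndex L' ≠ 0) : Cut n K L'
  | free (K : Subgroup G) (r : ℕ) (A : Fin r → Subgroup G) (n : Fin r → ℕ) (hA : ∀ i, A i ≤ K)
      (hinj : Function.Injective (Monoid.CoprodI.lift fun i => (A i).subtype))
      (h : ∀ i, Cut (n i) K (A i)) : Cut (∑ i, n i + 1) K (⨆ i, A i)
  | comm (n : ℕ) (K K' L : Subgroup G) (h : Cut n K L) (hL : L ≤ K) (hK : K ≤ K')
      (hc : Commensurated K K') : Cut n K' L
  | rooted (n : ℕ) (K K' L : Subgroup G) (h : Cut n K L) (hL : L ≤ K) (hK : K ≤ K')
      (hr : Rooted K K') : Cut n K' L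
  | union (n : ℕ) (L : Subgroup G) (S : Set (Subgroup G)) (hne : S.Nonempty)
      (hdir : DirectedOn (· ≤ ·) S) (h : ∀ K ∈ S, Cut n K L) : Cut n (sSup S) L

variable {G : Type*} [Group G]

theorem Commensurated.commT {K K' : Subgroup G} (h : Commensurated K K') : CommT K K' := by
  intro g hg
  obtain ⟨F, hF1, hF2⟩ := exists_transversal _ _ (h g hg)
  refine ⟨F, hF1, fun k hk => ?_⟩
  obtain ⟨f, hf, hkf⟩ := hF2 k hk
  refine ⟨f, hf, ?_⟩
  obtain ⟨a, ha, hak⟩ := Subgroup.mem_map.1 hkf
  have h1 : g * a * g⁻¹ = k * f := hak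
  have h2 : g⁻¹ * (k * f) * g = a := by
    rw [← h1]
    group
  rw [h2]
  exact ha

theorem commensurated_of_normal {K K' : Subgroup G}
    (hn : ∀ g ∈ K', ∀ k ∈ K, g * k * g⁻¹ ∈ K) : Commensurated K K' := by
  intro g hg
  have h1 : K ≤ K.map (MulAut.conj g).toMonoidHom := by
    intro k hk
    refine Subgroup.mem_map.2 ⟨g⁻¹ * k * g, ?_, ?_⟩
    · have := hn g⁻¹ (K'.inv_mem hg) k hk
      rwa [inv_inv] at this
    · change g * (g⁻¹ * k * g) * g⁻¹ = k
      group
  rw [Subgroup.relIndex_eq_one.2 h1]
  exact one_ne_zero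

theorem sep_mono_n {K L : Subgroup G} {n n' : ℕ} (h : Sep K L n) (hn : n ≤ n') : Sep K L n' := by
  intro T S hT hS
  obtain ⟨w, E, h1, h2⟩ := h T S hT hS
  exact ⟨w, E, fun x => (h1 x).trans hn, h2⟩

theorem Cut.sep {n : ℕ} {K L : Subgroup G} (h : Cut n K L) : Sep K L n := by
  induction h with
  | asdim K t h => exact sep_of_asdim K h K
  | growth T C d h1 hinv h => exact sep_growth T h1 hinv C d h
  | mono n n' K K' L L' _ hn hK hL ih => exact sep_mono_n (ih.mono hK hL) hn
  | index n K L L' _ hK _ hi ih => exact sep_index K L L' hK hi ih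
  | free K r A n hA hinj _ ih => exact sep_free K A hA hinj n ih
  | comm n K K' L _ hL hK hc ih => exact sep_comm K K' L hL hK hc.commT ih
  | rooted n K K' L _ hL hK hr ih => exact sep_rooted K K' L hL hK hr ih
  | union n L S hne hdir _ ih =>
    intro T F hT hF
    obtain ⟨K, hK, hFK⟩ := exists_mem_of_directed S hne hdir F hF
    exact ih K hK T F hT hFK

end Pool.Agent.Helper65.FP
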