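import Pool.Agent.Helper65.GN.Union

/-!
Project FP: separators for free products. Definitions.
-/

set_option autoImplicit false

namespace Pool.Agent.Helper65.FP

/-- `x` has the forest parent `par x`: both points are in `V` and they differ by an element of `E`. -/
def FPar {G : Type*} [Group G] (par : G → G) (ℓ : G → ℕ) (V : Set G) (E : Finset G) (x : G) : Prop :=
  0 < ℓ x ∧ x ∈ V ∧ par x ∈ V ∧ x⁻¹ * par x ∈ E

/-- the forest ancestors `par x`, `par (par x)`, ... up to the `k`-th one exist -/
def Ready {G : Type*} [Group G] (par : G → G) (ℓ : G → ℕ) (V : Set G) (E : Finset G) (k : ℕ)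
    (x : G) : Prop :=
  ∀ i < k, FPar par ℓ V E (par^[i] x)

/-- `W` consists of the marked points of `V` (marked: in `M`) and of the forced points: the points of
`V` with `k` forest ancestors, none of which lies in `W`. -/
def Wall {G : Type*} [Group G] (par : G → G) (ℓ : G → ℕ) (V : Set G) (E : Finset G) (k : ℕ)
    (M W : Set G) : Prop :=
  ∀ x, x ∈ W ↔ x ∈ V ∧ (x ∈ M ∨ (Ready par ℓ V E k x ∧ ∀ i, 1 ≤ i → i ≤ k → par^[i] x ∉ W))

/-- tree structure on the cosets of the subgroup generated by the `A i`: `par` removes the last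
syllable, `idx` is the index of the last syllable, `ℓ` is the number of syllables. -/
structure GTree {G ι : Type*} [Group G] (A : ι → Subgroup G) where
  /-- the parent -/
  par : G → G
  /-- the level -/
  ℓ : G → ℕ
  /-- the index of the last syllable -/
  idx : G → Option ι
  none_iff : ∀ x, idx x = none ↔ ℓ x = 0
  par_none : ∀ x, idx x = none → par x = x
  par_lt : ∀ x i, idx x = some i → ℓ (par x) < ℓ x
  par_mem : ∀ x i, idx x = some i → x⁻¹ * par x ∈ A i
  gate : ∀ x i, ∀ a ∈ A i, (idx x = some i ∧ idx (x * a) = some i ∧ par (x * a) = par x) ∨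
    (idx x = some i ∧ idx (x * a) ≠ some i ∧ x * a = par x) ∨
    (idx x ≠ some i ∧ idx (x * a) = some i ∧ par (x * a) = x) ∨
    (idx x ≠ some i ∧ idx (x * a) ≠ some i ∧ x * a = x)

end Pool.Agent.Helper65.FP
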