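import Pool.Agent.Helper65.FP.CDefs

/-!
FP-22. Simultaneous separation of finitely many subgroups, with thickened walls.

`sep_family`: proof as `sep_simul` in `GN/Simul.lean` (simpler: no conjugation): induction over the finite set `J` for all `S`; `J = ∅`: `w = 0`, `E = ∅` (the
level sets for `i ≥ 1` are empty). Step `insert j J`: `w₀`, `E₀` from `h j` for `T j` and `S`; `S₁ = S ∪ {s * e * s' | s, s' ∈ S, e ∈ E₀, e ∈ K}`; `w₁`, `E₁` from the induction
hypothesis for `S₁`; `w x = if w₁ x = 0 then w₀ x else w₁ x`, `E = E₀ ∪ E₁ ∪ suE S E₀ E₁`; `bdd_union`.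
`sep_family_thick`: proof as `sep_thick` in `GN/Thick.lean` with `sep_family` in place of `sep_simul`.
-/

set_option autoImplicit false

namespace Pool.Agent.Helper65.FP

open Pool.Agent.Helper65.TH Pool.Agent.Helper65.GN

variable {G : Type*} [Group G]

theorem sep_family (K : Subgroup G) (n : ℕ) {α : Type*} (J : Finset α) (L : α → Subgroup G)
    (h : ∀ j ∈ J, Sep K (L j) n) (T : α → Finset G) (hT : ∀ j ∈ J, ∀ s ∈ T j, s ∈ L j)
    (S : Finset G) (hS : ∀ s ∈ S, s ∈ K) :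
    ∃ (w : G → ℕ) (E : Finset G), (∀ x, w x ≤ n) ∧
      (∀ j ∈ J, Bdd (T j : Set G) {x | w x = 0} E) ∧
      ∀ i, 1 ≤ i → Bdd (S : Set G) {x | w x = i} E := by
  classical
  induction J using Finset.induction_on generalizing S with
  | empty =>
    refine ⟨fun _ => 0, ∅, fun _ => Nat.zero_le _, fun j hj => absurd hj (Finset.notMem_empty j),
      fun i hi x hx => ?_⟩
    have h1 : (0 : ℕ) = i := hx
    omega
  | insert b B _ ih =>
    obtain ⟨w₀, E₀, hv1, hw₀0, hw₀i⟩ := h b (Finset.mem_insert_self b B) (T b) S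
      (hT b (Finset.mem_insert_self b B)) hS
    let S₁ : Finset G := S ∪ Finset.image₂ (fun a s' => a * s')
      (Finset.image₂ (fun s e => s * e) S (E₀.filter (fun e => e ∈ K))) S
    have hS₁ : ∀ s ∈ S₁, s ∈ K := by
      intro s hs
      rcases Finset.mem_union.1 hs with hs | hs
      · exact hS s hs
      · obtain ⟨a, ha, s', hs', rfl⟩ := Finset.mem_image₂.1 hs
        obtain ⟨s'', hs'', e, he, rfl⟩ := Finset.mem_image₂.1 ha
        exact K.mul_mem (K.mul_mem (hS _ hs'') (Finset.mem_filter.1 he).2) (hS _ hs')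
    obtain ⟨w₁, E₁, h1, h2, h3⟩ := ih (fun j hj => h j (Finset.mem_insert_of_mem hj))
      (fun j hj => hT j (Finset.mem_insert_of_mem hj)) S₁ hS₁
    let w : G → ℕ := fun x => if w₁ x = 0 then w₀ x else w₁ x
    have hw0 : ∀ x, w x = 0 → w₁ x = 0 ∧ w₀ x = 0 := by
      intro x hx
      change (if w₁ x = 0 then w₀ x else w₁ x) = 0 at hx
      split_ifs at hx with h4
      · exact ⟨h4, hx⟩
      · exact absurd hx h4
    refine ⟨w, E₀ ∪ E₁ ∪ suE S E₀ E₁, ?_, ?_, ?_⟩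
    · intro x
      change (if w₁ x = 0 then w₀ x else w₁ x) ≤ n
      split_ifs
      · exact hv1 _
      · exact h1 x
    · intro b' hb'
      rcases Finset.mem_insert.1 hb' with rfl | hb'
      · refine hw₀0.mono (fun _ hs => hs) (fun x hx => (hw0 x hx).2) ?_
        exact (Finset.subset_union_left.trans Finset.subset_union_left)
      · refine (h2 b' hb').mono (fun _ hs => hs) (fun x hx => (hw0 x hx).1) ?_
        exact (Finset.subset_union_right.trans Finset.subset_union_left)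
    · intro i hi
      have h5 := bdd_union K S hS {x | w₀ x = i} {x | w₁ x = i} E₀ S₁ E₁ (hw₀i i hi) (h3 i hi)
        Finset.subset_union_left (fun f hf e he heK f' hf' => Finset.mem_union_right _
          (Finset.mem_image₂.2 ⟨_, Finset.mem_image₂.2 ⟨f, hf, e,
            Finset.mem_filter.2 ⟨he, heK⟩, rfl⟩, f', hf', rfl⟩))
      refine h5.mono (fun _ hs => hs) (fun x hx => ?_) Finset.subset_union_right
      change (if w₁ x = 0 then w₀ x else w₁ x) = i at hx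
      split_ifs at hx with h4
      · exact Or.inl hx
      · exact Or.inr hx

theorem sep_family_thick (K : Subgroup G) (n : ℕ) {α : Type*} (J : Finset α)
    (L : α → Subgroup G) (h : ∀ j ∈ J, Sep K (L j) n) (T : α → Finset G)
    (hT : ∀ j ∈ J, ∀ s ∈ T j, s ∈ L j) (S : Finset G) (hS : ∀ s ∈ S, s ∈ K) (C : Finset G)
    (hC : ∀ c ∈ C, c ∈ K) :
    ∃ (w : G → ℕ) (E : Finset G), (∀ x, w x ≤ n) ∧
      (∀ j ∈ J, Bdd (T j : Set G) {y | ∃ c ∈ C, w (y * c) = 0} E) ∧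
      ∀ i, 1 ≤ i → Bdd (S : Set G) {x | w x = i} E := by
  classical
  let C' : Finset G := insert 1 C
  have hC' : ∀ c ∈ C', c ∈ K := by
    intro c hc
    rcases Finset.mem_insert.1 hc with h1 | h1
    · rw [h1]
      exact K.one_mem
    · exact hC c h1
  have hne : C'.Nonempty := ⟨1, Finset.mem_insert_self _ _⟩
  let S₀ : Finset G := (C' ×ˢ (S ×ˢ C')).image fun p => p.1 * p.2.1 * p.2.2⁻¹
  have hS₀ : ∀ c ∈ C', ∀ s ∈ S, ∀ c' ∈ C', c * s * c'⁻¹ ∈ S₀ := by
    intro c hc s hs c' hc'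
    exact Finset.mem_image.2 ⟨(c, s, c'), Finset.mem_product.2 ⟨hc, Finset.mem_product.2
      ⟨hs, hc'⟩⟩, rfl⟩
  have hS₀K : ∀ s ∈ S₀, s ∈ K := by
    intro s hs
    obtain ⟨⟨c, s', c'⟩, hp, rfl⟩ := Finset.mem_image.1 hs
    rw [Finset.mem_product, Finset.mem_product] at hp
    exact K.mul_mem (K.mul_mem (hC' _ hp.1) (hS _ hp.2.1)) (K.inv_mem (hC' _ hp.2.2))
  obtain ⟨w₀, E₀, hw₀, hT₀, hE₀⟩ := sep_family K n J L h T hT S₀ hS₀K
  let w : G → ℕ := fun x => C'.sup fun c => w₀ (x * c⁻¹)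
  have hwc : ∀ x, ∃ c ∈ C', w₀ (x * c⁻¹) = w x := by
    intro x
    obtain ⟨c, hc, h1⟩ := Finset.exists_mem_eq_sup C' hne fun c => w₀ (x * c⁻¹)
    exact ⟨c, hc, h1.symm⟩
  refine ⟨w, E₀ ∪ (C' ×ˢ (E₀ ×ˢ C')).image fun p => p.1⁻¹ * p.2.1 * p.2.2,
    fun x => Finset.sup_le fun c _ => hw₀ _, fun j hj => ?_, fun i hi => ?_⟩
  · have h1 : ∀ y, (∃ c ∈ C, w (y * c) = 0) → w₀ y = 0 := by
      rintro y ⟨c, hc, h2⟩
      have h3 : w₀ (y * c * c⁻¹) ≤ w (y * c) :=
        Finset.le_sup (f := fun c' => w₀ (y * c * c'⁻¹)) (Finset.mem_insert_of_mem hc)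
      rw [mul_inv_cancel_right, h2] at h3
      exact Nat.le_zero.1 h3
    intro x hx y hxy
    refine Finset.mem_union_left _ (hT₀ j hj x (h1 x hx) y ?_)
    exact hxy.mono (fun s hs => hs) fun z hz => h1 z hz
  · intro x hx y hxy
    obtain ⟨c₀, hc₀, h0⟩ := hwc x
    have hx' : w x = i := hx
    have h1 : ∃ c ∈ C', w₀ (y * c⁻¹) = i ∧
        Chain (S₀ : Set G) (fun z => z ∈ {z | w₀ z = i}) (x * c₀⁻¹) (y * c⁻¹) := by
      refine hxy.rec' (R := fun z => ∃ c ∈ C', w₀ (z * c⁻¹) = i ∧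
        Chain (S₀ : Set G) (fun z => z ∈ {z | w₀ z = i}) (x * c₀⁻¹) (z * c⁻¹))
        ⟨c₀, hc₀, h0.trans hx', Chain.refl _ _ _⟩ ?_
      rintro a b - ⟨c, hc, h2, h3⟩ hs hb
      obtain ⟨c', hc', h4⟩ := hwc b
      have hb' : w b = i := hb
      refine ⟨c', hc', h4.trans hb', h3.step ?_ (h4.trans hb')⟩
      have h5 : (a * c⁻¹)⁻¹ * (b * c'⁻¹) = c * (a⁻¹ * b) * c'⁻¹ := by group
      rw [h5]
      exact hS₀ c hc _ hs c' hc'
    obtain ⟨c, hc, h2, h3⟩ := h1
    have h4 := hE₀ i hi (x * c₀⁻¹) (h0.trans hx') _ h3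
    refine Finset.mem_union_right _ (Finset.mem_image.2 ⟨(c₀, _, c), Finset.mem_product.2
      ⟨hc₀, Finset.mem_product.2 ⟨h4, hc⟩⟩, ?_⟩)
    change c₀⁻¹ * ((x * c₀⁻¹)⁻¹ * (y * c⁻¹)) * c = x⁻¹ * y
    group

end Pool.Agent.Helper65.FP
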