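import Pool.Agent.Helper65.FP.Defs

/-!
FP-06. Chains in a set `X` are bounded if chains meeting at most `q` cosets are bounded and `X` does
not contain `q + 1` points in different cosets close to each other. (Pure combinatorics.)

Proof. `D' = insert 1 (D ∪ {d * p | d ∈ D, p ∈ P})`, `D₂ = {a⁻¹ * b | a, b ∈ D'}` (this is the set in `hfar`). Let `x ∈ X` and a
chain in `X` with steps in `P` from `x` be given. Invariant (`Chain.rec'`) for the points `z` of the chain: there is a finite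
set `Q` of cosets with `Q.card ≤ q` such that `z ∈ X`, the chain from `x` to `z` is a chain in
`{y ∈ X | coset of y in Q}`, `x L ∈ Q`, and every `c ∈ Q` has a representative `u c ∈ X` with
`x⁻¹ * u c ∈ D'`. (If `q = 0`: `hfar` with the constant family `u = x : Fin 1 → G` is a contradiction;
so `1 ≤ q` and the start is `Q = {x L}`, `u = x`.) Step from `z` to `z'`: by `hconf` for `Q`: `x⁻¹ * z ∈ D`, so
`x⁻¹ * z' ∈ D'`. If `z' L ∈ Q` nothing changes. Otherwise `Q' = insert (z' L) Q` with the representative `z'`.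
If `Q'.card ≤ q` we are done. If `Q'.card = q + 1` then the representatives, enumerated by `Fin (q + 1)`
(`Finset.equivFinOfCardEq`), contradict `hfar`. At the end: `hconf` for `Q` gives `x⁻¹ * y ∈ D`.
-/

set_option autoImplicit false

namespace Pool.Agent.Helper65.FP

open Pool.Agent.Helper65.TH Pool.Agent.Helper65.GN

variable {G : Type*} [Group G]

open Classical in
/-- the set of the differences of the points of `D ∪ D * P ∪ {1}` -/
noncomputable def diffs (D P : Finset G) : Finset G :=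
  Finset.image₂ (fun a b => a⁻¹ * b)
    (insert 1 (D ∪ Finset.image₂ (fun d p => d * p) D P))
    (insert 1 (D ∪ Finset.image₂ (fun d p => d * p) D P))

theorem bdd_of_few (L : Subgroup G) (X : Set G) (P D : Finset G) (q : ℕ)
    (hconf : ∀ Q : Finset (G ⧸ L), Q.card ≤ q → Bdd (P : Set G) {x | x ∈ X ∧ (x : G ⧸ L) ∈ Q} D)
    (hfar : ∀ u : Fin (q + 1) → G, (∀ i, u i ∈ X) →
      (∀ i j, i ≠ j → (u i : G ⧸ L) ≠ (u j : G ⧸ L)) → ¬ ∀ i j, (u i)⁻¹ * u j ∈ diffs D P) :
    Bdd (P : Set G) X D := by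
  classical
  intro x hx y hxy
  set D' : Finset G := insert 1 (D ∪ Finset.image₂ (fun d p => d * p) D P) with hD'
  have hdiff : ∀ a b : G, x⁻¹ * a ∈ D' → x⁻¹ * b ∈ D' → a⁻¹ * b ∈ diffs D P := by
    intro a b ha hb
    unfold diffs
    refine Finset.mem_image₂.2 ⟨x⁻¹ * a, ha, x⁻¹ * b, hb, ?_⟩
    group
  have h1D : (1 : G) ∈ D' := by
    rw [hD']
    exact Finset.mem_insert_self _ _
  have hq : 1 ≤ q := by
    by_contra hcon
    have hq0 : q = 0 := by omega
    subst hq0
    refine hfar (fun _ => x) (fun _ => hx) (fun i j hij => ?_) (fun i j => ?_)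
    · exact absurd (Fin.ext (by omega)) hij
    · refine hdiff x x ?_ ?_ <;> rw [inv_mul_cancel] <;> exact h1D
  have key : ∃ Q : Finset (G ⧸ L), Q.card ≤ q ∧ (x : G ⧸ L) ∈ Q ∧
      Chain (P : Set G) (fun b => b ∈ {b | b ∈ X ∧ (b : G ⧸ L) ∈ Q}) x y ∧
      ∀ c ∈ Q, ∃ u ∈ X, (u : G ⧸ L) = c ∧ x⁻¹ * u ∈ D' := by
    refine hxy.rec' (R := fun z => ∃ Q : Finset (G ⧸ L), Q.card ≤ q ∧ (x : G ⧸ L) ∈ Q ∧
      Chain (P : Set G) (fun b => b ∈ {b | b ∈ X ∧ (b : G ⧸ L) ∈ Q}) x z ∧
      ∀ c ∈ Q, ∃ u ∈ X, (u : G ⧸ L) = c ∧ x⁻¹ * u ∈ D') ?_ ?_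
    · refine ⟨{(x : G ⧸ L)}, by simpa using hq, Finset.mem_singleton_self _,
        Chain.refl _ _ _, ?_⟩
      intro c hc
      rw [Finset.mem_singleton] at hc
      refine ⟨x, hx, hc.symm, ?_⟩
      rw [inv_mul_cancel]
      exact h1D
    · rintro z z' _ ⟨Q, hQq, hxQ, hch, hrep⟩ hs hz'
      have hxz : x⁻¹ * z ∈ D := hconf Q hQq x ⟨hx, hxQ⟩ z hch
      have hxz' : x⁻¹ * z' ∈ D' := by
        rw [hD']
        refine Finset.mem_insert_of_mem (Finset.mem_union_right _ ?_)
        refine Finset.mem_image₂.2 ⟨x⁻¹ * z, hxz, z⁻¹ * z', hs, ?_⟩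
        group
      by_cases hzQ : (z' : G ⧸ L) ∈ Q
      · exact ⟨Q, hQq, hxQ, hch.step hs ⟨hz', hzQ⟩, hrep⟩
      have hrep' : ∀ c ∈ insert (z' : G ⧸ L) Q, ∃ u ∈ X, (u : G ⧸ L) = c ∧ x⁻¹ * u ∈ D' := by
        intro c hc
        rcases Finset.mem_insert.1 hc with hc | hc
        · exact ⟨z', hz', hc.symm, hxz'⟩
        · exact hrep c hc
      have hcard : (insert (z' : G ⧸ L) Q).card = Q.card + 1 := Finset.card_insert_of_notMem hzQ
      by_cases hlt : Q.card + 1 ≤ q
      · refine ⟨insert (z' : G ⧸ L) Q, by omega, Finset.mem_insert_of_mem hxQ, ?_, hrep'⟩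
        refine Chain.step (hch.mono (subset_refl _) fun b hb => ?_) hs
          ⟨hz', Finset.mem_insert_self _ _⟩
        exact ⟨hb.1, Finset.mem_insert_of_mem hb.2⟩
      · exfalso
        have hcard' : (insert (z' : G ⧸ L) Q).card = q + 1 := by omega
        choose! u huX huc huD using hrep'
        set e := Finset.equivFinOfCardEq hcard' with he
        refine hfar (fun i => u ((e.symm i : {c // c ∈ insert (z' : G ⧸ L) Q}) : G ⧸ L))
          (fun i => huX _ (e.symm i).2) (fun i j hij hc => ?_) (fun i j => ?_)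
        · rw [huc _ (e.symm i).2, huc _ (e.symm j).2] at hc
          exact hij (e.symm.injective (Subtype.ext hc))
        · exact hdiff _ _ (huD _ (e.symm i).2) (huD _ (e.symm j).2)
  obtain ⟨Q, hQq, hxQ, hch, -⟩ := key
  exact hconf Q hQq x ⟨hx, hxQ⟩ y hch

end Pool.Agent.Helper65.FP
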