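import Pool.Agent.Helper65.FP.Defs

/-!
FP-11. Common ancestors in the tree.

Proof. `Subgroup.iSup_induction` (or `Subgroup.iSup_induction'`). `g ∈ A i`: by `gate x i g` the numbers `≤ 1` do: (a) `par x = par (x * g)`:
`1, 1`; (b) `par x = x * g`: `1, 0`; (c) `x = par (x * g)`: `0, 1`; (d) `0, 0`. So `lam = 1`. `g = 1`: `lam = 0`. Product
`g * h`: from `i₁, j₁` for `x, g` and `i₂, j₂` for `x * g, h`: `par^[i₂ + i₁] x = par^[i₂] (par^[j₁] (x * g)) =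
par^[j₁] (par^[i₂] (x * g)) = par^[j₁ + j₂] (x * g * h)`, `lam = lam₁ + lam₂`.
-/

set_option autoImplicit false

namespace Pool.Agent.Helper65.FP

variable {G ι : Type*} [Group G]

theorem GTree.near {A : ι → Subgroup G} (Tr : GTree A) (g : G) (hg : g ∈ ⨆ i, A i) :
    ∃ lam : ℕ, ∀ x, ∃ i ≤ lam, ∃ j ≤ lam, Tr.par^[i] x = Tr.par^[j] (x * g) := by
  refine Subgroup.iSup_induction A
    (C := fun g => ∃ lam : ℕ, ∀ x, ∃ i ≤ lam, ∃ j ≤ lam,
      Tr.par^[i] x = Tr.par^[j] (x * g)) hg ?_ ?_ ?_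
  · intro i a ha
    refine ⟨1, fun x => ?_⟩
    rcases Tr.gate x i a ha with ⟨_, _, h⟩ | ⟨_, _, h⟩ | ⟨_, _, h⟩ | ⟨_, _, h⟩
    · exact ⟨1, le_rfl, 1, le_rfl, h.symm⟩
    · exact ⟨1, le_rfl, 0, zero_le_one, h.symm⟩
    · exact ⟨0, zero_le_one, 1, le_rfl, h.symm⟩
    · exact ⟨0, zero_le_one, 0, zero_le_one, h.symm⟩
  · refine ⟨0, fun x => ⟨0, le_rfl, 0, le_rfl, ?_⟩⟩
    rw [mul_one]
  · rintro g h ⟨l1, h1⟩ ⟨l2, h2⟩
    refine ⟨l1 + l2, fun x => ?_⟩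
    obtain ⟨i1, hi1, j1, hj1, e1⟩ := h1 x
    obtain ⟨i2, hi2, j2, hj2, e2⟩ := h2 (x * g)
    refine ⟨i2 + i1, by omega, j1 + j2, by omega, ?_⟩
    rw [Function.iterate_add_apply, e1, ← Function.iterate_add_apply, add_comm i2 j1,
      Function.iterate_add_apply, e2, ← Function.iterate_add_apply, mul_assoc]

theorem GTree.par_mem_iSup {A : ι → Subgroup G} (Tr : GTree A) (x : G) :
    x⁻¹ * Tr.par x ∈ ⨆ i, A i := by
  rcases h : Tr.idx x with _ | i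
  · rw [Tr.par_none x h, inv_mul_cancel]
    exact Subgroup.one_mem _
  · exact Subgroup.mem_iSup_of_mem i (Tr.par_mem x i h)

theorem GTree.par_level {A : ι → Subgroup G} (Tr : GTree A) (x : G) (hx : 0 < Tr.ℓ x) :
    Tr.ℓ (Tr.par x) < Tr.ℓ x := by
  rcases h : Tr.idx x with _ | i
  · rw [Tr.none_iff] at h
    omega
  · exact Tr.par_lt x i h

end Pool.Agent.Helper65.FP
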