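import Pool.Agent.Helper65.FP.Defs

/-!
FP-13. Finitely many elements of the subgroup generated by the `A i` are products of elements of finite subsets.

Proof. For one element `t ∈ ⨆ i, A i`: `Subgroup.iSup_induction`: a statement `P t`: there are `T' : ι → Finset G` and
`B : Finset G` with `T' i ⊆ A i`, `T' i` closed under inverses, `B ⊆ ⨆ i, A i`, and a chain in `B` with steps in the union of the `T' i` from `1`
to `t`. `t ∈ A i`: `T' i = {t, t⁻¹}`, the other `T' j` empty (`open Classical`, `Function.update` or `if`), `B = {t}`. `t = 1`: everything empty,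
the constant chain. `t * t'`: `T' = T'₁ ∪ T'₂`, `B = B₁ ∪ {t * b | b ∈ B₂} ∪ ...`, the chain from `1` to `t`, followed by `t *` the chain from `1` to `t'`
(`Chain.left`, `Chain.trans`, `Chain.mono`). Then induction over the finite set `T` (unions of the finite sets, `insert 1`).
-/

set_option autoImplicit false

namespace Pool.Agent.Helper65.FP

open Pool.Agent.Helper65.TH

variable {G ι : Type*} [Group G]

private theorem syll_one (A : ι → Subgroup G) {t : G} (ht : t ∈ ⨆ i, A i) :
    ∃ (T' : ι → Finset G) (B : Finset G), (∀ i, ∀ t ∈ T' i, t ∈ A i) ∧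
      (∀ i, ∀ t ∈ T' i, t⁻¹ ∈ T' i) ∧ (∀ b ∈ B, b ∈ ⨆ i, A i) ∧
      Chain {s | ∃ i, s ∈ T' i} (fun b => b ∈ B) 1 t := by
  classical
  have main : t ∈ (⨆ i, A i) ∧ ∃ (T' : ι → Finset G) (B : Finset G), (∀ i, ∀ t ∈ T' i, t ∈ A i) ∧
      (∀ i, ∀ t ∈ T' i, t⁻¹ ∈ T' i) ∧ (∀ b ∈ B, b ∈ ⨆ i, A i) ∧
      Chain {s | ∃ i, s ∈ T' i} (fun b => b ∈ B) 1 t := by
    refine Subgroup.iSup_induction A (C := fun t => t ∈ (⨆ i, A i) ∧
      ∃ (T' : ι → Finset G) (B : Finset G), (∀ i, ∀ t ∈ T' i, t ∈ A i) ∧
      (∀ i, ∀ t ∈ T' i, t⁻¹ ∈ T' i) ∧ (∀ b ∈ B, b ∈ ⨆ i, A i) ∧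
      Chain {s | ∃ i, s ∈ T' i} (fun b => b ∈ B) 1 t) ht ?_ ?_ ?_
    · intro i x hx
      have hx' : x ∈ ⨆ i, A i := Subgroup.mem_iSup_of_mem i hx
      refine ⟨hx', fun j => if j = i then {x, x⁻¹} else ∅, {x}, ?_, ?_, ?_, ?_⟩
      · intro j s hs
        by_cases hj : j = i
        · subst hj
          simp only [if_true, Finset.mem_insert, Finset.mem_singleton] at hs
          rcases hs with rfl | rfl
          · exact hx
          · exact (A j).inv_mem hx
        · simp only [if_neg hj] at hs
          exact absurd hs (Finset.notMem_empty s)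
      · intro j s hs
        by_cases hj : j = i
        · subst hj
          simp only [if_true, Finset.mem_insert, Finset.mem_singleton] at hs ⊢
          rcases hs with rfl | rfl
          · exact Or.inr rfl
          · exact Or.inl (inv_inv x)
        · simp only [if_neg hj] at hs
          exact absurd hs (Finset.notMem_empty s)
      · intro b hb
        rw [Finset.mem_singleton] at hb
        rw [hb]
        exact hx'
      · refine (Chain.refl _ _ 1).step ⟨i, ?_⟩ (Finset.mem_singleton_self x)
        simp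
    · exact ⟨Subgroup.one_mem _, fun _ => ∅, ∅, by simp, by simp, by simp, Chain.refl _ _ _⟩
    · rintro x y ⟨hx, T1, B1, h1, h2, h3, h4⟩ ⟨hy, T2, B2, k1, k2, k3, k4⟩
      refine ⟨Subgroup.mul_mem _ hx hy, fun i => T1 i ∪ T2 i,
        B1 ∪ B2.image (fun b => x * b), ?_, ?_, ?_, ?_⟩
      · intro i s hs
        rcases Finset.mem_union.1 hs with hs | hs
        · exact h1 i s hs
        · exact k1 i s hs
      · intro i s hs
        rcases Finset.mem_union.1 hs with hs | hs
        · exact Finset.mem_union_left _ (h2 i s hs)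
        · exact Finset.mem_union_right _ (k2 i s hs)
      · intro b hb
        rcases Finset.mem_union.1 hb with hb | hb
        · exact h3 b hb
        · obtain ⟨c, hc, rfl⟩ := Finset.mem_image.1 hb
          exact Subgroup.mul_mem _ hx (k3 c hc)
      · have c1 : Chain {s | ∃ i, s ∈ T1 i ∪ T2 i}
            (fun b => b ∈ B1 ∪ B2.image (fun b => x * b)) 1 x := by
          refine h4.mono ?_ (fun b hb => Finset.mem_union_left _ hb)
          rintro u ⟨i, hu⟩
          exact ⟨i, Finset.mem_union_left _ hu⟩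
        have c2 : Chain {s | ∃ i, s ∈ T1 i ∪ T2 i}
            (fun b => b ∈ B1 ∪ B2.image (fun b => x * b)) (x * 1) (x * y) := by
          have c3 := k4.left (P' := fun b => b ∈ B1 ∪ B2.image (fun b => x * b)) x
            (fun b hb => Finset.mem_union_right _ (Finset.mem_image_of_mem _ hb))
          refine c3.mono ?_ (fun b hb => hb)
          rintro u ⟨i, hu⟩
          exact ⟨i, Finset.mem_union_right _ hu⟩
        rw [mul_one] at c2
        exact c1.trans c2
  exact main.2

theorem exists_syllables (A : ι → Subgroup G) (T : Finset G) (hT : ∀ t ∈ T, t ∈ ⨆ i, A i) :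
    ∃ (T' : ι → Finset G) (B : Finset G), (∀ i, ∀ t ∈ T' i, t ∈ A i) ∧
      (∀ i, ∀ t ∈ T' i, t⁻¹ ∈ T' i) ∧ (1 : G) ∈ B ∧ (∀ b ∈ B, b ∈ ⨆ i, A i) ∧
      ∀ t ∈ T, Chain {s | ∃ i, s ∈ T' i} (fun b => b ∈ B) 1 t := by
  classical
  induction T using Finset.induction_on with
  | empty =>
    refine ⟨fun _ => ∅, {1}, by simp, by simp, by simp, ?_, by simp⟩
    intro b hb
    rw [Finset.mem_singleton] at hb
    rw [hb]
    exact Subgroup.one_mem _
  | insert t T _ ih =>
    obtain ⟨T1, B1, h1, h2, h3, h4, h5⟩ := ih (fun s hs => hT s (Finset.mem_insert_of_mem hs))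
    obtain ⟨T2, B2, k1, k2, k3, k4⟩ := syll_one A (hT t (Finset.mem_insert_self _ _))
    refine ⟨fun i => T1 i ∪ T2 i, B1 ∪ B2, ?_, ?_, Finset.mem_union_left _ h3, ?_, ?_⟩
    · intro i s hs
      rcases Finset.mem_union.1 hs with hs | hs
      · exact h1 i s hs
      · exact k1 i s hs
    · intro i s hs
      rcases Finset.mem_union.1 hs with hs | hs
      · exact Finset.mem_union_left _ (h2 i s hs)
      · exact Finset.mem_union_right _ (k2 i s hs)
    · intro b hb
      rcases Finset.mem_union.1 hb with hb | hb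
      · exact h4 b hb
      · exact k3 b hb
    · intro s hs
      rcases Finset.mem_insert.1 hs with hs | hs
      · rw [hs]
        refine k4.mono ?_ (fun b hb => Finset.mem_union_right _ hb)
        rintro u ⟨i, hu⟩
        exact ⟨i, Finset.mem_union_right _ hu⟩
      · refine (h5 s hs).mono ?_ (fun b hb => Finset.mem_union_left _ hb)
        rintro u ⟨i, hu⟩
        exact ⟨i, Finset.mem_union_left _ hu⟩

end Pool.Agent.Helper65.FP
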