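import Pool.Agent.Helper65.FP.Defs

/-!
FP-14. Thickening the walls (as in `GN/Thick.lean`, `sep_thick`, which can be adapted).

Proof. `B` nonempty. Let `S'` = the finite set of the `b⁻¹ * s * b'`, `b, b' ∈ B`, `s ∈ S` (in `K`). `h S'`: `w₀`, `E₀`. Put
`w x = B.sup (fun b => w₀ (x * b))`, `E = E₀ ∪ {b * e * b'⁻¹ | b, b' ∈ B, e ∈ E₀}`. If `w x = 0` then `w₀ (x * b) = 0` for all `b ∈ B`. A chain
in `{w = 0}` with steps in `T` gives a chain in `{w₀ = 0}` with steps in `Tc`: the step from `z` to `z * t` is replaced by `z *` the chain from `1`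
to `t` in `B` (`Chain.left`, with `w₀ (z * b) = 0`). So `x⁻¹ * y ∈ E₀` (`x ∈ {w₀ = 0}` as `1 ∈ B`). For `i ≥ 1` and `w x = i` there is `b ∈ B` with
`w₀ (x * b) = i` (`Finset.exists_mem_eq_sup`), a chain with steps in `S` in `{w = i}` gives a chain `x_j * b_j` in `{w₀ = i}` with steps
`b_j⁻¹ * s * b_(j+1) ∈ S'`.
-/

set_option autoImplicit false

namespace Pool.Agent.Helper65.FP

open Pool.Agent.Helper65.TH Pool.Agent.Helper65.GN

variable {G : Type*} [Group G]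

theorem thicken (K : Subgroup G) (n : ℕ) (T S : Finset G) (hS : ∀ s ∈ S, s ∈ K) (Tc : Set G)
    (B : Finset G) (h1 : (1 : G) ∈ B) (hBK : ∀ b ∈ B, b ∈ K)
    (hB : ∀ t ∈ T, Chain Tc (fun b => b ∈ B) 1 t)
    (h : ∀ S' : Finset G, (∀ s ∈ S', s ∈ K) → ∃ (w : G → ℕ) (E : Finset G), (∀ x, w x ≤ n) ∧
      Bdd Tc {x | w x = 0} E ∧ ∀ i, 1 ≤ i → Bdd (S' : Set G) {x | w x = i} E) :
    ∃ (w : G → ℕ) (E : Finset G), (∀ x, w x ≤ n) ∧ Bdd (T : Set G) {x | w x = 0} E ∧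
      ∀ i, 1 ≤ i → Bdd (S : Set G) {x | w x = i} E := by
  classical
  let S₀ : Finset G := (B ×ˢ (S ×ˢ B)).image fun p => p.1⁻¹ * p.2.1 * p.2.2
  have hS₀ : ∀ c ∈ B, ∀ s ∈ S, ∀ c' ∈ B, c⁻¹ * s * c' ∈ S₀ := by
    intro c hc s hs c' hc'
    exact Finset.mem_image.2 ⟨(c, s, c'), Finset.mem_product.2 ⟨hc, Finset.mem_product.2
      ⟨hs, hc'⟩⟩, rfl⟩
  have hS₀K : ∀ s ∈ S₀, s ∈ K := by
    intro s hs
    obtain ⟨⟨c, s', c'⟩, hp, rfl⟩ := Finset.mem_image.1 hs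
    rw [Finset.mem_product, Finset.mem_product] at hp
    exact K.mul_mem (K.mul_mem (K.inv_mem (hBK _ hp.1)) (hS _ hp.2.1)) (hBK _ hp.2.2)
  obtain ⟨w₀, E₀, hw₀, hT₀, hE₀⟩ := h S₀ hS₀K
  let w : G → ℕ := fun x => B.sup fun c => w₀ (x * c)
  have hne : B.Nonempty := ⟨1, h1⟩
  have hwc : ∀ x, ∃ c ∈ B, w₀ (x * c) = w x := by
    intro x
    obtain ⟨c, hc, h2⟩ := Finset.exists_mem_eq_sup B hne fun c => w₀ (x * c)
    exact ⟨c, hc, h2.symm⟩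
  have hw0 : ∀ x, w x = 0 → ∀ c ∈ B, w₀ (x * c) = 0 := by
    intro x hx c hc
    have h3 : w₀ (x * c) ≤ w x := Finset.le_sup (f := fun c' => w₀ (x * c')) hc
    rw [hx] at h3
    exact Nat.le_zero.1 h3
  refine ⟨w, E₀ ∪ (B ×ˢ (E₀ ×ˢ B)).image fun p => p.1 * p.2.1 * p.2.2⁻¹,
    fun x => Finset.sup_le fun c _ => hw₀ _, ?_, fun i hi => ?_⟩
  · intro x hx y hxy
    have hx0 : w₀ x = 0 := by
      have h3 := hw0 x hx 1 h1
      rwa [mul_one] at h3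
    refine Finset.mem_union_left _ (hT₀ x hx0 y ?_)
    refine hxy.rec' (R := fun z => Chain Tc (fun b => b ∈ {x | w₀ x = 0}) x z)
      (Chain.refl _ _ _) ?_
    intro a b hxa hR hs hb
    have ha : w a = 0 := hxa.last (P := fun b => b ∈ {x | w x = 0}) hx
    have h4 : Chain Tc (fun b => b ∈ {x | w₀ x = 0}) (a * 1) (a * (a⁻¹ * b)) :=
      (hB _ hs).left a fun c hc => hw0 a ha c hc
    rw [mul_one, mul_inv_cancel_left] at h4
    exact hR.trans h4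
  · intro x hx y hxy
    obtain ⟨c₀, hc₀, h0⟩ := hwc x
    have hx' : w x = i := hx
    have h1 : ∃ c ∈ B, w₀ (y * c) = i ∧
        Chain (S₀ : Set G) (fun z => z ∈ {z | w₀ z = i}) (x * c₀) (y * c) := by
      refine hxy.rec' (R := fun z => ∃ c ∈ B, w₀ (z * c) = i ∧
        Chain (S₀ : Set G) (fun z => z ∈ {z | w₀ z = i}) (x * c₀) (z * c))
        ⟨c₀, hc₀, h0.trans hx', Chain.refl _ _ _⟩ ?_
      rintro a b - ⟨c, hc, h2, h3⟩ hs hb
      obtain ⟨c', hc', h4⟩ := hwc b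
      have hb' : w b = i := hb
      refine ⟨c', hc', h4.trans hb', h3.step ?_ (h4.trans hb')⟩
      have h5 : (a * c)⁻¹ * (b * c') = c⁻¹ * (a⁻¹ * b) * c' := by group
      rw [h5]
      exact hS₀ c hc _ hs c' hc'
    obtain ⟨c, hc, h2, h3⟩ := h1
    have h4 := hE₀ i hi (x * c₀) (h0.trans hx') _ h3
    refine Finset.mem_union_right _ (Finset.mem_image.2 ⟨(c₀, _, c), Finset.mem_product.2
      ⟨hc₀, Finset.mem_product.2 ⟨h4, hc⟩⟩, ?_⟩)
    change c₀ * ((x * c₀)⁻¹ * (y * c)) * c⁻¹ = x⁻¹ * y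
    group

end Pool.Agent.Helper65.FP
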