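import Pool.Agent.Helper65.FP.Defs

/-!
FP-12. Free products of subgroups give a tree structure.

Notation: `F = Monoid.CoprodI (fun i => A i)`, `φ : F →* G` the map in `hinj`, injective, with range `H = ⨆ i, A i`
(`Monoid.CoprodI.range_eq_iSup`, or `Monoid.CoprodI.induction_on` and `Subgroup.iSup_induction`). For every `x : G` let `r x` be the
representative of the left coset `x H` (`Quotient.out`), `r (x * h) = r x` for `h ∈ H`, `x⁻¹ * r x ∈ H`. Let `u x : F` be the
unique element with `φ (u x) = x⁻¹ * r x`, and `w x : Monoid.CoprodI.Word` its normal form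
(`Monoid.CoprodI.Word.equiv`, `w x = u x • Word.empty`; `(w x).prod = u x`). Put `idx x = (w x).fstIdx`, `ℓ x = (w x).toList.length`, and
`par x = r x * (φ w'.prod)⁻¹`, where `w'` is the word `w x` without its first letter (`w' = w x` if `w x` is empty); then
`r (par x) = r x`, `(par x)⁻¹ * r x = φ w'.prod`, so `w (par x) = w'`. If the first letter is `s ∈ A i` then `w x` has the product
`s * w'.prod`, so `x⁻¹ * par x = x⁻¹ * r x * (φ w'.prod)⁻¹ = s ∈ A i`.
Everything can be expressed by `Word.equivPair i : Word M ≃ Pair M i`: for `w x` with pair `(h, w')` (`w x = rcons`, `fstIdx w' ≠ some i`):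
`idx x = some i` iff `h ≠ 1`; the word of `x * a`, `a ∈ A i`: `(x * a)⁻¹ * r x = a⁻¹ * (x⁻¹ * r x)`, so `w (x * a) = of a⁻¹ • w x`, and its
pair is `(a⁻¹ * h, w')` (`Word.equivPair_smul_same`, `Word.of_smul_def`). So `gate`: let `g₀ = r x * (φ w'.prod)⁻¹`. If `h ≠ 1` then `idx x = some i`,
`par x = g₀`; if `h = 1` then `idx x ≠ some i` and `x = g₀`; the same for `x * a` with `a⁻¹ * h`: this gives the four cases.
It may be convenient to define `par x` by choosing `i` with `idx x = some i` and taking the tail of `equivPair i`.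
-/

set_option autoImplicit false

namespace Pool.Agent.Helper65.FP

open Monoid.CoprodI in
private theorem rcons_facts {ι : Type*} {M : ι → Type*} [∀ i, Monoid (M i)]
    [∀ i, DecidableEq (M i)] {i : ι} (p : Word.Pair M i) :
    (p.head ≠ 1 → (Word.rcons p).fstIdx = some i ∧
      (Word.rcons p).toList.length = p.tail.toList.length + 1) ∧
    (p.head = 1 → (Word.rcons p).fstIdx ≠ some i) := by
  constructor
  · intro h
    unfold Word.rcons
    rw [dif_neg h]
    constructor
    · exact Word.fstIdx_cons _ _ _ _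
    · simp [Word.cons]
  · intro h
    unfold Word.rcons
    rw [dif_pos h]
    exact p.fstIdx_ne

theorem exists_gtree {G ι : Type*} [Group G] (A : ι → Subgroup G)
    (hinj : Function.Injective (Monoid.CoprodI.lift fun i => (A i).subtype)) :
    Nonempty (GTree A) := by
  classical
  let M : ι → Type _ := fun i => A i
  let φ : Monoid.CoprodI M →* G := Monoid.CoprodI.lift fun i => (A i).subtype
  have hφ : Function.Injective φ := hinj
  have hof : ∀ (i : ι) (a : M i), φ (Monoid.CoprodI.of a) = (a : G) := by
    intro i a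
    exact Monoid.CoprodI.lift_of (fun i => (A i).subtype) a
  let H : Subgroup G := φ.range
  let r : G → G := fun x => Quotient.out (QuotientGroup.mk (s := H) x)
  have hr : ∀ x, x⁻¹ * r x ∈ H := by
    intro x
    have h1 : (QuotientGroup.mk (s := H) x) = QuotientGroup.mk (r x) :=
      (QuotientGroup.out_eq' (QuotientGroup.mk (s := H) x)).symm
    exact QuotientGroup.eq.mp h1
  have hr2 : ∀ x y, x⁻¹ * y ∈ H → r x = r y := by
    intro x y h
    have h1 : (QuotientGroup.mk (s := H) x) = QuotientGroup.mk y := QuotientGroup.eq.mpr h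
    simp only [r]
    rw [h1]
  choose u hu using hr
  let w : G → Monoid.CoprodI.Word M := fun x => u x • Monoid.CoprodI.Word.empty
  have hw : ∀ x, (w x).prod = u x := by
    intro x
    simp only [w]
    rw [Monoid.CoprodI.Word.prod_smul, Monoid.CoprodI.Word.prod_empty, mul_one]
  -- determination of `u` and `w`
  have hdet : ∀ x y (g : Monoid.CoprodI M), r y = r x → φ g = y⁻¹ * r x → u y = g := by
    intro x y g h1 h2
    apply hφ
    rw [hu, h1, h2]
  have hwdet : ∀ x y (v : Monoid.CoprodI.Word M), r y = r x → φ v.prod = y⁻¹ * r x → w y = v := by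
    intro x y v h1 h2
    have h3 := hdet x y v.prod h1 h2
    simp only [w]
    rw [h3]
    exact Monoid.CoprodI.Word.equiv.right_inv v
  let E : ∀ i : ι, G → Monoid.CoprodI.Word.Pair M i := fun i x =>
    Monoid.CoprodI.Word.equivPair i (w x)
  have hE : ∀ i x, Monoid.CoprodI.Word.rcons (E i x) = w x := by
    intro i x
    exact (Monoid.CoprodI.Word.equivPair i).left_inv (w x)
  let g0 : ∀ i : ι, G → G := fun i x => r x * (φ (E i x).tail.prod)⁻¹
  let idx : G → Option ι := fun x => (w x).fstIdx
  let par : G → G := fun x => (idx x).elim x (fun i => g0 i x)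
  have hux : ∀ i x, φ (u x) = ((E i x).head : G) * φ (E i x).tail.prod := by
    intro i x
    rw [← hw x, ← hE i x, Monoid.CoprodI.Word.prod_rcons, map_mul, hof]
  have hg0 : ∀ i x, x⁻¹ * g0 i x = ((E i x).head : G) := by
    intro i x
    simp only [g0]
    rw [← mul_assoc, ← hu x, hux i x, mul_assoc, mul_inv_cancel, mul_one]
  -- key facts
  have key1 : ∀ i x, (E i x).head ≠ 1 → idx x = some i ∧ par x = g0 i x ∧
      (w x).toList.length = (E i x).tail.toList.length + 1 := by
    intro i x h
    have h1 := (rcons_facts (E i x)).1 h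
    rw [hE i x] at h1
    refine ⟨h1.1, ?_, h1.2⟩
    simp only [par]
    have : idx x = some i := h1.1
    rw [this]
    rfl
  have key2 : ∀ i x, (E i x).head = 1 → idx x ≠ some i ∧ x = g0 i x := by
    intro i x h
    have h1 := (rcons_facts (E i x)).2 h
    rw [hE i x] at h1
    refine ⟨h1, ?_⟩
    have h2 := hg0 i x
    rw [h] at h2
    have h3 : x⁻¹ * g0 i x = 1 := h2
    exact (inv_mul_eq_one.mp h3)
  -- the word of the parent
  have hpar : ∀ i x, w (g0 i x) = (E i x).tail := by
    intro i x
    apply hwdet x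
    · apply hr2
      have : (g0 i x)⁻¹ * x = φ ((E i x).tail.prod * (u x)⁻¹) := by
        simp only [g0]
        rw [map_mul, map_inv, hu x, mul_inv_rev, inv_inv, mul_inv_rev, inv_inv]
        group
      rw [this]
      exact ⟨_, rfl⟩
    · simp only [g0]
      rw [mul_inv_rev, inv_inv]
      group
  have hEmul : ∀ i x (a : M i), E i (x * (a : G)) =
      ⟨a⁻¹ * (E i x).head, (E i x).tail, (E i x).fstIdx_ne⟩ ∧ r (x * (a : G)) = r x := by
    intro i x a
    have h1 : r (x * (a : G)) = r x := by
      symm
      apply hr2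
      refine ⟨Monoid.CoprodI.of a, ?_⟩
      rw [hof]
      group
    refine ⟨?_, h1⟩
    have h2 : w (x * (a : G)) = Monoid.CoprodI.of a⁻¹ • w x := by
      apply hwdet x _ _ h1
      rw [Monoid.CoprodI.Word.prod_smul, map_mul, hof, hw, hu]
      rw [mul_inv_rev]
      rw [mul_assoc]
      rfl
    simp only [E]
    rw [h2, Monoid.CoprodI.Word.equivPair_smul_same]
  refine ⟨{ par := par, ℓ := fun x => (w x).toList.length, idx := idx, none_iff := ?_,
            par_none := ?_, par_lt := ?_, par_mem := ?_, gate := ?_ }⟩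
  · intro x
    simp only [idx, Monoid.CoprodI.Word.fstIdx]
    rw [Option.map_eq_none_iff, List.head?_eq_none_iff, List.length_eq_zero_iff]
  · intro x h
    simp only [par]
    rw [h]
    rfl
  · intro x i h
    have hne : (E i x).head ≠ 1 := fun h1 => (key2 i x h1).1 h
    obtain ⟨_, h2, h3⟩ := key1 i x hne
    rw [h2, hpar i x, h3]
    exact Nat.lt_succ_self _
  · intro x i h
    have hne : (E i x).head ≠ 1 := fun h1 => (key2 i x h1).1 h
    obtain ⟨_, h2, h3⟩ := key1 i x hne
    rw [h2, hg0 i x]
    exact (E i x).head.2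
  · intro x i a ha
    obtain ⟨hE1, hr1⟩ := hEmul i x ⟨a, ha⟩
    simp only at hE1 hr1
    have hg : g0 i (x * a) = g0 i x := by
      simp only [g0]
      rw [hr1, hE1]
    by_cases h1 : (E i x).head = 1
    · obtain ⟨a1, a2⟩ := key2 i x h1
      by_cases h2 : (E i (x * a)).head = 1
      · obtain ⟨b1, b2⟩ := key2 i (x * a) h2
        right; right; right
        exact ⟨a1, b1, by rw [b2, hg, ← a2]⟩
      · obtain ⟨b1, b2, _⟩ := key1 i (x * a) h2
        right; right; left
        exact ⟨a1, b1, by rw [b2, hg, ← a2]⟩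
    · obtain ⟨a1, a2, _⟩ := key1 i x h1
      by_cases h2 : (E i (x * a)).head = 1
      · obtain ⟨b1, b2⟩ := key2 i (x * a) h2
        right; left
        exact ⟨a1, b1, by rw [a2, b2, hg]⟩
      · obtain ⟨b1, b2, _⟩ := key1 i (x * a) h2
        left
        exact ⟨a1, b1, by rw [a2, b2, hg]⟩

end Pool.Agent.Helper65.FP
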