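import Mathlib
import Pool.Agent.Helper75.Apc.Count

/-!
FP-01. A local lemma for product events (Rosenfeld counting), infinitely many variables. MATHLIB ONLY.
Similar to `Pool/Agent/Helper75/Apc/Count.lean` (`card_multi`, `val_step`, `exists_assignment`), which may be
imported and copied from.

`sp e` = support of the event `e`, the event `e` takes place for `f : V → Fin N` if `f v ∈ bad e` for
all `v ∈ sp e`. Claim: there is `f` such that no event takes place.

Proof. (1) Finite version: `V` is finite. For a finite set `D` of variables let `val D` be the set of all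
`f : V → Fin N` such that no event with `sp e ⊆ D` takes place (all functions are defined on all of `V`).
Claim: `β * |val (D.erase v)| ≤ N * |val D|` for `v ∈ D` (real numbers). Induction on `|D|`. The
`f ∈ val (D.erase v)` which are not in `val D` satisfy an event `e` with `v ∈ sp e ⊆ D`, so `e ∈ inc v`. Fix `e`,
`s = |sp e|`. Those `f` lie in `val (D \ sp e)` and `f u ∈ bad e` for all `u ∈ sp e`; the condition
`f ∈ val (D \ sp e)` does not depend on the values on `sp e`, so their number is
`|val (D \ sp e)| * (|bad e| / N) ^ s` (`card_multi`). By the induction hypothesis applied `s - 1` times (removing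
the elements of `sp e \ {v}` from `D.erase v` one after the other)
`|val (D \ sp e)| ≤ (N / β) ^ (s - 1) * |val (D.erase v)|`. So the number of these `f` is at most
`∑ e ∈ inc v, |bad e| ^ s / (N * β ^ (s - 1)) * |val (D.erase v)| ≤ (N - β) / N * |val (D.erase v)|`, hence
`N * |val D| ≥ N * |val (D.erase v)| - (N - β) * |val (D.erase v)|`. As `|val ∅| = N ^ |V| > 0` (there is no event
with empty support; `N > 0` since `N - β ≥ 0` if there is a variable, the sum in `hsum` is nonnegative)
all `val D` are nonempty.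
(2) Infinite `V`: compactness of `V → Fin N` (product of finite discrete spaces): the sets
`{f | ∃ v ∈ sp e, f v ∉ bad e}` are closed; finitely many of them have a common point: let `V₀` be
the (finite) union of their supports, apply (1) to the subtype `V₀`, to the events `e` with
`sp e ⊆ V₀` (index type `{e // sp e ⊆ V₀}`, supports `(sp e).subtype _`, `inc` by `Finset.subtype`; the sums only get
smaller, all terms are nonnegative) and extend by an arbitrary value (`N > 0`). If `V` is empty there is no event (`hne`).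
-/

set_option autoImplicit false

namespace Pool.Agent.Helper65.FP

section finite

open Finset Function Classical

variable {V ι : Type*} [Fintype V] {N : ℕ}

/-- the assignments for which no event inside `D` takes place -/
private noncomputable def lv (sp : ι → Finset V) (bad : ι → Finset (Fin N)) (D : Finset V) :
    Finset (V → Fin N) :=
  univ.filter fun f => ∀ e, sp e ⊆ D → ∃ v ∈ sp e, f v ∉ bad e

private theorem lv_mono (sp : ι → Finset V) (bad : ι → Finset (Fin N)) {D D' : Finset V}
    (h : D' ⊆ D) : lv sp bad D ⊆ lv sp bad D' := by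
  intro f hf
  simp only [lv, mem_filter, mem_univ, true_and] at hf ⊢
  exact fun e he => hf e (he.trans h)

private theorem lv_step (sp : ι → Finset V) (bad : ι → Finset (Fin N)) (β : ℝ) (hβ : 0 < β)
    (inc : V → Finset ι) (hinc : ∀ v e, v ∈ sp e → e ∈ inc v) (hN : 0 < N)
    (hsum : ∀ v, ∑ e ∈ inc v, ((bad e).card : ℝ) ^ (sp e).card / β ^ ((sp e).card - 1) ≤ N - β) :
    ∀ n : ℕ, ∀ D : Finset V, D.card = n → ∀ v ∈ D,
      β * ((lv sp bad (D.erase v)).card : ℝ) ≤ N * ((lv sp bad D).card : ℝ) := by
  have hNr : (0 : ℝ) < N := by exact_mod_cast hN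
  intro n
  induction n using Nat.strong_induction_on with
  | _ n ih =>
  intro D hD v hv
  have hiter : ∀ (E D' : Finset V), D'.card < n → E ⊆ D' →
      β ^ E.card * ((lv sp bad (D' \ E)).card : ℝ) ≤ N ^ E.card * ((lv sp bad D').card : ℝ) := by
    intro E
    induction E using Finset.induction_on with
    | empty => intro D' _ _; simp
    | insert e E he ihE =>
      intro D' hD' hE
      have heD' : e ∈ D' := hE (mem_insert_self e E)
      have hED' : E ⊆ D'.erase e := by
        intro z hz
        refine mem_erase.2 ⟨?_, hE (mem_insert_of_mem hz)⟩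
        rintro rfl
        exact he hz
      have hcard : (D'.erase e).card < n := lt_of_le_of_lt (card_le_card (erase_subset _ _)) hD'
      have h1 := ihE (D'.erase e) hcard hED'
      have h2 := ih D'.card hD' D' rfl e heD'
      have hset : D' \ insert e E = (D'.erase e) \ E := by
        ext z; simp only [mem_sdiff, mem_insert, mem_erase]; tauto
      rw [hset, card_insert_of_notMem he, pow_succ, pow_succ]
      calc β ^ E.card * β * ((lv sp bad (D'.erase e \ E)).card : ℝ)
          = β * (β ^ E.card * ((lv sp bad (D'.erase e \ E)).card : ℝ)) := by ring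
        _ ≤ β * (N ^ E.card * ((lv sp bad (D'.erase e)).card : ℝ)) :=
            mul_le_mul_of_nonneg_left h1 hβ.le
        _ = N ^ E.card * (β * ((lv sp bad (D'.erase e)).card : ℝ)) := by ring
        _ ≤ N ^ E.card * (N * ((lv sp bad D').card : ℝ)) :=
            mul_le_mul_of_nonneg_left h2 (by positivity)
        _ = N ^ E.card * N * ((lv sp bad D').card : ℝ) := by ring
  set M := (lv sp bad (D.erase v)).card with hM
  let piece : ι → Finset (V → Fin N) := fun e =>
    univ.filter fun f => f ∈ lv sp bad (D \ sp e) ∧ ∀ u ∈ sp e, f u ∈ bad e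
  set fam := (inc v).filter fun e => v ∈ sp e ∧ sp e ⊆ D with hfam
  have hsub : lv sp bad (D.erase v) \ lv sp bad D ⊆ fam.biUnion piece := by
    intro f hf
    rw [mem_sdiff] at hf
    obtain ⟨hf1, hf2⟩ := hf
    have hf1' : ∀ e, sp e ⊆ D.erase v → ∃ v ∈ sp e, f v ∉ bad e := (mem_filter.1 hf1).2
    have hf2' : ∃ e, sp e ⊆ D ∧ ∀ v ∈ sp e, f v ∈ bad e := by
      by_contra hcon
      push Not at hcon
      exact hf2 (mem_filter.2 ⟨mem_univ _, hcon⟩)
    obtain ⟨e, he, hb⟩ := hf2'
    have hve : v ∈ sp e := by
      by_contra hve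
      obtain ⟨w, hw, hw2⟩ := hf1' e (fun z hz => mem_erase.2
        ⟨fun h => hve (h ▸ hz), he hz⟩)
      exact hw2 (hb w hw)
    rw [mem_biUnion]
    refine ⟨e, mem_filter.2 ⟨hinc v e hve, hve, he⟩, ?_⟩
    simp only [piece, mem_filter, mem_univ, true_and]
    refine ⟨lv_mono sp bad ?_ hf1, hb⟩
    intro z hz
    rw [mem_sdiff] at hz
    refine mem_erase.2 ⟨?_, hz.1⟩
    rintro rfl
    exact hz.2 hve
  have hpiece : ∀ e ∈ fam, ((piece e).card : ℝ) * N ≤
      ((bad e).card : ℝ) ^ (sp e).card / β ^ ((sp e).card - 1) * M := by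
    intro e he
    obtain ⟨-, hve, hes⟩ := mem_filter.1 he
    have hm := Pool.Agent.Helper75.Apc.card_multi
      (fun f : V → Fin N => f ∈ lv sp bad (D \ sp e)) (fun _ => bad e) (sp e) (by
        intro f k u hu
        simp only [lv, mem_filter, mem_univ, true_and]
        refine forall₂_congr fun e' he' => ?_
        refine exists_congr fun w => and_congr_right fun hw => ?_
        rw [update_of_ne]
        rintro rfl
        exact (mem_sdiff.1 (he' hw)).2 hu)
    have hfil : (univ.filter fun f : V → Fin N => f ∈ lv sp bad (D \ sp e))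
        = lv sp bad (D \ sp e) := by
      ext f; simp
    have hm2 : (piece e).card * N ^ (sp e).card
        = (lv sp bad (D \ sp e)).card * (bad e).card ^ (sp e).card := by
      rw [prod_const] at hm
      refine Eq.trans ?_ (hm.trans ?_)
      · exact congrArg (fun t => card t * N ^ (sp e).card)
          (Pool.Agent.Helper75.Apc.filter_inst _ _ _ _)
      · refine congrArg (fun t => card t * (bad e).card ^ (sp e).card) ?_
        exact (Pool.Agent.Helper75.Apc.filter_inst _ _ _ _).trans hfil
    have hlt : (D.erase v).card < n := by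
      rw [card_erase_of_mem hv, hD]
      have : 0 < D.card := card_pos.2 ⟨v, hv⟩
      omega
    have hE' : (sp e).erase v ⊆ D.erase v := erase_subset_erase v hes
    have h5 := hiter ((sp e).erase v) (D.erase v) hlt hE'
    have hset : (D.erase v) \ (sp e).erase v = D \ sp e := by
      ext z
      simp only [mem_sdiff, mem_erase]
      constructor
      · rintro ⟨⟨h1, h2⟩, h3⟩
        exact ⟨h2, fun h4 => h3 ⟨h1, h4⟩⟩
      · rintro ⟨h1, h2⟩
        exact ⟨⟨fun h3 => h2 (h3 ▸ hve), h1⟩, fun h3 => h2 h3.2⟩
    rw [hset, card_erase_of_mem hve] at h5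
    have hs1 : (sp e).card = (sp e).card - 1 + 1 := by
      have : 0 < (sp e).card := card_pos.2 ⟨v, hve⟩
      omega
    have hm3 : ((piece e).card : ℝ) * (N ^ ((sp e).card - 1) * N)
        = ((lv sp bad (D \ sp e)).card : ℝ) * ((bad e).card : ℝ) ^ (sp e).card := by
      rw [← pow_succ, ← hs1]
      exact_mod_cast hm2
    have hNp : (0 : ℝ) < N ^ ((sp e).card - 1) := by positivity
    have hβp : 0 < β ^ ((sp e).card - 1) := by positivity
    rw [div_mul_eq_mul_div, le_div_iff₀ hβp]
    refine le_of_mul_le_mul_left ?_ hNp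
    calc (N : ℝ) ^ ((sp e).card - 1) * (((piece e).card : ℝ) * N * β ^ ((sp e).card - 1))
        = ((piece e).card : ℝ) * (N ^ ((sp e).card - 1) * N) * β ^ ((sp e).card - 1) := by ring
      _ = ((bad e).card : ℝ) ^ (sp e).card *
          (β ^ ((sp e).card - 1) * ((lv sp bad (D \ sp e)).card : ℝ)) := by rw [hm3]; ring
      _ ≤ ((bad e).card : ℝ) ^ (sp e).card * (N ^ ((sp e).card - 1) * M) :=
          mul_le_mul_of_nonneg_left h5 (pow_nonneg (Nat.cast_nonneg _) _)
      _ = (N : ℝ) ^ ((sp e).card - 1) * (((bad e).card : ℝ) ^ (sp e).card * M) := by ring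
  have hbad : ((lv sp bad (D.erase v) \ lv sp bad D).card : ℝ) * N ≤ (N - β) * M := by
    calc ((lv sp bad (D.erase v) \ lv sp bad D).card : ℝ) * N
        ≤ ((fam.biUnion piece).card : ℝ) * N := by
          apply mul_le_mul_of_nonneg_right _ hNr.le
          exact Nat.cast_le.2 (card_le_card hsub)
      _ ≤ (∑ e ∈ fam, ((piece e).card : ℝ)) * N := by
          apply mul_le_mul_of_nonneg_right _ hNr.le
          have h8 : ((fam.biUnion piece).card : ℝ) ≤ ((∑ e ∈ fam, (piece e).card : ℕ) : ℝ) :=
            Nat.cast_le.2 card_biUnion_le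
          rwa [Nat.cast_sum] at h8
      _ = ∑ e ∈ fam, ((piece e).card : ℝ) * N := by rw [sum_mul]
      _ ≤ ∑ e ∈ fam, ((bad e).card : ℝ) ^ (sp e).card / β ^ ((sp e).card - 1) * M :=
          sum_le_sum hpiece
      _ ≤ ∑ e ∈ inc v, ((bad e).card : ℝ) ^ (sp e).card / β ^ ((sp e).card - 1) * M := by
          refine sum_le_sum_of_subset_of_nonneg (filter_subset _ _) fun e _ _ => ?_
          positivity
      _ = (∑ e ∈ inc v, ((bad e).card : ℝ) ^ (sp e).card / β ^ ((sp e).card - 1)) * M := by
          rw [sum_mul]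
      _ ≤ (N - β) * M := mul_le_mul_of_nonneg_right (hsum v) (Nat.cast_nonneg _)
  have hsplit : (lv sp bad (D.erase v) \ lv sp bad D).card + (lv sp bad D).card = M := by
    rw [hM]
    exact card_sdiff_add_card_eq_card (lv_mono sp bad (erase_subset v D))
  have hsplit' : ((lv sp bad (D.erase v) \ lv sp bad D).card : ℝ) + ((lv sp bad D).card : ℝ) = M := by
    exact_mod_cast hsplit
  have h7 : ((lv sp bad (D.erase v) \ lv sp bad D).card : ℝ) = M - ((lv sp bad D).card : ℝ) := by
    linarith
  rw [h7] at hbad
  nlinarith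

private theorem lv_exists (sp : ι → Finset V) (bad : ι → Finset (Fin N)) (β : ℝ) (hβ : 0 < β)
    (inc : V → Finset ι) (hinc : ∀ v e, v ∈ sp e → e ∈ inc v) (hne : ∀ e, (sp e).Nonempty)
    (hN : 0 < N)
    (hsum : ∀ v, ∑ e ∈ inc v, ((bad e).card : ℝ) ^ (sp e).card / β ^ ((sp e).card - 1) ≤ N - β) :
    ∃ f : V → Fin N, ∀ e, ∃ v ∈ sp e, f v ∉ bad e := by
  have hNr : (0 : ℝ) < N := by exact_mod_cast hN
  have hstep := lv_step sp bad β hβ inc hinc hN hsum
  have hpos : ∀ D : Finset V, 0 < (lv sp bad D).card := by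
    intro D
    induction D using Finset.induction_on with
    | empty =>
      refine card_pos.2 ⟨fun _ => ⟨0, hN⟩, ?_⟩
      simp only [lv, mem_filter, mem_univ, true_and]
      intro e he
      exact absurd (subset_empty.1 he) (hne e).ne_empty
    | insert e E he ih =>
      have h := hstep _ (insert e E) rfl e (mem_insert_self e E)
      rw [erase_insert he] at h
      have h1 : (0 : ℝ) < (lv sp bad E).card := by exact_mod_cast ih
      have h2 : 0 < β * ((lv sp bad E).card : ℝ) := mul_pos hβ h1
      have h3 : (0 : ℝ) < N * ((lv sp bad (insert e E)).card : ℝ) := lt_of_lt_of_le h2 h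
      have h4 : (0 : ℝ) < ((lv sp bad (insert e E)).card : ℝ) := pos_of_mul_pos_right h3 hNr.le
      exact_mod_cast h4
  obtain ⟨f, hf⟩ := card_pos.1 (hpos univ)
  exact ⟨f, fun e => (mem_filter.1 hf).2 e (subset_univ _)⟩

end finite

theorem local_lemma {V ι : Type*} [DecidableEq V] (N : ℕ) (sp : ι → Finset V)
    (bad : ι → Finset (Fin N)) (β : ℝ) (hβ : 0 < β) (inc : V → Finset ι)
    (hinc : ∀ v e, v ∈ sp e → e ∈ inc v) (hne : ∀ e, (sp e).Nonempty)
    (hsum : ∀ v, ∑ e ∈ inc v, ((bad e).card : ℝ) ^ (sp e).card / β ^ ((sp e).card - 1) ≤ N - β) :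
    ∃ f : V → Fin N, ∀ e, ∃ v ∈ sp e, f v ∉ bad e := by
  classical
  rcases isEmpty_or_nonempty V with hV | hV
  · exact ⟨fun v => hV.elim v, fun e => hV.elim (hne e).choose⟩
  have hN : 0 < N := by
    obtain ⟨v⟩ := hV
    have h1 : (0 : ℝ) ≤ ∑ e ∈ inc v,
        ((bad e).card : ℝ) ^ (sp e).card / β ^ ((sp e).card - 1) :=
      Finset.sum_nonneg fun e _ => by positivity
    have h2 := h1.trans (hsum v)
    have h3 : (0 : ℝ) < N := by linarith
    exact_mod_cast h3
  let K : ι → Set (V → Fin N) := fun e => {f | ∃ v ∈ sp e, f v ∉ bad e}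
  have hclosed : ∀ e, IsClosed (K e) := by
    intro e
    have hK : K e = ⋃ v ∈ sp e, (fun f : V → Fin N => f v) ⁻¹' ((bad e : Set (Fin N))ᶜ) := by
      ext f
      simp [K]
    rw [hK]
    refine isClosed_biUnion_finset fun v _ => ?_
    exact IsClosed.preimage (continuous_apply v) (isClosed_discrete _)
  have hfin : ∀ u : Finset ι, (Set.univ ∩ ⋂ e ∈ u, K e).Nonempty := by
    intro u
    let V0 : Finset V := u.biUnion sp
    have hsub : ∀ e : {e // e ∈ u}, sp e.1 ⊆ V0 := fun e z hz =>
      Finset.mem_biUnion.2 ⟨e.1, e.2, hz⟩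
    have hcard : ∀ e : {e // e ∈ u}, ((sp e.1).subtype (fun c => c ∈ V0)).card = (sp e.1).card := by
      intro e
      rw [Finset.card_subtype, Finset.filter_true_of_mem (fun z hz => hsub e hz)]
    obtain ⟨g, hg⟩ := lv_exists (V := {c // c ∈ V0}) (ι := {e // e ∈ u}) (N := N)
      (fun e => (sp e.1).subtype (fun c => c ∈ V0)) (fun e => bad e.1) β hβ
      (fun c => (inc c.1).subtype (fun e => e ∈ u))
      (fun v e hv => by
        rw [Finset.mem_subtype] at hv ⊢
        exact hinc v.1 e.1 hv)
      (fun e => by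
        obtain ⟨z, hz⟩ := hne e.1
        exact ⟨⟨z, hsub e hz⟩, Finset.mem_subtype.2 hz⟩)
      hN
      (fun v => by
        refine le_trans (le_of_eq (Finset.sum_congr rfl fun e _ => by rw [hcard e])) ?_
        refine le_trans ?_ (hsum v.1)
        rw [Finset.sum_subtype_eq_sum_filter (f := fun e : ι =>
          ((bad e).card : ℝ) ^ (sp e).card / β ^ ((sp e).card - 1))]
        refine Finset.sum_le_sum_of_subset_of_nonneg (Finset.filter_subset _ _) fun e _ _ => ?_
        positivity)
    refine ⟨fun c => if h : c ∈ V0 then g ⟨c, h⟩ else ⟨0, hN⟩, Set.mem_univ _, ?_⟩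
    simp only [Set.mem_iInter]
    intro e he
    obtain ⟨w, hw, hw2⟩ := hg ⟨e, he⟩
    refine ⟨w.1, Finset.mem_subtype.1 hw, ?_⟩
    simp only [w.2, dite_true]
    exact hw2
  obtain ⟨f, -, hf⟩ := isCompact_univ.inter_iInter_nonempty K hclosed hfin
  exact ⟨f, fun e => Set.mem_iInter.1 hf e⟩

end Pool.Agent.Helper65.FP
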