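import Pool.Agent.Helper65.FP.Defs

/-!
FP-08b. Number of the windows containing a given point, and size of a window.

`window_card`: for fixed `i` the levels of the `par^[a] (u i)` are strictly decreasing for `0 ≤ a ≤ k` (`Ready`: `0 < ℓ (par^[a] (u i))` for `a < k`, `hℓ`), so the `k` points with `1 ≤ a ≤ k` are different
(in the formula `a = b + 1`, `b < k`); for different `i` they are in different cosets (`(par^[a] x)` is in the coset `x L`, induction with `hpar`). So the map `(i, b) ↦ par^[b + 1] (u i)` is injective on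
`Fin m × Fin k` and the image has `m * k` elements (`Finset.card_image_of_injective`).

`windows_finite`: let `v = par^[b + 1] (u i)`. With `g_a = (par^[a] (u i))⁻¹ * par^[a + 1] (u i) ∈ E` (`Ready`, `a < k`): `u i = v * (g_0 * g_1 * ... * g_b)⁻¹`. So `u i` is determined by `b` and the word
`(g_0, ..., g_(k-1)) : Fin k → E` (all `k` letters exist), and `u j = u i * d_j`, `d_j = (u i)⁻¹ * u j ∈ D`. The set of all `u` is contained in the image of the finite type `Fin m × Fin k × (Fin k → E) × (Fin m → D)`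
under the map `(i, b, g, d) ↦ (j ↦ v * (∏ a ≤ b, g a)⁻¹ * d j)` (product in order, e.g. `(List.ofFn g).take (b + 1)).prod`), so it is finite and has at most `m * k * |E| ^ k * |D| ^ m` elements
(`Set.ncard_le_ncard`, `Set.ncard_image_le`, `Fintype.card_fun`).
-/

set_option autoImplicit false

namespace Pool.Agent.Helper65.FP

variable {G : Type*} [Group G]

open Classical in
/-- the window of the family `u` -/
noncomputable def window (par : G → G) (k : ℕ) {m : ℕ} (u : Fin m → G) : Finset G :=
  (Finset.univ : Finset (Fin m × Fin k)).image fun p => par^[(p.2 : ℕ) + 1] (u p.1)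

private theorem mc_lev (par : G → G) (ℓ : G → ℕ)
    (hℓ : ∀ x, 0 < ℓ x → ℓ (par x) < ℓ x) (V : Set G) (E : Finset G) (k : ℕ) (x : G)
    (hx : Ready par ℓ V E k x) (a : ℕ) : ∀ a', a < a' → a' ≤ k → ℓ (par^[a'] x) < ℓ (par^[a] x) := by
  intro a'
  induction a' with
  | zero => intro h; exact absurd h (Nat.not_lt_zero _)
  | succ n ih =>
    intro h1 h2
    have h3 : ℓ (par^[n + 1] x) < ℓ (par^[n] x) := by
      rw [Function.iterate_succ_apply']
      exact hℓ _ (hx n (by omega)).1
    rcases Nat.lt_or_ge a n with h4 | h4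
    · exact h3.trans (ih h4 (by omega))
    · have h5 : a = n := by omega
      rw [h5]
      exact h3

private theorem mc_coset (L : Subgroup G) (par : G → G) (hpar : ∀ x, x⁻¹ * par x ∈ L) (x : G)
    (a : ℕ) : ((par^[a] x : G) : G ⧸ L) = (x : G ⧸ L) := by
  induction a with
  | zero => rfl
  | succ n ih =>
    rw [← ih, Function.iterate_succ_apply']
    exact (QuotientGroup.eq.2 (hpar _)).symm

/-- the product of the first letters -/
private def mcWord {k : ℕ} (g : Fin k → G) : ℕ → G
  | 0 => 1
  | n + 1 => mcWord g n * (if h : n < k then g ⟨n, h⟩ else 1)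

private theorem mc_word (par : G → G) (x : G) {k : ℕ} (g : Fin k → G)
    (hg : ∀ a : Fin k, g a = (par^[(a : ℕ)] x)⁻¹ * par^[(a : ℕ) + 1] x) (n : ℕ) (hn : n ≤ k) :
    mcWord g n = x⁻¹ * par^[n] x := by
  induction n with
  | zero => simp [mcWord]
  | succ n ih =>
    have h1 : n < k := by omega
    rw [mcWord, ih (by omega), dif_pos h1, hg]
    group

theorem window_card (L : Subgroup G) (par : G → G) (ℓ : G → ℕ)
    (hℓ : ∀ x, 0 < ℓ x → ℓ (par x) < ℓ x) (hpar : ∀ x, x⁻¹ * par x ∈ L) (V : Set G)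
    (E : Finset G) (k m : ℕ) (u : Fin m → G) (hu : ∀ i, Ready par ℓ V E k (u i))
    (hd : ∀ i j, i ≠ j → (u i : G ⧸ L) ≠ (u j : G ⧸ L)) : (window par k u).card = k * m := by
  classical
  have hinj : Function.Injective (fun p : Fin m × Fin k => par^[(p.2 : ℕ) + 1] (u p.1)) := by
    rintro ⟨i, b⟩ ⟨j, c⟩ h
    simp only at h
    have hij : i = j := by
      by_contra hne
      apply hd i j hne
      rw [← mc_coset L par hpar (u i) (b + 1), ← mc_coset L par hpar (u j) (c + 1), h]
    subst hij
    have hbc : b = c := by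
      apply Fin.ext
      rcases Nat.lt_trichotomy (b : ℕ) (c : ℕ) with h1 | h1 | h1
      · have h2 := mc_lev par ℓ hℓ V E k (u i) (hu i) (b + 1) (c + 1) (by omega)
          (by have := c.2; omega)
        rw [h] at h2
        exact absurd h2 (lt_irrefl _)
      · exact h1
      · have h2 := mc_lev par ℓ hℓ V E k (u i) (hu i) (c + 1) (b + 1) (by omega)
          (by have := b.2; omega)
        rw [h] at h2
        exact absurd h2 (lt_irrefl _)
    rw [hbc]
  unfold window
  rw [Finset.card_image_of_injective _ hinj, Finset.card_univ, Fintype.card_prod,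
    Fintype.card_fin, Fintype.card_fin, mul_comm]

theorem windows_finite (par : G → G) (ℓ : G → ℕ) (V : Set G) (E D : Finset G) (k m : ℕ) (v : G) :
    {u : Fin m → G | (∀ i, Ready par ℓ V E k (u i)) ∧ (∀ i j, (u i)⁻¹ * u j ∈ D) ∧
      v ∈ window par k u}.Finite ∧
    {u : Fin m → G | (∀ i, Ready par ℓ V E k (u i)) ∧ (∀ i j, (u i)⁻¹ * u j ∈ D) ∧
      v ∈ window par k u}.ncard ≤ m * k * E.card ^ k * D.card ^ m := by
  classical
  set A : Set (Fin m → G) := {u : Fin m → G | (∀ i, Ready par ℓ V E k (u i)) ∧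
    (∀ i j, (u i)⁻¹ * u j ∈ D) ∧ v ∈ window par k u} with hA
  set Φ : Fin m × Fin k × (Fin k → E) × (Fin m → D) → (Fin m → G) := fun t j =>
    v * (mcWord (fun a => ((t.2.2.1 a : E) : G)) ((t.2.1 : ℕ) + 1))⁻¹ * ((t.2.2.2 j : D) : G)
    with hΦ
  have hsub : A ⊆ Φ '' Set.univ := by
    rintro u ⟨h1, h2, h3⟩
    obtain ⟨⟨i, b⟩, -, hv⟩ := Finset.mem_image.1 h3
    simp only at hv
    have hE : ∀ a : Fin k, (par^[(a : ℕ)] (u i))⁻¹ * par^[(a : ℕ) + 1] (u i) ∈ E := by
      intro a
      have := (h1 i a a.2).2.2.2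
      rw [Function.iterate_succ_apply']
      exact this
    refine ⟨(i, b, fun a => ⟨_, hE a⟩, fun j => ⟨_, h2 i j⟩), Set.mem_univ _, ?_⟩
    funext j
    show v * (mcWord (fun a : Fin k => (par^[(a : ℕ)] (u i))⁻¹ * par^[(a : ℕ) + 1] (u i))
      ((b : ℕ) + 1))⁻¹ * ((u i)⁻¹ * u j) = u j
    rw [mc_word par (u i) _ (fun _ => rfl) _ (by have := b.2; omega), hv]
    group
  refine ⟨(Set.finite_univ.image Φ).subset hsub, ?_⟩
  calc A.ncard ≤ (Φ '' Set.univ).ncard := Set.ncard_le_ncard hsub (Set.finite_univ.image Φ)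
    _ ≤ (Set.univ : Set (Fin m × Fin k × (Fin k → E) × (Fin m → D))).ncard :=
      Set.ncard_image_le Set.finite_univ
    _ = m * k * E.card ^ k * D.card ^ m := by
      rw [Set.ncard_univ, Nat.card_eq_fintype_card, Fintype.card_prod, Fintype.card_prod,
        Fintype.card_prod, Fintype.card_fin, Fintype.card_fin, Fintype.card_fun, Fintype.card_fun,
        Fintype.card_coe, Fintype.card_coe, Fintype.card_fin, Fintype.card_fin]
      ring

end Pool.Agent.Helper65.FP
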