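import Mathlib

/-!
FP-08a. The numbers in the local lemma. MATHLIB ONLY.

Proof. `N = 8 * s + 8`, `β = N - 1 / 2 ≥ 8 * s`, so the first term is `≤ 1 / 4`. Let `δ = (N - 1) / β`, `0 < δ < 1`, and `q` with `δ ^ (q + 1) * e ≤ 1 / 2` (`exists_pow_lt_of_lt_one`). For `k ≥ 1` the second term is
`(q + 1) * k * d ^ (q + 1) * β * (e * δ ^ (q + 1)) ^ k ≤ (q + 1) * d ^ (q + 1) * β * (k * (1 / 2) ^ k)`, and `k * (1 / 2) ^ k → 0` (`tendsto_self_mul_const_pow_of_lt_one`), so it is `≤ 1 / 4` for large `k`.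
-/

set_option autoImplicit false

namespace Pool.Agent.Helper65.FP

theorem marks_num (s e : ℕ) : ∃ N q : ℕ, 1 ≤ N ∧ ∀ d : ℕ, ∃ κ : ℕ, 1 ≤ κ ∧ ∀ k, κ ≤ k →
    (2 * s : ℝ) / ((N : ℝ) - 1 / 2) + ((q + 1 : ℝ) * k * (e : ℝ) ^ k * (d : ℝ) ^ (q + 1)) *
      (((N : ℝ) - 1) ^ (k * (q + 1)) / ((N : ℝ) - 1 / 2) ^ (k * (q + 1) - 1)) ≤ 1 / 2 := by
  set β : ℝ := ((8 * s + 8 : ℕ) : ℝ) - 1 / 2 with hβ
  have hs0 : (0 : ℝ) ≤ s := Nat.cast_nonneg s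
  have hβ1 : (7 : ℝ) ≤ β := by rw [hβ]; push_cast; linarith
  have hβ0 : (0 : ℝ) < β := by linarith
  set ν : ℝ := ((8 * s + 8 : ℕ) : ℝ) - 1 with hν
  have hν0 : 0 < ν := by rw [hν]; push_cast; linarith
  have hνβ : ν < β := by rw [hν, hβ]; linarith
  set δ : ℝ := ν / β with hδ
  have hδ0 : 0 < δ := div_pos hν0 hβ0
  have hδ1 : δ < 1 := (div_lt_one hβ0).mpr hνβ
  have he0 : (0 : ℝ) ≤ e := Nat.cast_nonneg e
  obtain ⟨q, hq⟩ := exists_pow_lt_of_lt_one (show (0 : ℝ) < 1 / (2 * (e + 1)) by positivity) hδ1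
  have hq2 : (e : ℝ) * δ ^ (q + 1) ≤ 1 / 2 := by
    have h1 : δ ^ (q + 1) ≤ 1 / (2 * (e + 1)) := by
      refine le_trans ?_ hq.le
      exact pow_le_pow_of_le_one hδ0.le hδ1.le (Nat.le_succ q)
    have h2 : (e : ℝ) * δ ^ (q + 1) ≤ e * (1 / (2 * (e + 1))) := mul_le_mul_of_nonneg_left h1 he0
    have h3 : (e : ℝ) * (1 / (2 * (e + 1))) ≤ 1 / 2 := by
      rw [mul_one_div, div_le_div_iff₀ (by positivity) (by norm_num)]
      nlinarith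
    linarith
  refine ⟨8 * s + 8, q, by omega, fun d => ?_⟩
  set C : ℝ := (q + 1 : ℝ) * (d : ℝ) ^ (q + 1) * β with hC
  have hC0 : 0 ≤ C := by positivity
  have hlim : Filter.Tendsto (fun k : ℕ => C * ((k : ℝ) * (1 / 2 : ℝ) ^ k)) Filter.atTop
      (nhds (C * 0)) :=
    (tendsto_self_mul_const_pow_of_lt_one (by norm_num) (by norm_num)).const_mul C
  rw [mul_zero] at hlim
  have hev := hlim.eventually (gt_mem_nhds (show (0 : ℝ) < 1 / 4 by norm_num))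
  rw [Filter.eventually_atTop] at hev
  obtain ⟨κ, hκ⟩ := hev
  refine ⟨max κ 1, le_max_right _ _, fun k hk => ?_⟩
  have hk1 : 1 ≤ k := le_trans (le_max_right _ _) hk
  have hkκ := hκ k (le_trans (le_max_left _ _) hk)
  have hfirst : (2 * s : ℝ) / β ≤ 1 / 4 := by
    rw [div_le_div_iff₀ hβ0 (by norm_num), hβ]
    push_cast
    linarith
  have hm : 1 ≤ k * (q + 1) := Nat.mul_pos hk1 (Nat.succ_pos q)
  have hpow : ν ^ (k * (q + 1)) / β ^ (k * (q + 1) - 1) = β * (δ ^ (q + 1)) ^ k := by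
    have h1 : β ^ (k * (q + 1)) = β ^ (k * (q + 1) - 1) * β := by
      rw [← pow_succ]
      congr 1
      omega
    have h2 : (δ ^ (q + 1)) ^ k = ν ^ (k * (q + 1)) / β ^ (k * (q + 1)) := by
      rw [← pow_mul, hδ, div_pow]
      congr 2 <;> ring
    rw [h2, h1]
    have h3 : β ^ (k * (q + 1) - 1) ≠ 0 := (pow_pos hβ0 _).ne'
    field_simp
  have hsecond : ((q + 1 : ℝ) * k * (e : ℝ) ^ k * (d : ℝ) ^ (q + 1)) *
      (ν ^ (k * (q + 1)) / β ^ (k * (q + 1) - 1)) ≤ 1 / 4 := by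
    rw [hpow]
    have h1 : ((q + 1 : ℝ) * k * (e : ℝ) ^ k * (d : ℝ) ^ (q + 1)) * (β * (δ ^ (q + 1)) ^ k) =
        C * (k * ((e : ℝ) * δ ^ (q + 1)) ^ k) := by
      rw [hC, mul_pow]
      ring
    rw [h1]
    have h2 : ((e : ℝ) * δ ^ (q + 1)) ^ k ≤ (1 / 2 : ℝ) ^ k :=
      pow_le_pow_left₀ (by positivity) hq2 k
    have h3 : C * (k * ((e : ℝ) * δ ^ (q + 1)) ^ k) ≤ C * (k * (1 / 2 : ℝ) ^ k) :=
      mul_le_mul_of_nonneg_left (mul_le_mul_of_nonneg_left h2 (Nat.cast_nonneg k)) hC0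
    linarith
  have : (2 * s : ℝ) / β + ((q + 1 : ℝ) * k * (e : ℝ) ^ k * (d : ℝ) ^ (q + 1)) *
      (ν ^ (k * (q + 1)) / β ^ (k * (q + 1) - 1)) ≤ 1 / 2 := by linarith
  exact this

end Pool.Agent.Helper65.FP
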