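import Pool.Agent.Helper65.FP.Defs
import Pool.Agent.Helper65.FP.LLL
import Pool.Agent.Helper65.FP.MarksNum
import Pool.Agent.Helper65.FP.MarksCount

/-!
FP-08. Existence of the marks.

`local_lemma` with the variables `V = G`, values in `Fin N` (marked = value `0`) and two kinds of events:
(A) pairs `(x, s)` with `s ∈ S`, `s ≠ 1`: support `{x, x * s}`, both marked;
(B) families `u` in different cosets, ready and close to each other: support = the window, no point marked.
-/

set_option autoImplicit false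

namespace Pool.Agent.Helper65.FP

variable {G : Type*} [Group G]

theorem exists_marks (L : Subgroup G) (par : G → G) (ℓ : G → ℕ)
    (hℓ : ∀ x, 0 < ℓ x → ℓ (par x) < ℓ x) (hpar : ∀ x, x⁻¹ * par x ∈ L) (V : Set G)
    (E S : Finset G) : ∃ q : ℕ, ∀ D : Finset G, ∃ κ : ℕ, ∀ k, κ ≤ k → ∃ M : Set G,
      (∀ x ∈ M, ∀ s ∈ S, x * s ∈ M → s = 1) ∧
      ∀ u : Fin (q + 1) → G, (∀ i, Ready par ℓ V E k (u i)) →
        (∀ i j, i ≠ j → (u i : G ⧸ L) ≠ (u j : G ⧸ L)) → (∀ i j, (u i)⁻¹ * u j ∈ D) →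
        ∃ i, ∃ a, 1 ≤ a ∧ a ≤ k ∧ par^[a] (u i) ∈ M := by
  classical
  obtain ⟨N, q, hN, hnum⟩ := marks_num S.card E.card
  refine ⟨q, fun D => ?_⟩
  obtain ⟨κ, hκ1, hκ⟩ := hnum D.card
  refine ⟨κ, fun k hk => ?_⟩
  have hk1 : 1 ≤ k := hκ1.trans hk
  let PA : G × G → Prop := fun p => p.2 ∈ S ∧ p.2 ≠ 1
  let PB : (Fin (q + 1) → G) → Prop := fun u => (∀ i, Ready par ℓ V E k (u i)) ∧
    (∀ i j, i ≠ j → (u i : G ⧸ L) ≠ (u j : G ⧸ L)) ∧ ∀ i j, (u i)⁻¹ * u j ∈ D
  let sp : {p : G × G // PA p} ⊕ {u : Fin (q + 1) → G // PB u} → Finset G :=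
    Sum.elim (fun p => {p.1.1, p.1.1 * p.1.2}) (fun u => window par k u.1)
  let bad : {p : G × G // PA p} ⊕ {u : Fin (q + 1) → G // PB u} → Finset (Fin N) :=
    Sum.elim (fun _ => Finset.univ.filter fun t => (t : ℕ) = 0)
      (fun _ => Finset.univ.filter fun t => (t : ℕ) ≠ 0)
  let incA : G → Finset {p : G × G // PA p} := fun v =>
    (S.filter (fun s => s ≠ 1)).attach.image (fun s => (⟨(v, s.1), (Finset.mem_filter.1 s.2)⟩ :
      {p : G × G // PA p})) ∪
    (S.filter (fun s => s ≠ 1)).attach.image (fun s => (⟨(v * s.1⁻¹, s.1),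
      (Finset.mem_filter.1 s.2)⟩ : {p : G × G // PA p}))
  let incB : G → Finset {u : Fin (q + 1) → G // PB u} := fun v =>
    ((windows_finite par ℓ V E D k (q + 1) v).1.toFinset).subtype PB
  let inc : G → Finset ({p : G × G // PA p} ⊕ {u : Fin (q + 1) → G // PB u}) := fun v =>
    (incA v).disjSum (incB v)
  have hN' : (1 : ℝ) ≤ N := by exact_mod_cast hN
  have hβ : (0 : ℝ) < (N : ℝ) - 1 / 2 := by linarith
  have hcardA : ∀ v, ((incA v).card : ℝ) ≤ 2 * S.card := by
    intro v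
    have h1 : (incA v).card ≤ S.card + S.card := by
      refine (Finset.card_union_le _ _).trans (Nat.add_le_add ?_ ?_) <;>
      · refine Finset.card_image_le.trans ?_
        rw [Finset.card_attach]
        exact Finset.card_filter_le _ _
    calc ((incA v).card : ℝ) ≤ ((S.card + S.card : ℕ) : ℝ) := by exact_mod_cast h1
      _ = 2 * S.card := by push_cast; ring
  have hcardB : ∀ v, ((incB v).card : ℝ) ≤
      (q + 1) * k * (E.card : ℝ) ^ k * (D.card : ℝ) ^ (q + 1) := by
    intro v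
    have h1 : (incB v).card ≤ (q + 1) * k * E.card ^ k * D.card ^ (q + 1) := by
      refine le_trans ?_ (windows_finite par ℓ V E D k (q + 1) v).2
      rw [Finset.card_subtype]
      refine (Finset.card_filter_le _ _).trans ?_
      rw [← Set.ncard_eq_toFinset_card _ (windows_finite par ℓ V E D k (q + 1) v).1]
    calc ((incB v).card : ℝ) ≤ (((q + 1) * k * E.card ^ k * D.card ^ (q + 1) : ℕ) : ℝ) := by
          exact_mod_cast h1
      _ = _ := by push_cast; ring
  have hbadA : (Finset.univ.filter fun t : Fin N => (t : ℕ) = 0).card = 1 := by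
    rw [Finset.card_eq_one]
    refine ⟨⟨0, hN⟩, ?_⟩
    ext t
    simp only [Finset.mem_filter, Finset.mem_univ, true_and, Finset.mem_singleton]
    exact ⟨fun h => Fin.ext h, fun h => by rw [h]⟩
  have hbadB : ((Finset.univ.filter fun t : Fin N => (t : ℕ) ≠ 0).card : ℝ) = (N : ℝ) - 1 := by
    have h1 := Finset.card_filter_add_card_filter_not (s := (Finset.univ : Finset (Fin N)))
      (fun t : Fin N => (t : ℕ) = 0)
    rw [hbadA, Finset.card_univ, Fintype.card_fin] at h1
    have h2 : ((1 + (Finset.univ.filter fun t : Fin N => ¬ (t : ℕ) = 0).card : ℕ) : ℝ) = N := by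
      exact_mod_cast h1
    push_cast at h2
    linarith
  have hex : ∃ f : G → Fin N, ∀ e, ∃ v ∈ sp e, f v ∉ bad e := by
    refine local_lemma N sp bad ((N : ℝ) - 1 / 2) hβ inc ?_ ?_ ?_
    · -- incidences
      rintro v (⟨⟨x, s⟩, hs, hs1⟩ | ⟨u, hu⟩) hv
      · have h1 : v = x ∨ v = x * s := by simpa [sp] using hv
        refine Finset.inl_mem_disjSum.2 ?_
        have h2 : s ∈ S.filter (fun s => s ≠ 1) := Finset.mem_filter.2 ⟨hs, hs1⟩
        rcases h1 with rfl | rfl
        · exact Finset.mem_union_left _ (Finset.mem_image.2 ⟨⟨s, h2⟩, Finset.mem_attach _ _, rfl⟩)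
        · refine Finset.mem_union_right _ (Finset.mem_image.2 ⟨⟨s, h2⟩, Finset.mem_attach _ _, ?_⟩)
          apply Subtype.ext
          exact Prod.ext (mul_inv_cancel_right x s) rfl
      · refine Finset.inr_mem_disjSum.2 (Finset.mem_subtype.2 ?_)
        rw [Set.Finite.mem_toFinset]
        exact ⟨hu.1, hu.2.2, hv⟩
    · -- nonempty supports
      rintro (p | u)
      · exact ⟨p.1.1, Finset.mem_insert_self _ _⟩
      · have h1 := window_card L par ℓ hℓ hpar V E k (q + 1) u.1 u.2.1 u.2.2.1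
        have h2 : 0 < (window par k u.1).card := by
          rw [h1]
          positivity
        exact Finset.card_pos.1 h2
    · -- the sum
      intro v
      rw [Finset.sum_disjSum]
      have hA : ∑ e ∈ incA v, ((bad (Sum.inl e)).card : ℝ) ^ (sp (Sum.inl e)).card /
          ((N : ℝ) - 1 / 2) ^ ((sp (Sum.inl e)).card - 1) ≤ (2 * S.card : ℝ) / ((N : ℝ) - 1 / 2) := by
        have h1 : ∀ e ∈ incA v, ((bad (Sum.inl e)).card : ℝ) ^ (sp (Sum.inl e)).card /
            ((N : ℝ) - 1 / 2) ^ ((sp (Sum.inl e)).card - 1) = 1 / ((N : ℝ) - 1 / 2) := by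
          intro e _
          have h2 : (bad (Sum.inl e)).card = 1 := hbadA
          have h3 : (sp (Sum.inl e)).card = 2 := by
            refine Finset.card_pair ?_
            intro h4
            apply e.2.2
            have h5 : e.1.1 * 1 = e.1.1 * e.1.2 := by rw [mul_one]; exact h4
            exact (mul_left_cancel h5).symm
          rw [h2, h3]
          norm_num
        rw [Finset.sum_congr rfl h1, Finset.sum_const, nsmul_eq_mul]
        rw [mul_one_div]
        gcongr
        exact hcardA v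
      have hB : ∑ e ∈ incB v, ((bad (Sum.inr e)).card : ℝ) ^ (sp (Sum.inr e)).card /
          ((N : ℝ) - 1 / 2) ^ ((sp (Sum.inr e)).card - 1) ≤
          ((q + 1 : ℝ) * k * (E.card : ℝ) ^ k * (D.card : ℝ) ^ (q + 1)) *
          (((N : ℝ) - 1) ^ (k * (q + 1)) / ((N : ℝ) - 1 / 2) ^ (k * (q + 1) - 1)) := by
        have h1 : ∀ e ∈ incB v, ((bad (Sum.inr e)).card : ℝ) ^ (sp (Sum.inr e)).card /
            ((N : ℝ) - 1 / 2) ^ ((sp (Sum.inr e)).card - 1) =
            ((N : ℝ) - 1) ^ (k * (q + 1)) / ((N : ℝ) - 1 / 2) ^ (k * (q + 1) - 1) := by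
          intro e _
          have h2 : ((bad (Sum.inr e)).card : ℝ) = (N : ℝ) - 1 := hbadB
          have h3 : (sp (Sum.inr e)).card = k * (q + 1) :=
            window_card L par ℓ hℓ hpar V E k (q + 1) e.1 e.2.1 e.2.2.1
          rw [h2, h3]
        rw [Finset.sum_congr rfl h1, Finset.sum_const, nsmul_eq_mul]
        refine mul_le_mul_of_nonneg_right (hcardB v) ?_
        have h2 : (0 : ℝ) ≤ (N : ℝ) - 1 := by linarith
        positivity
      have h3 := hκ k hk
      calc _ ≤ (2 * S.card : ℝ) / ((N : ℝ) - 1 / 2) +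
            ((q + 1 : ℝ) * k * (E.card : ℝ) ^ k * (D.card : ℝ) ^ (q + 1)) *
            (((N : ℝ) - 1) ^ (k * (q + 1)) / ((N : ℝ) - 1 / 2) ^ (k * (q + 1) - 1)) :=
            add_le_add hA hB
        _ ≤ 1 / 2 := h3
        _ = N - ((N : ℝ) - 1 / 2) := by ring
  obtain ⟨f, hf⟩ := hex
  refine ⟨{x | (f x : ℕ) = 0}, ?_, ?_⟩
  · intro x hx s hs hxs
    by_contra hs1
    obtain ⟨v, hv, hvb⟩ := hf (Sum.inl ⟨(x, s), hs, hs1⟩)
    have h1 : v = x ∨ v = x * s := by simpa [sp] using hv
    apply hvb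
    refine Finset.mem_filter.2 ⟨Finset.mem_univ _, ?_⟩
    rcases h1 with rfl | rfl
    · exact hx
    · exact hxs
  · intro u h1 h2 h3
    obtain ⟨v, hv, hvb⟩ := hf (Sum.inr ⟨u, h1, h2, h3⟩)
    obtain ⟨⟨i, b⟩, _, hib⟩ := Finset.mem_image.1 (show v ∈ window par k u from hv)
    refine ⟨i, (b : ℕ) + 1, by omega, b.2, ?_⟩
    have h4 : par^[(b : ℕ) + 1] (u i) = v := hib
    rw [h4]
    by_contra h5
    exact hvb (Finset.mem_filter.2 ⟨Finset.mem_univ _, h5⟩)

end Pool.Agent.Helper65.FP
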