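import Pool.Agent.Helper65.FP.Defs

/-!
FP-02. Existence of the wall (marked and forced points).

Proof. If `Ready .. k x` then `ℓ (par^[i] x) < ℓ x` for `1 ≤ i ≤ k` (`FPar` for `par^[i] x`, `i < k`, gives
`0 < ℓ (par^[i] x)`, so by `hℓ` the level drops at each of the first `k` steps). So membership of
`x` in `W` is defined by recursion on `ℓ x`: `WellFounded.fix` for the relation `ℓ y < ℓ x`
(`measure ℓ`), with the condition `∀ i, 1 ≤ i → i ≤ k → (h : ℓ (par^[i] x) < ℓ x) → ¬ W (par^[i] x)`; because of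
`Ready` the proof `h` always exists. (Or: build sets `W n`, `n : ℕ`, deciding the points of level `< n`.)
-/

set_option autoImplicit false

namespace Pool.Agent.Helper65.FP

variable {G : Type*} [Group G]

private theorem ready_lt {par : G → G} {ℓ : G → ℕ} (hℓ : ∀ x, 0 < ℓ x → ℓ (par x) < ℓ x)
    {V : Set G} {E : Finset G} {k : ℕ} {x : G} (h : Ready par ℓ V E k x) :
    ∀ i, i + 1 ≤ k → ℓ (par^[i + 1] x) < ℓ x := by
  intro i
  induction i with
  | zero =>
    intro hi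
    exact hℓ x (h 0 (by omega)).1
  | succ i ih =>
    intro hi
    have h1 := ih (by omega)
    have h2 := hℓ _ (h (i + 1) (by omega)).1
    rw [Function.iterate_succ_apply' par (i + 1) x]
    exact h2.trans h1

theorem exists_wall (par : G → G) (ℓ : G → ℕ) (hℓ : ∀ x, 0 < ℓ x → ℓ (par x) < ℓ x) (V : Set G)
    (E : Finset G) (k : ℕ) (M : Set G) : ∃ W : Set G, Wall par ℓ V E k M W := by
  have wf : WellFounded fun y x : G => ℓ y < ℓ x := InvImage.wf ℓ Nat.lt_wfRel.wf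
  let step : ∀ x : G, (∀ y : G, ℓ y < ℓ x → Prop) → Prop := fun x ih =>
    x ∈ V ∧ (x ∈ M ∨ (Ready par ℓ V E k x ∧
      ∀ i, 1 ≤ i → i ≤ k → ∀ h : ℓ (par^[i] x) < ℓ x, ¬ ih (par^[i] x) h))
  refine ⟨{x | wf.fix step x}, fun x => ?_⟩
  have h1 : wf.fix step x = step x fun y _ => wf.fix step y := wf.fix_eq step x
  change wf.fix step x ↔ _
  rw [h1]
  constructor
  · rintro ⟨hV, hM | ⟨hR, hW⟩⟩
    · exact ⟨hV, Or.inl hM⟩
    · refine ⟨hV, Or.inr ⟨hR, fun i hi hik => ?_⟩⟩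
      obtain ⟨j, rfl⟩ : ∃ j, i = j + 1 := ⟨i - 1, by omega⟩
      exact hW (j + 1) hi hik (ready_lt hℓ hR j hik)
  · rintro ⟨hV, hM | ⟨hR, hW⟩⟩
    · exact ⟨hV, Or.inl hM⟩
    · exact ⟨hV, Or.inr ⟨hR, fun i hi hik _ => hW i hi hik⟩⟩

end Pool.Agent.Helper65.FP
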