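import Pool.Agent.Helper65.FP.Confine
import Pool.Agent.Helper65.FP.Few
import Pool.Agent.Helper65.FP.Marks
import Pool.Agent.Helper65.FP.Wall

/-!
FP-07. The wall is bounded at the scale `S` and cuts the forest into pieces of bounded depth.
-/

set_option autoImplicit false

namespace Pool.Agent.Helper65.FP

open Pool.Agent.Helper65.TH Pool.Agent.Helper65.GN

variable {G : Type*} [Group G]

theorem wall_bdd {M W : Set G} (S P D : Finset G) (hSP : S ⊆ P) (hSSP : ∀ s ∈ S, ∀ s' ∈ S, s * s' ∈ P)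
    (hM : ∀ x ∈ M, ∀ s ∈ S, x * s ∈ M → s = 1)
    (h : Bdd (P : Set G) {x | x ∈ W ∧ x ∉ M} D) : Bdd (S : Set G) W (suE S {1} D) := by
  classical
  have h0 : Bdd (S : Set G) {x | x ∈ W ∧ x ∈ M} {1} := by
    intro x hx y hxy
    have : y = x := by
      refine (hxy.rec' (R := fun z => z = x) rfl ?_)
      intro a b _ ha hs hb
      have h1 := hM a (by rw [ha]; exact hx.2) _ hs (by rw [mul_inv_cancel_left]; exact hb.2)
      rw [← ha]
      have h2 : b = a * (a⁻¹ * b) := by group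
      rw [h2, h1, mul_one]
    rw [this, inv_mul_cancel]
    exact Finset.mem_singleton_self 1
  refine (bdd_union ⊤ S (fun s _ => Subgroup.mem_top s) {x | x ∈ W ∧ x ∈ M} {x | x ∈ W ∧ x ∉ M}
    {1} P D h0 h hSP ?_).mono (fun _ hs => hs) ?_ (fun _ he => he)
  · intro f hf e he _ f' hf'
    rw [Finset.mem_singleton] at he
    rw [he, mul_one]
    exact hSSP f hf f' hf'
  · intro x hx
    by_cases hxM : x ∈ M
    · exact Or.inl ⟨hx, hxM⟩
    · exact Or.inr ⟨hx, hxM⟩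

/-- the wall theorem -/
theorem exists_wall_bdd (L : Subgroup G) (par : G → G) (ℓ : G → ℕ)
    (hℓ : ∀ x, 0 < ℓ x → ℓ (par x) < ℓ x) (hpar : ∀ x, x⁻¹ * par x ∈ L)
    (hnear : ∀ g ∈ L, ∃ lam : ℕ, ∀ x, ∃ i ≤ lam, ∃ j ≤ lam, par^[i] x = par^[j] (x * g))
    (V : Set G) (E S : Finset G) :
    ∃ (W : Set G) (D : Finset G) (k : ℕ), W ⊆ V ∧ Bdd (S : Set G) W D ∧
      ∀ x ∈ V, x ∉ W → Ready par ℓ V E k x → ∃ i, 1 ≤ i ∧ i ≤ k ∧ par^[i] x ∈ W := by
  classical
  obtain ⟨q, hq⟩ := exists_marks L par ℓ hℓ hpar V E S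
  let P : Finset G := S ∪ Finset.image₂ (fun a b => a * b) S S
  obtain ⟨D, κ₁, hD⟩ := confine L par ℓ V E P hnear q
  obtain ⟨κ₂, hκ₂⟩ := hq (diffs D P)
  obtain ⟨M, hM1, hM2⟩ := hκ₂ (max (max κ₁ κ₂) 1) ((le_max_right _ _).trans (le_max_left _ _))
  set k := max (max κ₁ κ₂) 1 with hk
  have hk1 : 1 ≤ k := le_max_right _ _
  have hkκ : κ₁ ≤ k := (le_max_left _ _).trans (le_max_left _ _)
  obtain ⟨W, hW⟩ := exists_wall par ℓ hℓ V E k M
  have hX : Bdd (P : Set G) {x | x ∈ W ∧ x ∉ M} D := by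
    refine bdd_of_few L _ P D q (fun Q hQ => hD k M W hk1 hkκ hW Q hQ) ?_
    intro u hu hdist hclose
    have hready : ∀ i, Ready par ℓ V E k (u i) ∧ ∀ a, 1 ≤ a → a ≤ k → par^[a] (u i) ∉ W := by
      intro i
      obtain ⟨h1, h2⟩ := hu i
      obtain ⟨h3, h4⟩ := (hW _).1 h1
      rcases h4 with h4 | h4
      · exact absurd h4 h2
      · exact h4
    obtain ⟨i, a, ha1, hak, haM⟩ := hM2 u (fun i => (hready i).1) hdist hclose
    refine (hready i).2 a ha1 hak ((hW _).2 ⟨?_, Or.inl haM⟩)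
    have h5 := (hready i).1 (a - 1) (by omega)
    have h6 : par^[a] (u i) = par (par^[a - 1] (u i)) := by
      rw [← Function.iterate_succ_apply' par (a - 1) (u i)]
      congr 2
      omega
    rw [h6]
    exact h5.2.2.1
  refine ⟨W, suE S {1} D, k, fun x hx => ((hW x).1 hx).1,
    wall_bdd S P D Finset.subset_union_left
      (fun s hs s' hs' => Finset.mem_union_right _ (Finset.mem_image₂_of_mem hs hs')) hM1 hX, ?_⟩
  intro x hx hxW hr
  by_contra hcon
  push Not at hcon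
  exact hxW ((hW x).2 ⟨hx, Or.inr ⟨hr, hcon⟩⟩)

end Pool.Agent.Helper65.FP
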