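import Pool.Agent.Helper65.FP.Cells
import Pool.Agent.Helper65.FP.NearTree
import Pool.Agent.Helper65.FP.TreeEx
import Pool.Agent.Helper65.FP.Syll
import Pool.Agent.Helper65.FP.Thicken
import Pool.Agent.Helper65.FP.WallBdd

/-!
FP-16. Main theorem: free products.
-/

set_option autoImplicit false

namespace Pool.Agent.Helper65.FP

open Pool.Agent.Helper65.TH Pool.Agent.Helper65.GN

variable {G : Type*} [Group G]

open Classical in
/-- products of at most `k` elements -/
noncomputable def words (E : Finset G) : ℕ → Finset G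
  | 0 => {1}
  | (k + 1) => insert 1 (Finset.image₂ (fun a b => a * b) E (words E k))

theorem one_mem_words (E : Finset G) (k : ℕ) : (1 : G) ∈ words E k := by
  classical
  cases k with
  | zero =>
    rw [words]
    exact Finset.mem_singleton_self 1
  | succ k =>
    rw [words]
    exact Finset.mem_insert_self _ _

theorem iterate_mem_words {par : G → G} {ℓ : G → ℕ} {V : Set G} {E : Finset G} (k : ℕ) :
    ∀ (i : ℕ) (x : G), i ≤ k → (∀ a < i, FPar par ℓ V E (par^[a] x)) →
      x⁻¹ * par^[i] x ∈ words E k := by
  classical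
  induction k with
  | zero =>
    intro i x hi _
    have : i = 0 := by omega
    rw [this, Function.iterate_zero, id, inv_mul_cancel]
    exact one_mem_words _ _
  | succ k ih =>
    intro i x hi h
    rcases i with _ | i
    · rw [Function.iterate_zero, id, inv_mul_cancel]
      exact one_mem_words _ _
    · have h1 := ih i (par x) (by omega) (fun a ha => by
        have := h (a + 1) (by omega)
        rwa [Function.iterate_succ_apply] at this)
      have h2 := (h 0 (by omega)).2.2.2
      rw [Function.iterate_zero, id] at h2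
      rw [Function.iterate_succ_apply]
      rw [words]
      refine Finset.mem_insert_of_mem (Finset.mem_image₂.2 ⟨_, h2, _, h1, ?_⟩)
      group

open Classical in
theorem sep_free (K : Subgroup G) {ι : Type*} [Fintype ι] (A : ι → Subgroup G)
    (hA : ∀ i, A i ≤ K)
    (hinj : Function.Injective (Monoid.CoprodI.lift fun i => (A i).subtype)) (n : ι → ℕ)
    (h : ∀ i, Sep K (A i) (n i)) : Sep K (⨆ i, A i) (∑ i, n i + 1) := by
  intro T S hT hS
  obtain ⟨T', B, hT'A, hT'inv, h1B, hBA, hB⟩ := exists_syllables A T hT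
  have hAK : ⨆ i, A i ≤ K := iSup_le hA
  refine thicken K _ T S hS {s | ∃ i, s ∈ T' i} B h1B (fun b hb => hAK (hBA b hb)) hB ?_
  intro S' hS'
  obtain ⟨Tr⟩ := exists_gtree A hinj
  choose w E hw h0 h1 using fun i => h i (T' i) S' (hT'A i) hS'
  set V : Set G := {x | ∀ i, w i x = 0} with hV
  set E' : Finset G := insert 1 (Finset.univ.biUnion E) with hE'
  obtain ⟨W, D, k, hWV, hWD, hk⟩ := exists_wall_bdd (⨆ i, A i) Tr.par Tr.ℓ Tr.par_level
    Tr.par_mem_iSup Tr.near V E' S'
  let e := Fintype.equivFin (Σ i, Fin (n i))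
  have hcard : Fintype.card (Σ i, Fin (n i)) = ∑ i, n i := by simp
  have hex : ∀ x, x ∉ V → ∃ i, w i x ≠ 0 := by
    intro x hx
    by_contra hcon
    push Not at hcon
    exact hx hcon
  choose c hc using hex
  let code : G → ℕ := fun x => if hx : x ∉ V then
    (e ⟨c x hx, ⟨w (c x hx) x - 1, by have := hw (c x hx) x; have := hc x hx; omega⟩⟩ : ℕ) + 1
    else 0
  let v : G → ℕ := fun x => if x ∈ W then ∑ i, n i + 1 else code x
  have hcode : ∀ x (hx : x ∉ V), code x = (e ⟨c x hx, ⟨w (c x hx) x - 1, by
      have := hw (c x hx) x; have := hc x hx; omega⟩⟩ : ℕ) + 1 := fun x hx => dif_pos hx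
  have hcode_le : ∀ x, code x ≤ ∑ i, n i := by
    intro x
    by_cases hx : x ∉ V
    · rw [hcode x hx, ← hcard]
      exact (e _).2
    · have : code x = 0 := dif_neg hx
      omega
  refine ⟨v, D ∪ E' ∪ Finset.image₂ (fun a b => a * b) (Finset.image₂ (fun a b => a * b)
    (words E' k) E') ((words E' k).image (fun a => a⁻¹)), ?_, ?_, ?_⟩
  · intro x
    change (if x ∈ W then ∑ i, n i + 1 else code x) ≤ _
    have := hcode_le x
    split_ifs <;> omega
  · -- level zero
    have hz : ∀ x, v x = 0 → x ∈ V ∧ x ∉ W := by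
      intro x hx
      change (if x ∈ W then ∑ i, n i + 1 else code x) = 0 at hx
      split_ifs at hx with hxW
      by_cases hxV : x ∉ V
      · rw [hcode x hxV] at hx
        omega
      · exact ⟨not_not.1 hxV, hxW⟩
    intro x hx y hxy
    have hEb : ∀ i, Bdd (T' i : Set G) V (E i) := fun i =>
      (h0 i).mono (fun _ hs => hs) (fun z hz' => hz' i) (fun _ he => he)
    obtain ⟨i, j, hi1, hi2, hj1, hj2, hij⟩ := cells Tr T' hT'A hT'inv {x | v x = 0} V
      (fun z hz' => (hz z hz').1) E hEb E' (Finset.mem_insert_self _ _)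
      (fun i => (Finset.subset_biUnion_of_mem E (Finset.mem_univ i)).trans
        (Finset.subset_insert _ _)) hx hxy
    have hlt : ∀ (z : G) (i : ℕ), z ∈ V → z ∉ W → (∀ a ≤ i, Tr.par^[a] z ∈ {x | v x = 0}) →
        (∀ a < i, FPar Tr.par Tr.ℓ V E' (Tr.par^[a] z)) → i ≤ k := by
      intro z i hzV hzW ha1 ha2
      by_contra hcon
      obtain ⟨a, ha, hak, haW⟩ := hk z hzV hzW (fun b hb => ha2 b (by omega))
      exact (hz _ (ha1 a (by omega))).2 haW
    have hyU : v y = 0 := by
      have := hj1 0 (Nat.zero_le _)
      rwa [Function.iterate_zero, id] at this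
    have h2 := iterate_mem_words k i x (hlt x i (hz x hx).1 (hz x hx).2 hi1 hi2) hi2
    have h3 := iterate_mem_words k j y (hlt y j (hz y hyU).1 (hz y hyU).2 hj1 hj2) hj2
    refine Finset.mem_union_right _ (Finset.mem_image₂.2 ⟨_, Finset.mem_image₂.2 ⟨_, h2, _, hij, rfl⟩,
      _, Finset.mem_image_of_mem _ h3, ?_⟩)
    group
  · intro l hl x hx y hxy
    have hx' : v x = l := hx
    by_cases hl2 : l = ∑ i, n i + 1
    · -- the wall
      have hvW : ∀ z, v z = l → z ∈ W := by
        intro z hz
        by_contra hcon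
        have h2 : v z = code z := if_neg hcon
        have := hcode_le z
        omega
      exact Finset.mem_union_left _ (Finset.mem_union_left _ (hWD x (hvW x hx) y
        (hxy.mono (fun _ hs => hs) fun z hz => hvW z hz)))
    · -- a level set of `w i`
      have hvW : ∀ z, v z = l → z ∉ W := by
        intro z hz hzW
        have h2 : v z = ∑ i, n i + 1 := if_pos hzW
        omega
      have hvc : ∀ z, v z = l → code z = l := by
        intro z hz
        have h2 : v z = code z := if_neg (hvW z hz)
        omega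
      have hvV : ∀ z, v z = l → z ∉ V := by
        intro z hz hzV
        have h2 := hvc z hz
        have h3 : code z = 0 := dif_neg (not_not.2 hzV)
        omega
      set cx := c x (hvV x hx') with hcx
      have heq : ∀ z, v z = l → w cx z = w cx x := by
        intro z hz
        have h2 := hvc z hz
        have h3 := hvc x hx'
        rw [hcode z (hvV z hz)] at h2
        rw [hcode x (hvV x hx')] at h3
        obtain ⟨i, hi⟩ : ∃ i, i = c z (hvV z hz) := ⟨_, rfl⟩
        have h8 := hc z (hvV z hz)
        have h9 := hc x (hvV x hx')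
        have h4 := e.injective (Fin.ext (by omega : (e ⟨c z (hvV z hz), ⟨w (c z (hvV z hz)) z - 1, by
          have := hw (c z (hvV z hz)) z; omega⟩⟩ : ℕ) = (e ⟨c x (hvV x hx'),
          ⟨w (c x (hvV x hx')) x - 1, by have := hw (c x (hvV x hx')) x; omega⟩⟩ : ℕ)))
        have h6 : c z (hvV z hz) = cx := congrArg Sigma.fst h4
        have h7 : ∀ p q : (Σ i, Fin (n i)), p = q → (p.2 : ℕ) = (q.2 : ℕ) := by
          rintro p q rfl
          rfl
        have h11 := h7 _ _ h4
        dsimp only at h11
        rw [h6] at h8 h11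
        rw [← hcx] at h9 h11
        omega
      have h10 := h1 cx (w cx x) (Nat.one_le_iff_ne_zero.2 (hc x (hvV x hx'))) x rfl y (hxy.mono (fun _ hs => hs) fun z hz => heq z hz)
      exact Finset.mem_union_left _ (Finset.mem_union_right _ (Finset.mem_insert_of_mem
        (Finset.mem_biUnion.2 ⟨cx, Finset.mem_univ _, h10⟩)))

end Pool.Agent.Helper65.FP
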