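import Pool.Agent.Helper65.FP.Defs

/-!
FP-03. Two forced points with a common ancestor have the same distance to it.

Let `W` be a wall, a point is forced if it lies in `W` and not in `M`. So a forced point `x` satisfies
`x ∈ V`, `Ready k x` and `par^[i] x ∉ W` for `1 ≤ i ≤ k`.
(*) If `y` is forced and `FPar (par^[k] y)` then `par^[k + 1] y ∈ W`. Proof: `y' = par y` is in `V` (`FPar y`) and not
in `W` (`1 ≤ k`). `Ready k y'` holds: `FPar (par^[i] y') = FPar (par^[i + 1] y)` for `i < k`: for `i + 1 < k`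
by `Ready k y`, for `i + 1 = k` by assumption. As `y' ∉ W` the definition of `W` gives `1 ≤ i ≤ k` with
`par^[i] y' = par^[i + 1] y ∈ W`. As `y` is forced `i + 1 > k`, so `i = k`.
Theorem: suppose `i < j` (the other case is symmetric). `par^[k] y = par^[k - j] (par^[j] y) =
par^[k - j] (par^[i] x) = par^[k - j + i] x` and `k - j + i < k`, so `FPar (par^[k] y)` by `Ready k x`. By (*)
`par^[k + 1] y ∈ W`. But `par^[k + 1] y = par^[k + 1 - j + i] x` with `1 ≤ k + 1 - j + i ≤ k`, and this is not in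
`W` as `x` is forced. (`Function.iterate_add_apply`.)
-/

set_option autoImplicit false

namespace Pool.Agent.Helper65.FP

variable {G : Type*} [Group G]

private theorem star {par : G → G} {ℓ : G → ℕ} {V : Set G} {E : Finset G} {k : ℕ} (hk : 1 ≤ k)
    {M W : Set G} (hW : Wall par ℓ V E k M W) {y : G} (hy : y ∈ W) (hyM : y ∉ M)
    (hF : FPar par ℓ V E (par^[k] y)) : par^[k + 1] y ∈ W := by
  obtain ⟨_, hc⟩ := (hW y).1 hy
  obtain ⟨hR, hnot⟩ := hc.resolve_left hyM
  have h1 : par y ∉ W := hnot 1 le_rfl hk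
  have h2 : par y ∈ V := (hR 0 (by omega)).2.2.1
  have h3 : Ready par ℓ V E k (par y) := by
    intro i hi
    rw [← Function.iterate_succ_apply]
    change FPar par ℓ V E (par^[i + 1] y)
    rcases Nat.lt_or_ge (i + 1) k with h | h
    · exact hR (i + 1) h
    · have : i + 1 = k := by omega
      rw [this]
      exact hF
  have h4 : ¬ (∀ i, 1 ≤ i → i ≤ k → par^[i] (par y) ∉ W) := by
    intro h
    exact h1 ((hW (par y)).2 ⟨h2, Or.inr ⟨h3, h⟩⟩)
  push Not at h4
  obtain ⟨i, hi1, hi2, hi3⟩ := h4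
  rw [← Function.iterate_succ_apply] at hi3
  rcases Nat.lt_or_ge (i + 1) (k + 1) with h | h
  · exact absurd hi3 (hnot (i + 1) (by omega) (by omega))
  · have : i = k := by omega
    rwa [this] at hi3

private theorem lt_false {par : G → G} {ℓ : G → ℕ} {V : Set G} {E : Finset G} {k : ℕ} (hk : 1 ≤ k)
    {M W : Set G} (hW : Wall par ℓ V E k M W) {x y : G} (hx : x ∈ W) (hxM : x ∉ M) (hy : y ∈ W)
    (hyM : y ∉ M) {i j : ℕ} (hj : j ≤ k) (h : par^[i] x = par^[j] y) (hij : i < j) : False := by
  obtain ⟨_, hcx⟩ := (hW x).1 hx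
  obtain ⟨hRx, hnx⟩ := hcx.resolve_left hxM
  have e1 : par^[k] y = par^[k - j + i] x := by
    have : k = (k - j) + j := by omega
    rw [this, Function.iterate_add_apply, ← h, ← Function.iterate_add_apply]
    congr 1
    omega
  have e2 : par^[k + 1] y = par^[k + 1 - j + i] x := by
    have : k + 1 = (k + 1 - j) + j := by omega
    rw [this, Function.iterate_add_apply, ← h, ← Function.iterate_add_apply]
    congr 1
    omega
  have h1 : FPar par ℓ V E (par^[k] y) := by
    rw [e1]
    exact hRx _ (by omega)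
  have h2 := star hk hW hy hyM h1
  rw [e2] at h2
  exact hnx _ (by omega) (by omega) h2

theorem level_eq {par : G → G} {ℓ : G → ℕ} {V : Set G} {E : Finset G} {k : ℕ} (hk : 1 ≤ k)
    {M W : Set G} (hW : Wall par ℓ V E k M W) {x y : G} (hx : x ∈ W) (hxM : x ∉ M) (hy : y ∈ W)
    (hyM : y ∉ M) {i j : ℕ} (hi : i ≤ k) (hj : j ≤ k) (h : par^[i] x = par^[j] y) : i = j := by
  rcases lt_trichotomy i j with h1 | h1 | h1
  · exact (lt_false hk hW hx hxM hy hyM hj h h1).elim
  · exact h1
  · exact (lt_false hk hW hy hyM hx hxM hi h.symm h1).elim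

end Pool.Agent.Helper65.FP
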