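import Pool.Agent.Helper65.FP.Vir
import Pool.Agent.Helper65.GN.Reach

/-!
FP-34. Ascending normal series with cut factors.
-/

set_option autoImplicit false

namespace Pool.Agent.Helper65.FP

open Pool.Agent.Helper65.TH Pool.Agent.Helper65.GN
open Pool.Agent.Helper75.Apc (LocallyPolynomialGrowth)

/-- `Reach2 N`: the normal subgroup `N` is reached from the trivial subgroup by an ascending series of
normal subgroups of `G` (possibly transfinite) with factors satisfying `Nice2`. -/
inductive Reach2 {G : Type*} [Group G] : Subgroup G → Prop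
  | bot : Reach2 ⊥
  | step (N K : Subgroup G) [N.Normal] [K.Normal] (hN : Reach2 N) (hle : N ≤ K)
      (h : Nice2 (K.map (QuotientGroup.mk' N))) : Reach2 K
  | union (S : Set (Subgroup G)) (hne : S.Nonempty) (hdir : DirectedOn (· ≤ ·) S)
      (h : ∀ K ∈ S, Reach2 K) : Reach2 (sSup S)

variable {G : Type*} [Group G]

theorem Nice2.sep {K : Subgroup G} (hK : Nice2 K) (hn : K.Normal) (T : Finset G)
    (hT : ∀ s ∈ T, s ∈ K) : ∃ n : ℕ, Sep ⊤ (Subgroup.closure (T : Set G)) n := by
  obtain ⟨n, L, hTL, hLK, hcut⟩ := hK T hT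
  have h1 := (Cut.comm n K ⊤ L hcut hLK le_top (commensurated_of_normal
    (fun g _ k hk => hn.conj_mem k hk g))).sep
  refine ⟨n, h1.mono le_rfl ?_⟩
  rw [Subgroup.closure_le]
  exact fun s hs => hTL s hs

theorem Reach2.good {N : Subgroup G} (h : Reach2 N) (T : Finset G) (hT : ∀ s ∈ T, s ∈ N) :
    Good T := by
  classical
  induction h generalizing T with
  | bot => exact Reach.bot.good T hT
  | step N K hN hle h ih =>
    have hnor : (K.map (QuotientGroup.mk' N)).Normal :=
      Subgroup.Normal.map inferInstance _ (QuotientGroup.mk'_surjective N)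
    have hT' : ∀ s ∈ T.image (QuotientGroup.mk' N), s ∈ K.map (QuotientGroup.mk' N) := by
      intro s hs
      rw [Finset.mem_image] at hs
      obtain ⟨x, hx, rfl⟩ := hs
      exact Subgroup.mem_map_of_mem _ (hT x hx)
    obtain ⟨n, hsep⟩ := h.sep hnor (T.image (QuotientGroup.mk' N)) hT'
    refine good_ext (QuotientGroup.mk' N) T (good_of_sep hsep _ fun s hs =>
      Subgroup.subset_closure hs) ?_
    intro T' hT''
    apply ih
    intro s hs
    have h1 := hT'' s hs
    rwa [QuotientGroup.mk'_apply, QuotientGroup.eq_one_iff] at h1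
  | union S hne hdir h ih =>
    obtain ⟨K, hK, hTK⟩ := exists_mem_of_directed S hne hdir T hT
    exact ih K hK T hTK

theorem cut_of_ascendant {H K : Subgroup G} (h : Ascendant H K) {t : ℕ} (ht : Cut t H H) :
    Cut t K H := by
  induction h with
  | refl => exact ht
  | normal K K' hK hle hn ih =>
    exact Cut.comm _ _ _ _ ih hK.le hle (commensurated_of_normal hn)
  | union S hne hdir _ ih => exact Cut.union _ _ S hne hdir ih

theorem nice2_of_nice {K : Subgroup G} (hK : Nice K) : Nice2 K := by
  classical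
  intro T hT
  obtain ⟨H, hTH, hA, hH⟩ := hK T hT
  rcases hH with ⟨t, ht⟩ | hp
  · exact ⟨t, H, hTH, hA.le, cut_of_ascendant hA (Cut.asdim _ _ ht)⟩
  · open Pointwise in
    set T₁ : Finset G := T ∪ T⁻¹ ∪ {1} with hT₁
    obtain ⟨h1, h2, h3⟩ := basep_sym T
    have hT₁H : ∀ t ∈ T₁, t ∈ H := by
      intro t ht
      rw [hT₁] at ht
      simp only [Finset.mem_union, Finset.mem_inv', Finset.mem_singleton] at ht
      rcases ht with (ht | ht) | ht
      · exact hTH t ht
      · simpa using H.inv_mem (hTH _ ht)
      · rw [ht]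
        exact H.one_mem
    obtain ⟨C, d, hCd⟩ := basep_growth H hp T₁ hT₁H
    have hle : Subgroup.closure (T₁ : Set G) ≤ H := by
      rw [Subgroup.closure_le]
      exact hT₁H
    refine ⟨d, Subgroup.closure (T₁ : Set G), fun s hs => Subgroup.subset_closure (h3 hs),
      hle.trans hA.le, ?_⟩
    refine Cut.mono _ _ _ _ _ _ (Cut.growth T₁ C d h1 h2 fun k => ?_) le_rfl le_top le_rfl
    rw [← Finset.coe_pow, Set.ncard_coe_finset]
    exact hCd k

theorem reach2_of_reach {N : Subgroup G} (h : Reach N) : Reach2 N := by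
  induction h with
  | bot => exact Reach2.bot
  | step N K hN hle h ih => exact Reach2.step N K ih hle (nice2_of_nice h)
  | union S hne hdir h ih => exact Reach2.union S hne hdir ih

end Pool.Agent.Helper65.FP
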