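import Pool.Agent.Helper65.FP.CDefs

/-!
FP-24. Level sets seen from a coset of another colour, commensurated case (compare `GN/Xset.lean`).

`xx_pos`: let `z_0, z_1, ...` be a chain with steps in `F' ⊆ K` in `XX`, witnesses `b_i ∈ B`, `z_(i+1) = z_i * f`. `κ (z_i * b_i) = k₁ = κ (z_i * f * b_(i+1))`, so by `hκB`
`b_i⁻¹ * f * b_(i+1) ∈ K`, and it is in `S'`. So the `z_i * b_i` form a chain in `{v = c}` with steps in `S'`. End as in `xx_bdd_pos`.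

`xx_zero`: finite sets: for `b ∈ B` choose a finite `Φ b ⊆ L` such that for every `l ∈ L` there is `f ∈ Φ b` with `b⁻¹ * (l * f) * b ∈ K` (by `hc` for `g = b` there is a finite `F ⊆ K` with
`b⁻¹ * (l * f) * b ∈ K`; to get elements of `L`: the set of those `f ∈ F` for which there is `l ∈ L` with `b⁻¹ * (l * f) * b ∈ K`; choose such an `l_f` and replace `f` by `l_f⁻¹`:
if `b⁻¹ * (l * f) * b ∈ K` then `b⁻¹ * (l * l_f⁻¹) * b = (b⁻¹ * (l * f) * b) * (b⁻¹ * (l_f * f) * b)⁻¹ ∈ K`). Let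
`Tb b = {b⁻¹ * (f⁻¹ * t * f') * b | f, f' ∈ Φ b, t ∈ T'}` restricted to the elements `s ∈ K` with `b * s * b⁻¹ ∈ L`, i.e. filtered by membership in `cj K L b`;
`C = {b⁻¹ * f⁻¹ * b' | b, b' ∈ B, f ∈ Φ b} ∩ K`, `Y = {f * b | b ∈ B, f ∈ Φ b}`.
Let `z_0, z_1, ...` be a chain with steps in `T' ⊆ L` in `XX ... v 0`, witnesses `b_i`. As in `xx_pos`: `(z_i * b_i)⁻¹ * (z_(i+1) * b_(i+1)) ∈ K`, so `(z_0 * b_0)⁻¹ * (z_i * b_i) ∈ K` for all `i`. Put `l_i = z_0⁻¹ * z_i ∈ L` and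
choose `f_i ∈ Φ b_0` with `b_0⁻¹ * (l_i * f_i) * b_0 ∈ K`; `y_i = z_i * f_i * b_0`. Then `(z_0 * b_0)⁻¹ * y_i = b_0⁻¹ * (l_i * f_i) * b_0 ∈ K`, so `y_i⁻¹ * (z_i * b_i) = b_0⁻¹ * f_i⁻¹ * b_i ∈ K`, hence in `C`, and
`v (y_i * (b_0⁻¹ * f_i⁻¹ * b_i)) = v (z_i * b_i) = 0`. Steps: `y_i⁻¹ * y_(i+1) = b_0⁻¹ * (f_i⁻¹ * t * f_(i+1)) * b_0 ∈ K` (difference of two elements of `z_0 * b_0 * K`) and `b_0 * .. * b_0⁻¹ = f_i⁻¹ * t * f_(i+1) ∈ L`: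
a step in `Tb b_0`. So `y_0⁻¹ * y_N ∈ E` and `z_0⁻¹ * z_N = (f_0 * b_0) * (y_0⁻¹ * y_N) * (f_N * b_0)⁻¹ ∈ conjE Y E`.
(Invariant for `Chain.rec'`, fixed `b_0`, `f_0`: for `z` in the chain: `z_0⁻¹ * z ∈ L`, and there is `b ∈ B` with `κ (z * b) = k₁`, `v (z * b) = 0`, `(z_0 * b_0)⁻¹ * (z * b) ∈ K`, and `f ∈ Φ b_0` with
`b_0⁻¹ * (z_0⁻¹ * z * f) * b_0 ∈ K` and a chain from `y_0` to `z * f * b_0` in the set.)
-/

set_option autoImplicit false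

namespace Pool.Agent.Helper65.FP

open Pool.Agent.Helper65.TH Pool.Agent.Helper65.GN

variable {G : Type*} [Group G]

theorem xx_pos (K : Subgroup G) (B : Finset G) {m : ℕ} (κ : G → Fin m)
    (hκB : ∀ x, ∀ b ∈ B, ∀ k ∈ K, ∀ b' ∈ B, κ (x * b) = κ (x * k * b') → b⁻¹ * k * b' ∈ K)
    (k k₁ : Fin m) (v : G → ℕ) (c : ℕ) (F' S' E : Finset G) (hF' : ∀ f ∈ F', f ∈ K)
    (hS' : ∀ b ∈ B, ∀ f ∈ F', ∀ b' ∈ B, b⁻¹ * f * b' ∈ K → b⁻¹ * f * b' ∈ S')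
    (h : Bdd (S' : Set G) {x | v x = c} E) :
    Bdd (F' : Set G) (XX B κ k k₁ v c) (conjE B E) := by
  intro x hx y hxy
  obtain ⟨_, b₀, hb₀, hκ₀, hv₀⟩ := hx
  have key : ∃ b ∈ B, κ (y * b) = k₁ ∧ v (y * b) = c ∧
      Chain (S' : Set G) (fun g => g ∈ {x | v x = c}) (x * b₀) (y * b) := by
    refine hxy.rec' (R := fun z => ∃ b ∈ B, κ (z * b) = k₁ ∧ v (z * b) = c ∧
      Chain (S' : Set G) (fun g => g ∈ {x | v x = c}) (x * b₀) (z * b))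
      ⟨b₀, hb₀, hκ₀, hv₀, Chain.refl _ _ _⟩ ?_
    rintro a z _ ⟨b, hb, hκb, hvb, hch⟩ hs ⟨_, b', hb', hκ', hv'⟩
    have h6 : b⁻¹ * (a⁻¹ * z) * b' ∈ K := by
      refine hκB a b hb (a⁻¹ * z) (hF' _ hs) b' hb' ?_
      have h7 : a * (a⁻¹ * z) * b' = z * b' := by group
      rw [h7, hκb, hκ']
    have h8 : (a * b)⁻¹ * (z * b') = b⁻¹ * (a⁻¹ * z) * b' := by group
    refine ⟨b', hb', hκ', hv', hch.step ?_ hv'⟩
    rw [h8]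
    exact hS' b hb _ hs b' hb' h6
  obtain ⟨b, hb, _, _, hch⟩ := key
  have h9 : (x * b₀)⁻¹ * (y * b) ∈ E := h _ hv₀ _ hch
  have h10 : x⁻¹ * y = b₀ * ((x * b₀)⁻¹ * (y * b)) * b⁻¹ := by group
  rw [h10]
  exact mem_conjE hb₀ h9 hb

theorem xx_zero (K K' L : Subgroup G) (hL : L ≤ K) (hc : CommT K K') (B : Finset G)
    (hB : ∀ b ∈ B, b ∈ K') (T' : Finset G) (hT' : ∀ t ∈ T', t ∈ L) :
    ∃ (Tb : G → Finset G) (C Y : Finset G), (∀ b ∈ B, ∀ s ∈ Tb b, s ∈ cj K L b) ∧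
      (∀ c ∈ C, c ∈ K) ∧ ∀ {m : ℕ} (κ : G → Fin m),
        (∀ x, ∀ b ∈ B, ∀ k ∈ K, ∀ b' ∈ B, κ (x * b) = κ (x * k * b') → b⁻¹ * k * b' ∈ K) →
        ∀ (k k₁ : Fin m) (v : G → ℕ) (E : Finset G),
          (∀ b ∈ B, Bdd (Tb b : Set G) {y | ∃ c ∈ C, v (y * c) = 0} E) →
          Bdd (T' : Set G) (XX B κ k k₁ v 0) (conjE Y E) := by
  classical
  have hΦex : ∀ b : G, ∃ Φ : Finset G, b ∈ B → (∀ f ∈ Φ, f ∈ L) ∧
      ∀ l ∈ L, ∃ f ∈ Φ, b⁻¹ * (l * f) * b ∈ K := by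
    intro b
    by_cases hb : b ∈ B
    · obtain ⟨F, _, hF⟩ := hc b (hB b hb)
      set g : G → G := fun f => if hP : ∃ l ∈ L, b⁻¹ * (l * f) * b ∈ K then (hP.choose)⁻¹ else 1
        with hg
      refine ⟨F.image g, fun _ => ⟨?_, ?_⟩⟩
      · intro f' hf'
        obtain ⟨f, _, rfl⟩ := Finset.mem_image.1 hf'
        by_cases hP : ∃ l ∈ L, b⁻¹ * (l * f) * b ∈ K
        · have e1 : g f = (hP.choose)⁻¹ := by
            rw [hg]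
            exact dif_pos hP
          rw [e1]
          exact L.inv_mem hP.choose_spec.1
        · have e1 : g f = 1 := by
            rw [hg]
            exact dif_neg hP
          rw [e1]
          exact L.one_mem
      · intro l hl
        obtain ⟨f, hf, hfK⟩ := hF l (hL hl)
        have hP : ∃ l ∈ L, b⁻¹ * (l * f) * b ∈ K := ⟨l, hl, hfK⟩
        have e1 : g f = (hP.choose)⁻¹ := by
          rw [hg]
          exact dif_pos hP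
        refine ⟨g f, Finset.mem_image_of_mem _ hf, ?_⟩
        rw [e1]
        have e2 : b⁻¹ * (l * (hP.choose)⁻¹) * b =
            (b⁻¹ * (l * f) * b) * (b⁻¹ * (hP.choose * f) * b)⁻¹ := by group
        rw [e2]
        exact K.mul_mem hfK (K.inv_mem hP.choose_spec.2)
    · exact ⟨∅, fun h => absurd h hb⟩
  choose Φ hΦ using hΦex
  set Tb : G → Finset G := fun b => ((Φ b ×ˢ T' ×ˢ Φ b).image
    (fun p => b⁻¹ * (p.1⁻¹ * p.2.1 * p.2.2) * b)).filter (fun g => g ∈ cj K L b) with hTbdef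
  set C : Finset G := ((B ×ˢ (B.biUnion Φ) ×ˢ B).image
    (fun p => p.1⁻¹ * p.2.1⁻¹ * p.2.2)).filter (fun g => g ∈ K) with hCdef
  set Y : Finset G := ((B.biUnion Φ) ×ˢ B).image (fun p => p.1 * p.2) with hYdef
  refine ⟨Tb, C, Y, fun b _ s hs => (Finset.mem_filter.1 hs).2,
    fun c hc' => (Finset.mem_filter.1 hc').2, ?_⟩
  have hCmem : ∀ b ∈ B, ∀ f ∈ Φ b, ∀ b' ∈ B, b⁻¹ * f⁻¹ * b' ∈ K → b⁻¹ * f⁻¹ * b' ∈ C := by
    intro b hb f hf b' hb' hK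
    refine Finset.mem_filter.2 ⟨Finset.mem_image.2 ⟨(b, f, b'), ?_, rfl⟩, hK⟩
    simp only [Finset.mem_product, Finset.mem_biUnion]
    exact ⟨hb, ⟨b, hb, hf⟩, hb'⟩
  have hYmem : ∀ b ∈ B, ∀ f ∈ Φ b, f * b ∈ Y := by
    intro b hb f hf
    refine Finset.mem_image.2 ⟨(f, b), ?_, rfl⟩
    simp only [Finset.mem_product, Finset.mem_biUnion]
    exact ⟨⟨b, hb, hf⟩, hb⟩
  intro m κ hκB k k₁ v E h x hx y hxy
  obtain ⟨_, b₀, hb₀, hκ₀, hv₀⟩ := hx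
  obtain ⟨hΦL, hΦK⟩ := hΦ b₀ hb₀
  obtain ⟨f₀, hf₀, hf₀K⟩ := hΦK 1 L.one_mem
  rw [one_mul] at hf₀K
  have key : x⁻¹ * y ∈ L ∧ ∃ b ∈ B, κ (y * b) = k₁ ∧ v (y * b) = 0 ∧
      (x * b₀)⁻¹ * (y * b) ∈ K ∧ ∃ f ∈ Φ b₀, b₀⁻¹ * (x⁻¹ * y * f) * b₀ ∈ K ∧
        Chain (Tb b₀ : Set G) (fun g => g ∈ {y | ∃ c ∈ C, v (y * c) = 0})
          (x * f₀ * b₀) (y * f * b₀) := by
    refine hxy.rec' (R := fun z => x⁻¹ * z ∈ L ∧ ∃ b ∈ B, κ (z * b) = k₁ ∧ v (z * b) = 0 ∧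
      (x * b₀)⁻¹ * (z * b) ∈ K ∧ ∃ f ∈ Φ b₀, b₀⁻¹ * (x⁻¹ * z * f) * b₀ ∈ K ∧
        Chain (Tb b₀ : Set G) (fun g => g ∈ {y | ∃ c ∈ C, v (y * c) = 0})
          (x * f₀ * b₀) (z * f * b₀)) ?_ ?_
    · refine ⟨by rw [inv_mul_cancel]; exact L.one_mem, b₀, hb₀, hκ₀, hv₀,
        by rw [inv_mul_cancel]; exact K.one_mem, f₀, hf₀, ?_, Chain.refl _ _ _⟩
      rw [inv_mul_cancel, one_mul]
      exact hf₀K
    · rintro a z _ ⟨haL, b, hb, hκb, hvb, habK, f, hf, hfK, hch⟩ hs ⟨_, b', hb', hκ', hv'⟩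
      have htL : a⁻¹ * z ∈ L := hT' _ hs
      have hxzL : x⁻¹ * z ∈ L := by
        have h1 : x⁻¹ * z = (x⁻¹ * a) * (a⁻¹ * z) := by group
        rw [h1]
        exact L.mul_mem haL htL
      have hbb : b⁻¹ * (a⁻¹ * z) * b' ∈ K := by
        refine hκB a b hb (a⁻¹ * z) (hL htL) b' hb' ?_
        have h7 : a * (a⁻¹ * z) * b' = z * b' := by group
        rw [h7, hκb, hκ']
      have hzbK : (x * b₀)⁻¹ * (z * b') ∈ K := by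
        have h1 : (x * b₀)⁻¹ * (z * b') = ((x * b₀)⁻¹ * (a * b)) * (b⁻¹ * (a⁻¹ * z) * b') := by
          group
        rw [h1]
        exact K.mul_mem habK hbb
      obtain ⟨f', hf', hf'K⟩ := hΦK (x⁻¹ * z) hxzL
      refine ⟨hxzL, b', hb', hκ', hv', hzbK, f', hf', hf'K, hch.step ?_ ?_⟩
      · have e1 : (a * f * b₀)⁻¹ * (z * f' * b₀) = b₀⁻¹ * (f⁻¹ * (a⁻¹ * z) * f') * b₀ := by group
        rw [e1]
        refine Finset.mem_coe.2 (Finset.mem_filter.2 ⟨Finset.mem_image.2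
          ⟨(f, a⁻¹ * z, f'), ?_, rfl⟩, mem_cj.2 ⟨?_, ?_⟩⟩)
        · simp only [Finset.mem_product]
          exact ⟨hf, hs, hf'⟩
        · have e2 : b₀ * (b₀⁻¹ * (f⁻¹ * (a⁻¹ * z) * f') * b₀) * b₀⁻¹ =
              f⁻¹ * (a⁻¹ * z) * f' := by group
          rw [e2]
          exact L.mul_mem (L.mul_mem (L.inv_mem (hΦL f hf)) htL) (hΦL f' hf')
        · have e2 : b₀⁻¹ * (f⁻¹ * (a⁻¹ * z) * f') * b₀ =
              (b₀⁻¹ * (x⁻¹ * a * f) * b₀)⁻¹ * (b₀⁻¹ * (x⁻¹ * z * f') * b₀) := by group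
          rw [e2]
          exact K.mul_mem (K.inv_mem hfK) hf'K
      · refine ⟨b₀⁻¹ * f'⁻¹ * b', hCmem b₀ hb₀ f' hf' b' hb' ?_, ?_⟩
        · have e2 : b₀⁻¹ * f'⁻¹ * b' =
              (b₀⁻¹ * (x⁻¹ * z * f') * b₀)⁻¹ * ((x * b₀)⁻¹ * (z * b')) := by group
          rw [e2]
          exact K.mul_mem (K.inv_mem hf'K) hzbK
        · have e2 : z * f' * b₀ * (b₀⁻¹ * f'⁻¹ * b') = z * b' := by group
          rw [e2]
          exact hv'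
  obtain ⟨_, b, hb, _, _, _, f, hf, _, hch⟩ := key
  have hstart : x * f₀ * b₀ ∈ {y | ∃ c ∈ C, v (y * c) = 0} := by
    refine ⟨b₀⁻¹ * f₀⁻¹ * b₀, hCmem b₀ hb₀ f₀ hf₀ b₀ hb₀ ?_, ?_⟩
    · have e2 : b₀⁻¹ * f₀⁻¹ * b₀ = (b₀⁻¹ * f₀ * b₀)⁻¹ := by group
      rw [e2]
      exact K.inv_mem hf₀K
    · have e2 : x * f₀ * b₀ * (b₀⁻¹ * f₀⁻¹ * b₀) = x * b₀ := by group
      rw [e2]
      exact hv₀
  have h9 : (x * f₀ * b₀)⁻¹ * (y * f * b₀) ∈ E := h b₀ hb₀ _ hstart _ hch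
  have h10 : x⁻¹ * y = (f₀ * b₀) * ((x * f₀ * b₀)⁻¹ * (y * f * b₀)) * (f * b₀)⁻¹ := by group
  rw [h10]
  exact mem_conjE (hYmem b₀ hb₀ f₀ hf₀) h9 (hYmem b₀ hb₀ f hf)

end Pool.Agent.Helper65.FP
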