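import Pool.Agent.Helper65.FP.Family
import Pool.Agent.Helper65.FP.Conj
import Pool.Agent.Helper65.FP.XComm

/-!
FP-25. The sequence of scales, commensurated case.

Proof: ADAPTATION of `exists_scales` in `GN/Scales.lean` (copy it). Differences: in the induction step take `Tb`, `C`, `Y` from `xx_zero` for `T'` (`T' ⊆ L`), and `v`, `Ev` from
`sep_family_thick` with `J = B`, the subgroups `cj K L b` (`sep_cj`), `Tb`, `S'`, `C`. The bound is `Ev' = conjE B Ev ∪ conjE Y Ev`; `hposT`, `hposF` from `xx_pos` (and `Bdd.mono`), `hzero` from `xx_zero`.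
Final bound `suE T E₀ Ev' ∪ suE F E₀ Ev'`.
-/

set_option autoImplicit false

namespace Pool.Agent.Helper65.FP

open Pool.Agent.Helper65.TH Pool.Agent.Helper65.GN

variable {G : Type*} [Group G]

theorem exists_scales_comm (K K' L : Subgroup G) (hL : L ≤ K) (hKK' : K ≤ K') (hc : CommT K K')
    {n : ℕ} (h : Sep K L n) (B : Finset G) (hB : ∀ b ∈ B, b ∈ K') {m : ℕ} (κ : G → Fin m)
    (hκB : ∀ x, ∀ b ∈ B, ∀ k ∈ K, ∀ b' ∈ B, κ (x * b) = κ (x * k * b') → b⁻¹ * k * b' ∈ K)
    (T F : Finset G) (hT : ∀ s ∈ T, s ∈ L) (hF : ∀ s ∈ F, s ∈ K) (col : ℕ → Fin m) (J : ℕ) :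
    ∃ (w : ℕ → G → ℕ) (E : Finset G), (∀ j x, w j x ≤ n) ∧ ∀ (k : Fin m) (c : ℕ → ℕ),
      Bdd (T : Set G) (⋃ j ∈ Finset.range J, XX B κ k (col j) (w j) (c j)) E ∧
      ((∀ j < J, 1 ≤ c j) →
        Bdd (F : Set G) (⋃ j ∈ Finset.range J, XX B κ k (col j) (w j) (c j)) E) := by
  classical
  induction J with
  | zero =>
    refine ⟨fun _ _ => 0, ∅, fun _ _ => Nat.zero_le _, fun k c => ⟨?_, fun _ => ?_⟩⟩
    · have h0 : (⋃ j ∈ Finset.range 0, XX B κ k (col j) (fun _ => 0) (c j)) = ∅ := by simp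
      rw [h0]
      exact bdd_empty _ _
    · have h0 : (⋃ j ∈ Finset.range 0, XX B κ k (col j) (fun _ => 0) (c j)) = ∅ := by simp
      rw [h0]
      exact bdd_empty _ _
  | succ J ih =>
    obtain ⟨w, E₀, hw, hE₀⟩ := ih
    set T' : Finset G := T ∪ ((T ×ˢ (E₀.filter (fun e => e ∈ L)) ×ˢ T).image
      (fun p => p.1 * p.2.1 * p.2.2)) with hT'def
    set F'' : Finset G := F ∪ ((F ×ˢ (E₀.filter (fun e => e ∈ K)) ×ˢ F).image
      (fun p => p.1 * p.2.1 * p.2.2)) with hF''def
    set S' : Finset G := ((B ×ˢ (T' ∪ F'') ×ˢ B).image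
      (fun p => p.1⁻¹ * p.2.1 * p.2.2)).filter (fun e => e ∈ K) with hS'def
    have hT'L : ∀ s ∈ T', s ∈ L := by
      intro s hs
      rw [hT'def, Finset.mem_union] at hs
      rcases hs with hs | hs
      · exact hT s hs
      · obtain ⟨⟨t, e, t'⟩, hp, rfl⟩ := Finset.mem_image.1 hs
        simp only [Finset.mem_product, Finset.mem_filter] at hp
        exact L.mul_mem (L.mul_mem (hT _ hp.1) hp.2.1.2) (hT _ hp.2.2)
    have hF''K : ∀ s ∈ F'', s ∈ K := by
      intro s hs
      rw [hF''def, Finset.mem_union] at hs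
      rcases hs with hs | hs
      · exact hF s hs
      · obtain ⟨⟨t, e, t'⟩, hp, rfl⟩ := Finset.mem_image.1 hs
        simp only [Finset.mem_product, Finset.mem_filter] at hp
        exact K.mul_mem (K.mul_mem (hF _ hp.1) hp.2.1.2) (hF _ hp.2.2)
    have hS'K : ∀ s ∈ S', s ∈ K := fun s hs => (Finset.mem_filter.1 hs).2
    have hS'mem : ∀ b ∈ B, ∀ f ∈ T' ∪ F'', ∀ b' ∈ B, b⁻¹ * f * b' ∈ K → b⁻¹ * f * b' ∈ S' := by
      intro b hb f hf b' hb' hK
      exact Finset.mem_filter.2 ⟨Finset.mem_image.2 ⟨(b, f, b'), by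
        simp only [Finset.mem_product]
        exact ⟨hb, hf, hb'⟩, rfl⟩, hK⟩
    obtain ⟨Tb, C, Y, hTb, hCK, hxz⟩ := xx_zero K K' L hL hc B hB T' hT'L
    obtain ⟨v, Ev, hv, hv0, hv1⟩ := sep_family_thick K n B (fun b => cj K L b)
      (fun b hb => sep_cj K K' L hL hKK' hc h b (hB b hb)) Tb hTb S' hS'K C hCK
    set Ev' : Finset G := conjE B Ev ∪ conjE Y Ev with hEv'
    refine ⟨Function.update w J v,
      suE T E₀ Ev' ∪ suE F E₀ Ev', ?_, fun k c => ?_⟩
    · intro j x
      rcases eq_or_ne j J with rfl | hj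
      · rw [Function.update_self]
        exact hv x
      · rw [Function.update_of_ne hj]
        exact hw j x
    have hU : (⋃ j ∈ Finset.range (J + 1), XX B κ k (col j) (Function.update w J v j) (c j)) =
        (⋃ j ∈ Finset.range J, XX B κ k (col j) (w j) (c j)) ∪ XX B κ k (col J) v (c J) := by
      ext z
      simp only [Set.mem_iUnion, Set.mem_union, Finset.mem_range]
      constructor
      · rintro ⟨j, hj, hz⟩
        rcases eq_or_ne j J with rfl | hjJ
        · right
          rwa [Function.update_self] at hz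
        · left
          rw [Function.update_of_ne hjJ] at hz
          exact ⟨j, by omega, hz⟩
      · rintro (⟨j, hj, hz⟩ | hz)
        · refine ⟨j, by omega, ?_⟩
          rwa [Function.update_of_ne (by omega)]
        · refine ⟨J, by omega, ?_⟩
          rwa [Function.update_self]
    rw [hU]
    have hposT : 1 ≤ c J → Bdd (T' : Set G) (XX B κ k (col J) v (c J)) Ev' := by
      intro hcJ
      exact (xx_pos K B κ hκB k (col J) v (c J) T' S' Ev
        (fun f hf => hL (hT'L f hf))
        (fun b hb f hf b' hb' hK => hS'mem b hb f (Finset.mem_union_left _ hf) b' hb' hK)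
        (hv1 _ hcJ)).mono subset_rfl subset_rfl Finset.subset_union_left
    have hposF : 1 ≤ c J → Bdd (F'' : Set G) (XX B κ k (col J) v (c J)) Ev' := by
      intro hcJ
      exact (xx_pos K B κ hκB k (col J) v (c J) F'' S' Ev hF''K
        (fun b hb f hf b' hb' hK => hS'mem b hb f (Finset.mem_union_right _ hf) b' hb' hK)
        (hv1 _ hcJ)).mono subset_rfl subset_rfl Finset.subset_union_left
    have hzero : Bdd (T' : Set G) (XX B κ k (col J) v 0) Ev' :=
      (hxz κ hκB k (col J) v Ev hv0).mono subset_rfl subset_rfl Finset.subset_union_right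
    constructor
    · have h1 : Bdd (T' : Set G) (XX B κ k (col J) v (c J)) Ev' := by
        rcases Nat.eq_zero_or_pos (c J) with hc | hc
        · rw [hc]
          exact hzero
        · exact hposT hc
      refine (bdd_union L T hT _ _ E₀ T' Ev' (hE₀ k c).1 h1 Finset.subset_union_left
        ?_).mono subset_rfl subset_rfl Finset.subset_union_left
      intro f hf e he heL f' hf'
      refine Finset.mem_union_right _ (Finset.mem_image.2 ⟨(f, e, f'), ?_, rfl⟩)
      simp only [Finset.mem_product, Finset.mem_filter]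
      exact ⟨hf, ⟨he, heL⟩, hf'⟩
    · intro hc
      refine (bdd_union K F hF _ _ E₀ F'' Ev' ((hE₀ k c).2 (fun j hj => hc j (by omega)))
        (hposF (hc J (by omega))) Finset.subset_union_left
        ?_).mono subset_rfl subset_rfl Finset.subset_union_right
      intro f hf e he heL f' hf'
      refine Finset.mem_union_right _ (Finset.mem_image.2 ⟨(f, e, f'), ?_, rfl⟩)
      simp only [Finset.mem_product, Finset.mem_filter]
      exact ⟨hf, ⟨he, heL⟩, hf'⟩

end Pool.Agent.Helper65.FP
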