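import Pool.Agent.Helper65.FP.Cut

/-!
FP-33. Special cases: virtual free products of groups of polynomial growth, towers.
-/

set_option autoImplicit false

namespace Pool.Agent.Helper65.FP

open Pool.Agent.Helper65.TH Pool.Agent.Helper65.GN
open scoped Pointwise

variable {G : Type*} [Group G]

/-- `H` is finitely generated and of polynomial growth: it is generated by a finite symmetric set `T`
containing `1` such that `T ^ k` has at most `C * (k + 1) ^ d` elements. -/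
def PolyGrowth (H : Subgroup G) : Prop :=
  ∃ (T : Finset G) (C d : ℕ), (1 : G) ∈ T ∧ (∀ t ∈ T, t⁻¹ ∈ T) ∧
    Subgroup.closure (T : Set G) = H ∧ ∀ k : ℕ, ((T : Set G) ^ k).ncard ≤ C * (k + 1) ^ d

/-- `H` has a subgroup of finite index which is the free product of finitely many subgroups which
are finitely generated and of polynomial growth. -/
def VirtFree (H : Subgroup G) : Prop :=
  ∃ (r : ℕ) (A : Fin r → Subgroup G), (∀ i, PolyGrowth (A i)) ∧
    Function.Injective (Monoid.CoprodI.lift fun i => (A i).subtype) ∧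
    (⨆ i, A i) ≤ H ∧ (⨆ i, A i).relIndex H ≠ 0

theorem PolyGrowth.cut {H : Subgroup G} (h : PolyGrowth H) : ∃ n, Cut n ⊤ H := by
  obtain ⟨T, C, d, h1, h2, rfl, h3⟩ := h
  exact ⟨d, Cut.growth T C d h1 h2 h3⟩

theorem VirtFree.cut {H : Subgroup G} (h : VirtFree H) : ∃ n, Cut n ⊤ H := by
  obtain ⟨r, A, hA, hinj, hle, hi⟩ := h
  choose n hn using fun i => (hA i).cut
  exact ⟨_, Cut.index _ _ _ _ (Cut.free ⊤ r A n (fun _ => le_top) hinj hn) le_top hle hi⟩

/-- every finite subset lies in a subgroup which is cut in the whole group -/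
def Nice2 (K : Subgroup G) : Prop :=
  ∀ T : Finset G, (∀ s ∈ T, s ∈ K) → ∃ (n : ℕ) (L : Subgroup G), (∀ s ∈ T, s ∈ L) ∧ L ≤ K ∧
    Cut n K L

theorem nice2_of_virtFree (H : ℕ → Subgroup G) (hle : ∀ n, H n ≤ H (n + 1))
    (hun : ∀ g : G, ∃ n, g ∈ H n) (hv : ∀ n, VirtFree (H n)) : Nice2 (⊤ : Subgroup G) := by
  intro T _
  have hmono : Monotone H := monotone_nat_of_le_succ hle
  choose f hf using hun
  obtain ⟨n, hn⟩ := (hv (T.sup f)).cut
  exact ⟨n, H (T.sup f), fun s hs => hmono (Finset.le_sup (f := f) hs) (hf s), le_top, hn⟩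

theorem cut_tower (H : ℕ → Subgroup G) (hle : ∀ n, H n ≤ H (n + 1))
    (hs : ∀ n, Commensurated (H n) (H (n + 1)) ∨ Rooted (H n) (H (n + 1))) (m t : ℕ)
    (ht : Cut t (H m) (H m)) : ∀ n, m ≤ n → Cut t (H n) (H m) := by
  have hmono : Monotone H := monotone_nat_of_le_succ hle
  intro n hmn
  induction n, hmn using Nat.le_induction with
  | base => exact ht
  | succ n hn ih =>
    rcases hs n with h | h
    · exact Cut.comm _ _ _ _ ih (hmono hn) (hle n) h
    · exact Cut.rooted _ _ _ _ ih (hmono hn) (hle n) h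

theorem nice2_of_tower (H : ℕ → Subgroup G) (hle : ∀ n, H n ≤ H (n + 1))
    (hs : ∀ n, Commensurated (H n) (H (n + 1)) ∨ Rooted (H n) (H (n + 1)))
    (hun : ∀ g : G, ∃ n, g ∈ H n) (has : ∀ n, ∃ t : ℕ, AsdimLT (H n) t) :
    Nice2 (⊤ : Subgroup G) := by
  intro T _
  have hmono : Monotone H := monotone_nat_of_le_succ hle
  choose f hf using hun
  obtain ⟨m, hm⟩ : ∃ m, ∀ s ∈ T, s ∈ H m :=
    ⟨T.sup f, fun s hs => hmono (Finset.le_sup (f := f) hs) (hf s)⟩
  obtain ⟨t, ht⟩ := has m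
  refine ⟨t, H m, hm, le_top, ?_⟩
  have htop : sSup {K | ∃ n, m ≤ n ∧ K = H n} = (⊤ : Subgroup G) := by
    rw [eq_top_iff]
    intro g _
    have h1 : H (max m (f g)) ≤ sSup {K | ∃ n, m ≤ n ∧ K = H n} :=
      le_sSup ⟨max m (f g), le_max_left _ _, rfl⟩
    exact h1 (hmono (le_max_right _ _) (hf g))
  rw [← htop]
  refine Cut.union _ _ _ ⟨H m, m, le_rfl, rfl⟩ ?_ ?_
  · rintro _ ⟨a, ha, rfl⟩ _ ⟨b, hb, rfl⟩
    exact ⟨H (max a b), ⟨max a b, ha.trans (le_max_left _ _), rfl⟩, hmono (le_max_left _ _),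
      hmono (le_max_right _ _)⟩
  · rintro _ ⟨n, hmn, rfl⟩
    exact cut_tower H hle hs m t (Cut.asdim _ _ ht) n hmn

end Pool.Agent.Helper65.FP
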